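import Mathlib

/-!
Definitions: etale groupoids, principal and amenable groupoids, finite dynamical complexity.
-/

set_option autoImplicit false

namespace Pool.Agent.H289Z.EG

open Set Filter

/-- An etale groupoid with space of arrows `G` and unit space `X`: source `s`, range `r`, unit
arrows `u`, product `mul g h` (meaningful when `s g = r h`) and inverse `inv`. -/
structure EtaleGroupoid (G X : Type) [TopologicalSpace G] [TopologicalSpace X] where
  s : G → X
  r : G → X
  u : X → G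
  mul : G → G → G
  inv : G → G
  s_u : ∀ x, s (u x) = x
  r_u : ∀ x, r (u x) = x
  s_mul : ∀ g h, s g = r h → s (mul g h) = s h
  r_mul : ∀ g h, s g = r h → r (mul g h) = r g
  mul_assoc : ∀ g h k, s g = r h → s h = r k → mul (mul g h) k = mul g (mul h k)
  u_mul : ∀ g, mul (u (r g)) g = g
  mul_u : ∀ g, mul g (u (s g)) = g
  s_inv : ∀ g, s (inv g) = r g
  r_inv : ∀ g, r (inv g) = s g
  mul_inv : ∀ g, mul g (inv g) = u (r g)
  inv_mul : ∀ g, mul (inv g) g = u (s g)
  continuous_u : Continuous u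
  continuous_inv : Continuous inv
  continuousOn_mul : ContinuousOn (fun a : G × G => mul a.1 a.2) {a | s a.1 = r a.2}
  isLocalHomeomorph_s : IsLocalHomeomorph s
  isLocalHomeomorph_r : IsLocalHomeomorph r

variable {G X : Type} [TopologicalSpace G] [TopologicalSpace X] (𝒢 : EtaleGroupoid G X)

/-- every isotropy group is trivial -/
def Principal : Prop := ∀ g x, 𝒢.r g = x → 𝒢.s g = x → g = 𝒢.u x

/-- topological amenability: a net of continuous compactly supported functions that are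
probability measures on the range fibres and are asymptotically invariant, uniformly on compact
sets -/
def Amenable : Prop :=
  ∃ (ι : Type) (_ : Preorder ι) (_ : IsDirectedOrder ι) (_ : Nonempty ι) (ξ : ι → G → ℝ),
    (∀ i, Continuous (ξ i)) ∧ (∀ i, HasCompactSupport (ξ i)) ∧ (∀ i g, 0 ≤ ξ i g) ∧
    (∀ i x, HasSum (fun h : {h // 𝒢.r h = x} => ξ i h) 1) ∧
    ∀ L : Set G, IsCompact L → TendstoUniformlyOn
      (fun i g => ∑' h : {h // 𝒢.r h = 𝒢.s g}, |ξ i (𝒢.mul g h) - ξ i h|) (fun _ => 0) atTop L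

/-- closed under products of composable arrows and under inverses -/
def IsSubgroupoid (H : Set G) : Prop :=
  (∀ g ∈ H, ∀ h ∈ H, 𝒢.s g = 𝒢.r h → 𝒢.mul g h ∈ H) ∧ ∀ g ∈ H, 𝒢.inv g ∈ H

/-- the unit space of a subgroupoid -/
def unitSpace (H : Set G) : Set X := {x | 𝒢.u x ∈ H}

/-- the subgroupoid generated by a set of arrows -/
def generated (K : Set G) : Set G := ⋂₀ {H | IsSubgroupoid 𝒢 H ∧ K ⊆ H}

/-- `H` is decomposable over `𝒞` -/
def Decomposable (H : Set G) (𝒞 : Set (Set G)) : Prop :=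
  ∀ K : Set G, IsOpen K → IsCompact (closure K) → K ⊆ H →
    ∃ U₀ U₁ : Set X, IsOpen U₀ ∧ IsOpen U₁ ∧ U₀ ∪ U₁ = unitSpace 𝒢 H ∧
      generated 𝒢 {h ∈ K | 𝒢.s h ∈ U₀} ∈ 𝒞 ∧ generated 𝒢 {h ∈ K | 𝒢.s h ∈ U₁} ∈ 𝒞

/-- the groupoid lies in the smallest set of open subgroupoids that contains the relatively compact
open subgroupoids and is closed under decomposability -/
def FDC : Prop :=
  ∀ 𝒞 : Set (Set G), (∀ H ∈ 𝒞, IsOpen H ∧ IsSubgroupoid 𝒢 H) →
    (∀ H : Set G, IsOpen H → IsSubgroupoid 𝒢 H → IsCompact (closure H) → H ∈ 𝒞) →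
    (∀ H : Set G, IsOpen H → IsSubgroupoid 𝒢 H → Decomposable 𝒢 H 𝒞 → H ∈ 𝒞) →
    univ ∈ 𝒞

end Pool.Agent.H289Z.EG
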