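import Pool.Agent.H289Z.FD3
import Pool.Agent.H289Z.EGDefs

set_option autoImplicit false

namespace Pool.Agent.H289Z.EG

open Set Filter Topology
open scoped BigOperators

section transf

variable (Γ X : Type) [Group Γ] [TopologicalSpace Γ] [DiscreteTopology Γ] [MulAction Γ X]
  [TopologicalSpace X] [ContinuousConstSMul Γ X]

theorem cont_act : Continuous fun a : Γ × X => a.1 • a.2 :=
  continuous_prod_of_discrete_left.2 fun g => continuous_const_smul g

theorem lh_snd : IsLocalHomeomorph (Prod.snd : Γ × X → X) := by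
  intro a
  let e : OpenPartialHomeomorph (Γ × X) X :=
    { toFun := Prod.snd
      invFun := fun y => (a.1, y)
      source := {a.1} ×ˢ univ
      target := univ
      map_source' := fun _ _ => trivial
      map_target' := fun _ _ => ⟨rfl, trivial⟩
      left_inv' := fun b hb => Prod.ext hb.1.symm rfl
      right_inv' := fun _ _ => rfl
      open_source := (isOpen_discrete _).prod isOpen_univ
      open_target := isOpen_univ
      continuousOn_toFun := continuous_snd.continuousOn
      continuousOn_invFun := (continuous_const.prodMk continuous_id).continuousOn }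
  exact ⟨e, ⟨rfl, trivial⟩, rfl⟩

/-- inversion as a homeomorphism -/
def invH : Γ × X ≃ₜ Γ × X where
  toFun a := (a.1⁻¹, a.1 • a.2)
  invFun a := (a.1⁻¹, a.1 • a.2)
  left_inv a := by simp
  right_inv a := by simp
  continuous_toFun := (continuous_of_discreteTopology.comp continuous_fst).prodMk (cont_act Γ X)
  continuous_invFun := (continuous_of_discreteTopology.comp continuous_fst).prodMk (cont_act Γ X)

/-- the transformation groupoid -/
def transf : EtaleGroupoid (Γ × X) X where
  s a := a.2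
  r a := a.1 • a.2
  u x := (1, x)
  mul a b := (a.1 * b.1, b.2)
  inv a := (a.1⁻¹, a.1 • a.2)
  s_u _ := rfl
  r_u x := one_smul _ x
  s_mul _ _ _ := rfl
  r_mul g h e := by
    show (g.1 * h.1) • h.2 = g.1 • g.2
    rw [mul_smul, show g.2 = h.1 • h.2 from e]
  mul_assoc g h k _ _ := Prod.ext (mul_assoc _ _ _) rfl
  u_mul g := Prod.ext (one_mul _) rfl
  mul_u g := Prod.ext (mul_one _) rfl
  s_inv _ := rfl
  r_inv g := inv_smul_smul _ _
  mul_inv g := Prod.ext (mul_inv_cancel _) rfl
  inv_mul g := Prod.ext (inv_mul_cancel _) rfl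
  continuous_u := continuous_const.prodMk continuous_id
  continuous_inv := (invH Γ X).continuous
  continuousOn_mul := by
    refine Continuous.continuousOn (Continuous.prodMk ?_ (continuous_snd.comp continuous_snd))
    exact (continuous_of_discreteTopology (f := fun b : Γ × Γ => b.1 * b.2)).comp
      ((continuous_fst.comp continuous_fst).prodMk (continuous_fst.comp continuous_snd))
  isLocalHomeomorph_s := lh_snd Γ X
  isLocalHomeomorph_r := (lh_snd Γ X).comp (invH Γ X).isLocalHomeomorph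

theorem sub_iff (H : Set (Γ × X)) : IsSubgroupoid (transf Γ X) H ↔ FD.IsSubgroupoid H := by
  constructor
  · rintro ⟨h1, h2⟩
    exact ⟨fun g h x a b => h1 _ b _ a rfl, fun g x a => h2 _ a⟩
  · rintro ⟨h1, h2⟩
    refine ⟨fun g hg h hh e => h1 h.1 g.1 h.2 hh ?_, fun g hg => h2 g.1 g.2 hg⟩
    rw [← show g.2 = h.1 • h.2 from e]
    exact hg

theorem fdc_imp (h : FDC (transf Γ X)) : FD.FiniteDynamicalComplexity Γ X := by
  intro 𝒞 h1 h2
  have := h {H | H ∈ 𝒞 ∧ IsOpen H ∧ IsSubgroupoid (transf Γ X) H} (fun H hH => hH.2)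
    (fun H a b c => ⟨h1 H a ((sub_iff Γ X H).1 b) c, a, b⟩) fun H a b c => ?_
  · exact this.1
  refine ⟨h2 H a ((sub_iff Γ X H).1 b) fun K k1 k2 k3 => ?_, a, b⟩
  obtain ⟨U0, U1, o0, o1, e, g0, g1⟩ := c K k1 k2 (subset_closure.trans k3)
  have key : ∀ U : Set X, FD.generated {a ∈ K | a.2 ∈ U ∧ a.1 • a.2 ∈ U} ⊆
      generated (transf Γ X) {h ∈ K | (transf Γ X).s h ∈ U} := by
    intro U z hz G hG
    exact hz G ⟨(sub_iff Γ X G).1 hG.1, fun b hb => hG.2 ⟨hb.1, hb.2.1⟩⟩
  exact ⟨U0, U1, o0, o1, e.symm, ⟨_, g0.1, key U0⟩, ⟨_, g1.1, key U1⟩⟩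

/-- the range fibre is a copy of the group -/
def fib (x : X) : Γ ≃ {h // (transf Γ X).r h = x} where
  toFun g := ⟨(g, g⁻¹ • x), smul_inv_smul g x⟩
  invFun h := h.1.1
  left_inv _ := rfl
  right_inv h := by
    obtain ⟨⟨g, y⟩, e⟩ := h
    have e' : g • y = x := e
    subst e'
    exact Subtype.ext (Prod.ext rfl (inv_smul_smul g y))

end transf

/-- intervals -/
noncomputable def Iv (n : ℕ) : Finset (Multiplicative ℤ) :=
  (Finset.Ico (0 : ℤ) (n + 1 : ℕ)).map Multiplicative.ofAdd.toEmbedding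

theorem mem_Iv (n : ℕ) (g : Multiplicative ℤ) :
    g ∈ Iv n ↔ 0 ≤ Multiplicative.toAdd g ∧ Multiplicative.toAdd g < (n + 1 : ℕ) := by
  simp only [Iv, Finset.mem_map, Finset.mem_Ico]
  constructor
  · rintro ⟨a, ha, rfl⟩
    exact ha
  · intro h
    exact ⟨_, h, rfl⟩

/-- uniform measures on intervals -/
noncomputable def mm (n : ℕ) (g : Multiplicative ℤ) : ℝ := if g ∈ Iv n then 1 / (n + 1) else 0

theorem mm_sum (n : ℕ) : HasSum (mm n) 1 := by
  have h1 : ∑ g ∈ Iv n, mm n g = 1 := by
    unfold mm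
    rw [Finset.sum_congr rfl fun g hg => if_pos hg, Finset.sum_const, nsmul_eq_mul]
    have : (Iv n).card = n + 1 := by simp [Iv]
    rw [this]
    push_cast
    field_simp
  rw [← h1]
  exact hasSum_sum_of_ne_finset_zero fun g hg => if_neg hg

theorem mm_folner (n c : ℕ) (γ : Multiplicative ℤ) (hc : (Multiplicative.toAdd γ).natAbs ≤ c) :
    ∑' g, |mm n (γ * g) - mm n g| ≤ 4 * (c + 1) * (1 / (n + 1)) := by
  classical
  let D : Finset (Multiplicative ℤ) := (Finset.Icc (-(c : ℤ)) c ∪
    Finset.Icc (((n + 1 : ℕ) : ℤ) - c) ((n + 1 : ℕ) + c)).image Multiplicative.ofAdd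
  have hD : ∀ g, g ∉ D → (γ * g ∈ Iv n ↔ g ∈ Iv n) := by
    intro g hg
    have h1 : Multiplicative.toAdd g ∉ Finset.Icc (-(c : ℤ)) c ∪
        Finset.Icc (((n + 1 : ℕ) : ℤ) - c) ((n + 1 : ℕ) + c) :=
      fun h => hg (Finset.mem_image.2 ⟨_, h, rfl⟩)
    simp only [Finset.mem_union, Finset.mem_Icc] at h1
    rw [mem_Iv, mem_Iv, toAdd_mul]
    omega
  have hDc : (D.card : ℝ) ≤ 4 * (c + 1) := by
    have h1 : D.card ≤ 4 * (c + 1) := by
      refine Finset.card_image_le.trans ((Finset.card_union_le _ _).trans ?_)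
      simp only [Int.card_Icc]
      omega
    exact_mod_cast h1
  have hpos : (0 : ℝ) < 1 / (n + 1) := by positivity
  rw [tsum_eq_sum (s := D) fun g hg => by simp only [mm, hD g hg, sub_self, abs_zero]]
  refine le_trans (Finset.sum_le_card_nsmul D _ (1 / (n + 1) : ℝ) fun g _ => ?_) ?_
  · unfold mm
    split_ifs
    · rw [sub_self, abs_zero]; exact hpos.le
    · rw [sub_zero, abs_of_pos hpos]
    · rw [zero_sub, abs_neg, abs_of_pos hpos]
    · rw [sub_self, abs_zero]; exact hpos.le
  · rw [nsmul_eq_mul]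
    exact mul_le_mul_of_nonneg_right hDc hpos.le

theorem amenable_transf (X : Type) [MulAction (Multiplicative ℤ) X] [TopologicalSpace X]
    [ContinuousConstSMul (Multiplicative ℤ) X] [CompactSpace X] :
    Amenable (transf (Multiplicative ℤ) X) := by
  refine ⟨ℕ, inferInstance, inferInstance, inferInstance, fun n a => mm n a.1,
    fun n => (continuous_of_discreteTopology (f := mm n)).comp continuous_fst, fun n => ?_, fun n a => ?_,
    fun n x => ?_, fun L hL => ?_⟩
  · refine HasCompactSupport.intro' (K := (Iv n : Set (Multiplicative ℤ)) ×ˢ univ)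
      ((Iv n).finite_toSet.isCompact.prod isCompact_univ)
      ((isClosed_discrete _).prod isClosed_univ) fun a ha => if_neg fun h => ha ⟨h, trivial⟩
  · show 0 ≤ mm n a.1
    unfold mm
    split_ifs
    exacts [by positivity, le_rfl]
  · exact ((fib (Multiplicative ℤ) X x).hasSum_iff).1 (mm_sum n)
  · have hfin : (Prod.fst '' L).Finite := (hL.image continuous_fst).finite_of_discrete
    obtain ⟨c, hc⟩ := (hfin.image fun γ => (Multiplicative.toAdd γ).natAbs).bddAbove
    rw [Metric.tendstoUniformlyOn_iff]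
    intro ε hε
    have ht : Tendsto (fun n : ℕ => 4 * ((c : ℝ) + 1) * (1 / ((n : ℝ) + 1))) atTop (𝓝 0) := by
      have := tendsto_one_div_add_atTop_nhds_zero_nat (𝕜 := ℝ).const_mul (4 * ((c : ℝ) + 1))
      rwa [mul_zero] at this
    filter_upwards [ht.eventually (gt_mem_nhds hε)] with n hn a ha
    rw [← (fib (Multiplicative ℤ) X _).tsum_eq, Real.dist_eq, zero_sub, abs_neg,
      abs_of_nonneg (tsum_nonneg fun _ => abs_nonneg _)]
    exact lt_of_le_of_lt (mm_folner n c a.1 (hc ⟨_, ⟨a, ha, rfl⟩, rfl⟩)) hn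

theorem main : ∃ (G X : Type) (_ : TopologicalSpace G) (_ : TopologicalSpace X)
    (_ : LocallyCompactSpace G) (_ : T2Space G) (_ : SecondCountableTopology G)
    (_ : CompactSpace X) (𝒢 : EtaleGroupoid G X), Principal 𝒢 ∧ Amenable 𝒢 ∧ ¬ FDC 𝒢 := by
  refine ⟨Multiplicative ℤ × FD.XS, FD.XS, inferInstance, inferInstance, inferInstance,
    inferInstance, ?_, inferInstance, transf _ _, fun g x h1 h2 => ?_,
    amenable_transf _, fun h => FD.not_fdc (fdc_imp _ _ h)⟩
  · haveI : SecondCountableTopology (Multiplicative ℤ) :=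
      inferInstanceAs (SecondCountableTopology ℤ)
    infer_instance
  · have e : g.2 = x := h2
    refine Prod.ext (FD.free_XS g.1 g.2 ?_) e
    rw [show g.1 • g.2 = x from h1, e]

end Pool.Agent.H289Z.EG
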