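import Pool.Agent.H289Z.ZI2

set_option autoImplicit false

namespace Pool.Agent.H289Z.FD

open Set Filter Topology Complex
open scoped BigOperators
open Pool.Agent.H289Z.ZI (ch ch_add norm_ch continuous_ch)

theorem ch_nat (n : ℕ) : ch (n : ℝ) = 1 := by
  unfold ch
  have : I * ((2 * Real.pi * (n : ℝ) : ℝ) : ℂ) = (n : ℂ) * (2 * Real.pi * I) := by
    push_cast
    ring
  rw [this, Complex.exp_nat_mul_two_pi_mul_I]

theorem ch_pow (n : ℕ) (x : ℝ) : ch (n * x) = ch x ^ n := by
  unfold ch
  rw [← Complex.exp_nat_mul]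
  congr 1
  push_cast
  ring

theorem ch_ne (x : ℝ) : ch x ≠ 0 := by
  intro h
  have := norm_ch x
  rw [h, norm_zero] at this
  exact zero_ne_one this

/-- at most `k` equivariant functions without common zero on `Y` -/
def Gen {A : Type} [TopologicalSpace A] (T : A → A) (p : ℕ) (Y : Set A) (k : ℝ) : Prop :=
  ∃ (J : Type) (_ : Fintype J) (F : J → A → ℂ) (w : J → ℕ), (∀ j, Continuous (F j)) ∧
    (∀ j, ¬ p ∣ w j) ∧ (∀ j u, F j (T u) = ch (w j / p) * F j u) ∧
    (Fintype.card J : ℝ) ≤ k ∧ ∀ u ∈ Y, ∃ j, F j u ≠ 0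

section gen

variable {A : Type} [TopologicalSpace A] {T : A → A} {p : ℕ}

theorem Gen.mono {Y Y' : Set A} {k k' : ℝ} (h : Gen T p Y k) (hY : Y' ⊆ Y) (hk : k ≤ k') :
    Gen T p Y' k' := by
  obtain ⟨J, i, F, w, h1, h2, h3, h4, h5⟩ := h
  exact ⟨J, i, F, w, h1, h2, h3, h4.trans hk, fun u hu => h5 u (hY hu)⟩

theorem Gen.empty {k : ℝ} (hk : 0 ≤ k) : Gen T p ∅ k :=
  ⟨Empty, inferInstance, fun j => j.elim, fun j => j.elim, fun j => j.elim, fun j => j.elim,
    fun j => j.elim, by simpa using hk, fun _ hu => hu.elim⟩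

theorem Gen.union {Y Y' : Set A} {k k' : ℝ} (h : Gen T p Y k) (h' : Gen T p Y' k') :
    Gen T p (Y ∪ Y') (k + k') := by
  obtain ⟨J, i, F, w, h1, h2, h3, h4, h5⟩ := h
  obtain ⟨J', i', F', w', h1', h2', h3', h4', h5'⟩ := h'
  refine ⟨J ⊕ J', inferInstance, Sum.elim F F', Sum.elim w w', ?_, ?_, ?_, ?_, ?_⟩
  · rintro (j | j)
    exacts [h1 j, h1' j]
  · rintro (j | j)
    exacts [h2 j, h2' j]
  · rintro (j | j)
    exacts [h3 j, h3' j]
  · rw [Fintype.card_sum]
    push_cast
    linarith
  · rintro u (hu | hu)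
    · obtain ⟨j, hj⟩ := h5 u hu
      exact ⟨Sum.inl j, hj⟩
    · obtain ⟨j, hj⟩ := h5' u hu
      exact ⟨Sum.inr j, hj⟩

end gen

/-- power sums of a positive combination cannot all vanish -/
theorem power_sums (s : Finset ℕ) (a : ℕ → ℝ) (z : ℕ → ℂ) (ha : ∀ j, 0 ≤ a j) (hz : ∀ j, z j ≠ 0)
    (Z : Finset ℂ) (hZ : ∀ j ∈ s, 0 < a j → z j ∈ Z) {j0 : ℕ} (hj0 : j0 ∈ s) (hp : 0 < a j0) :
    ∃ l, l < Z.card ∧ ∑ j ∈ s, (a j : ℂ) * z j ^ (l + 1) ≠ 0 := by
  classical
  by_contra hc
  push Not at hc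
  let q : Polynomial ℂ := ∏ ζ ∈ Z.erase (z j0), (Polynomial.X - Polynomial.C ζ)
  have hdeg : q.natDegree < Z.card := by
    have h1 : q.natDegree = (Z.erase (z j0)).card := by
      simp only [q]
      rw [Polynomial.natDegree_prod_of_monic _ _ fun ζ _ => Polynomial.monic_X_sub_C ζ]
      simp
    rw [h1]
    exact Finset.card_erase_lt_of_mem (hZ j0 hj0 hp)
  have h1 : ∑ j ∈ s, (a j : ℂ) * (z j * q.eval (z j)) = 0 := by
    have : ∀ j, (a j : ℂ) * (z j * q.eval (z j)) =
        ∑ l ∈ Finset.range Z.card, q.coeff l * ((a j : ℂ) * z j ^ (l + 1)) := by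
      intro j
      rw [Polynomial.eval_eq_sum_range' hdeg, Finset.mul_sum, Finset.mul_sum]
      refine Finset.sum_congr rfl fun l _ => ?_
      ring
    simp only [this]
    rw [Finset.sum_comm]
    refine Finset.sum_eq_zero fun l hl => ?_
    rw [← Finset.mul_sum, hc l (Finset.mem_range.1 hl), mul_zero]
  have hq : ∀ x, q.eval x = ∏ ζ ∈ Z.erase (z j0), (x - ζ) := by
    intro x
    simp [q, Polynomial.eval_prod]
  have h2 : ∑ j ∈ s, (a j : ℂ) * (z j * q.eval (z j)) =
      ((∑ j ∈ s, if z j = z j0 then a j else 0 : ℝ) : ℂ) * (z j0 * q.eval (z j0)) := by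
    push_cast
    rw [Finset.sum_mul]
    refine Finset.sum_congr rfl fun j hj => ?_
    by_cases h : z j = z j0
    · rw [if_pos h, h]
    · rw [if_neg h]
      rcases (ha j).eq_or_lt with h3 | h3
      · rw [← h3]; simp
      · have : q.eval (z j) = 0 := by
          rw [hq]
          exact Finset.prod_eq_zero (Finset.mem_erase.2 ⟨h, hZ j hj h3⟩) (sub_self _)
        rw [this]; simp
  rw [h2] at h1
  rcases mul_eq_zero.1 h1 with h3 | h3
  · have h4 : (0 : ℝ) < ∑ j ∈ s, if z j = z j0 then a j else 0 := by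
      refine Finset.sum_pos' (fun j _ => ?_) ⟨j0, hj0, by rw [if_pos rfl]; exact hp⟩
      split_ifs
      exacts [ha j, le_rfl]
    exact h4.ne' (by exact_mod_cast h3)
  · rcases mul_eq_zero.1 h3 with h4 | h4
    · exact hz j0 h4
    · rw [hq, Finset.prod_eq_zero_iff] at h4
      obtain ⟨ζ, h5, h6⟩ := h4
      exact (Finset.mem_erase.1 h5).1 (sub_eq_zero.1 h6).symm

theorem continuous_mul_ch {A : Type} [TopologicalSpace A] {B n : A → ℝ} (hB : Continuous B)
    (hn : Continuous n) : Continuous fun u => (B u : ℂ) * ch (n u / B u) := by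
  rw [continuous_iff_continuousAt]
  intro u
  by_cases h : B u = 0
  · rw [ContinuousAt, h]
    simp only [Complex.ofReal_zero, zero_mul]
    rw [tendsto_zero_iff_norm_tendsto_zero]
    simp only [norm_mul, norm_ch, mul_one, Complex.norm_real]
    have := hB.norm.tendsto u
    rwa [h, norm_zero] at this
  · exact (Complex.continuous_ofReal.comp hB).continuousAt.mul
      (continuous_ch.continuousAt.comp (hn.continuousAt.div hB.continuousAt h))

theorem sum_shift {M : Type} [AddCommGroup M] (f : ℕ → M) (p : ℕ) (h : f p = f 0) :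
    ∑ j ∈ Finset.range p, f (j + 1) = ∑ j ∈ Finset.range p, f j := by
  have h1 := Finset.sum_range_succ f p
  have h2 := Finset.sum_range_succ' f p
  rw [h1, h] at h2
  exact (add_right_cancel h2).symm

theorem iter_mod {A : Type} {T : A → A} {p : ℕ} (hp : ∀ u, T^[p] u = u) (k : ℕ) (u : A) :
    T^[k % p] u = T^[k] u := by
  have h1 : ∀ t a, T^[p * t] a = a := by
    intro t
    induction t with
    | zero => intro a; rfl
    | succ t ih => intro a; rw [Nat.mul_succ, Function.iterate_add_apply, hp, ih]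
  conv_rhs => rw [← Nat.mod_add_div k p, Function.iterate_add_apply, h1]

/-- few equivariant functions on the set where two kinds of markers alternate slowly -/
theorem gen_sep {A : Type} [TopologicalSpace A] {T : A → A} (hT : Continuous T) {p W : ℕ}
    (hp : ∀ u, T^[p] u = u) (hp3 : 3 ≤ p) (hW : 2 ≤ W) {a b : A → ℝ} (hac : Continuous a)
    (hbc : Continuous b) (ha : ∀ u, 0 ≤ a u) (hb : ∀ u, 0 ≤ b u) :
    Gen T p {u | (∃ j, 0 < a (T^[j] u)) ∧ (∃ i, 0 < b (T^[i] u)) ∧
      ∀ j i, j ≤ i → i ≤ j + W → 0 < a (T^[j] u) → b (T^[i] u) = 0} ((p / W + 1 : ℕ) : ℝ) := by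
  classical
  have hp0 : 0 < p := by omega
  have hpR : (p : ℝ) ≠ 0 := by exact_mod_cast hp0.ne'
  let β : ℕ → A → ℝ := fun j u => ∑ i ∈ Finset.range j, b (T^[i] u)
  let M : A → ℝ := fun u => ∑ i ∈ Finset.range p, β i u
  have hβc : ∀ j, Continuous (β j) := fun j =>
    continuous_finsetSum _ fun i _ => hbc.comp (hT.iterate i)
  have hMc : Continuous M := continuous_finsetSum _ fun i _ => hβc i
  have hβs : ∀ j u, β j (T u) = β (j + 1) u - b u := by
    intro j u
    simp only [β]
    rw [Finset.sum_range_succ']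
    simp
  have hBs : ∀ u, β p (T u) = β p u := by
    intro u
    rw [hβs]
    simp only [β]
    rw [Finset.sum_range_succ, hp]
    ring
  have hMs : ∀ u, M (T u) = M u + β p u - p * b u := by
    intro u
    simp only [M, hβs, Finset.sum_sub_distrib, Finset.sum_const, Finset.card_range, nsmul_eq_mul]
    have h1 := Finset.sum_range_succ (fun i => β i u) p
    have h2 := Finset.sum_range_succ' (fun i => β i u) p
    have h3 : β 0 u = 0 := by simp [β]
    rw [h1, h3] at h2
    linarith
  let n : ℕ → A → ℝ := fun j u => M u / p - β j u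
  have hnc : ∀ j, Continuous (n j) := fun j => (hMc.div_const _).sub (hβc j)
  have hns : ∀ j u, n j (T u) = n (j + 1) u + β p u / p := by
    intro j u
    simp only [n, hMs, hβs]
    field_simp
    ring
  let G : ℕ → ℕ → A → ℂ := fun l j u => (a (T^[j] u) : ℂ) * ((β p u : ℂ) * ch (l * n j u / β p u))
  have hGc : ∀ l j, Continuous (G l j) := fun l j =>
    (Complex.continuous_ofReal.comp (hac.comp (hT.iterate j))).mul
      (continuous_mul_ch (hβc p) (continuous_const.mul (hnc j)))
  have hGs : ∀ l j u, G l j (T u) = ch (l / p) * G l (j + 1) u := by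
    intro l j u
    simp only [G]
    rw [hBs, hns, Function.iterate_succ_apply]
    by_cases h : β p u = 0
    · rw [h]; simp
    · have : (l : ℝ) * (n (j + 1) u + β p u / p) / β p u = l / p + l * n (j + 1) u / β p u := by
        field_simp
        ring
      rw [this, ch_add]
      ring
  have hGp : ∀ l u, G l p u = G l 0 u := by
    intro l u
    simp only [G]
    rw [hp]
    by_cases h : β p u = 0
    · rw [h]; simp
    · have : (l : ℝ) * n 0 u / β p u = l + l * n p u / β p u := by
        have h3 : β 0 u = 0 := by simp [β]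
        simp only [n, h3]
        field_simp
        ring
      rw [this, ch_add, ch_nat, one_mul]
      rfl
  refine ⟨Fin (p / W + 1), inferInstance, fun l u => ∑ j ∈ Finset.range p, G (l + 1) j u,
    fun l => l + 1, fun l => continuous_finsetSum _ fun j _ => hGc _ j, fun l => ?_, fun l u => ?_,
    by simp, ?_⟩
  · refine Nat.not_dvd_of_pos_of_lt (Nat.succ_pos _) ?_
    have h1 := l.2
    have h2 : p / W ≤ p / 2 := Nat.div_le_div_left hW two_pos
    show (l : ℕ) + 1 < p
    omega
  · simp only [hGs]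
    rw [← Finset.mul_sum, sum_shift (fun j => G (l + 1) j u) p (hGp _ u)]
  · rintro u ⟨⟨j0, hj0⟩, ⟨i0, hi0⟩, hsep⟩
    rw [← iter_mod hp] at hj0 hi0
    have hB : 0 < β p u := Finset.sum_pos' (fun i _ => hb _)
      ⟨i0 % p, Finset.mem_range.2 (Nat.mod_lt _ hp0), hi0⟩
    let z : ℕ → ℂ := fun j => ch (n j u / β p u)
    have hblock : ∀ j j', j ≤ j' → j' ≤ j + W → 0 < a (T^[j] u) → z j = z j' := by
      intro j j' h1 h2 h3
      have : β j' u = β j u := by
        simp only [β]
        rw [← Finset.sum_range_add_sum_Ico _ h1, Finset.sum_eq_zero (s := Finset.Ico j j'), add_zero]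
        intro i hi
        rw [Finset.mem_Ico] at hi
        exact hsep j i hi.1 (by omega) h3
      simp only [z, n, this]
    let ψ : ℕ → ℂ := fun m => if h : ∃ j, j / W = m ∧ 0 < a (T^[j] u) then z h.choose else 0
    have hψ : ∀ j, 0 < a (T^[j] u) → ψ (j / W) = z j := by
      intro j hj
      have h : ∃ j', j' / W = j / W ∧ 0 < a (T^[j'] u) := ⟨j, rfl, hj⟩
      have h1 : ψ (j / W) = z h.choose := dif_pos h
      obtain ⟨h2, h3⟩ := h.choose_spec
      rw [h1]
      have e1 := Nat.div_add_mod j W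
      have e2 := Nat.div_add_mod h.choose W
      have e3 := Nat.mod_lt j (show 0 < W by omega)
      have e4 := Nat.mod_lt h.choose (show 0 < W by omega)
      rw [h2] at e2
      rcases le_total h.choose j with h4 | h4
      · exact hblock _ _ h4 (by omega) h3
      · exact (hblock _ _ h4 (by omega) hj).symm
    obtain ⟨l, hl, hne⟩ := power_sums (Finset.range p) (fun j => a (T^[j] u)) z (fun j => ha _)
      (fun j => ch_ne _) ((Finset.range (p / W + 1)).image ψ) (fun j hj h => by
        refine Finset.mem_image.2 ⟨j / W, Finset.mem_range.2 ?_, hψ j h⟩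
        exact Nat.lt_succ_of_le (Nat.div_le_div_right (Finset.mem_range.1 hj).le))
      (Finset.mem_range.2 (Nat.mod_lt j0 hp0)) hj0
    have hl2 : l < p / W + 1 := by
      refine hl.trans_le (Finset.card_image_le.trans ?_)
      simp
    refine ⟨⟨l, hl2⟩, fun h => hne ?_⟩
    have h1 : ∑ j ∈ Finset.range p, G (l + 1) j u =
        (β p u : ℂ) * ∑ j ∈ Finset.range p, (a (T^[j] u) : ℂ) * z j ^ (l + 1) := by
      rw [Finset.mul_sum]
      refine Finset.sum_congr rfl fun j _ => ?_
      simp only [G, z]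
      rw [← ch_pow, mul_div_assoc]
      ring
    have h2 : (β p u : ℂ) ≠ 0 := by exact_mod_cast hB.ne'
    have h3 : ∑ j ∈ Finset.range p, G (l + 1) j u = 0 := h
    rw [h1] at h3
    exact (mul_eq_zero.1 h3).resolve_left h2

end Pool.Agent.H289Z.FD
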