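import Mathlib

/-!
Definitions: finite decomposition complexity of a group, amenable actions, and finite dynamical
complexity of a transformation groupoid.
-/

set_option autoImplicit false

namespace Pool.Agent.H289Z.FD

open Set
open scoped BigOperators

section coarse

variable {Z : Type} [MetricSpace Z]

/-- distinct members of the family are at distance more than `r` from each other -/
def RDisjoint (r : ℝ) (𝒰 : Set (Set Z)) : Prop :=
  ∀ A ∈ 𝒰, ∀ B ∈ 𝒰, A ≠ B → ∀ x ∈ A, ∀ y ∈ B, r < dist x y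

/-- the family `𝒳` of subspaces `r`-decomposes over the family `𝒴` -/
def RDecomposes (r : ℝ) (𝒳 𝒴 : Set (Set Z)) : Prop :=
  ∀ A ∈ 𝒳, ∃ 𝒰 𝒱 : Set (Set Z), 𝒰 ⊆ 𝒴 ∧ 𝒱 ⊆ 𝒴 ∧ RDisjoint r 𝒰 ∧ RDisjoint r 𝒱 ∧
    A = ⋃₀ 𝒰 ∪ ⋃₀ 𝒱

/-- the family `𝒳` lies in the smallest class of families of subspaces of `Z` that contains the
uniformly bounded families and is closed under decomposition -/
def FamilyFDC (𝒳 : Set (Set Z)) : Prop :=
  ∀ 𝔇 : Set (Set (Set Z)),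
    (∀ 𝒴 : Set (Set Z), (∃ R : ℝ, ∀ A ∈ 𝒴, ∀ x ∈ A, ∀ y ∈ A, dist x y ≤ R) → 𝒴 ∈ 𝔇) →
    (∀ 𝒴 : Set (Set Z), (∀ r : ℝ, 0 < r → ∃ 𝒴' ∈ 𝔇, RDecomposes r 𝒴 𝒴') → 𝒴 ∈ 𝔇) →
    𝒳 ∈ 𝔇

end coarse

/-- the group has finite decomposition complexity for a proper left-invariant metric -/
def HasFDC (Γ : Type) [Group Γ] : Prop :=
  ∃ _ : MetricSpace Γ, (∀ g a b : Γ, dist (g * a) (g * b) = dist a b) ∧
    (∀ R : ℝ, (Metric.closedBall (1 : Γ) R).Finite) ∧ FamilyFDC {(univ : Set Γ)}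

section groupoid

variable (Γ X : Type) [Group Γ] [MulAction Γ X] [TopologicalSpace X]

/-- topological amenability of the action: approximately equivariant continuous maps from `X` to
the finitely supported probability measures on `Γ` -/
def IsAmenableAction : Prop :=
  ∀ (F : Finset Γ) (L : Set X), IsCompact L → ∀ ε : ℝ, 0 < ε →
    ∃ (S : Finset Γ) (m : X → Γ → ℝ), (∀ g, Continuous fun x => m x g) ∧ (∀ x g, 0 ≤ m x g) ∧
      (∀ x g, g ∉ S → m x g = 0) ∧ (∀ x, ∑ g ∈ S, m x g = 1) ∧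
      ∀ γ ∈ F, ∀ x ∈ L, ∑' g : Γ, |m (γ • x) (γ * g) - m x g| < ε

variable {Γ X}

/-- subgroupoids of the transformation groupoid, whose arrows `(g, x)` go from `x` to `g • x` -/
def IsSubgroupoid (H : Set (Γ × X)) : Prop :=
  (∀ g h x, (g, x) ∈ H → (h, g • x) ∈ H → (h * g, x) ∈ H) ∧
    ∀ g x, (g, x) ∈ H → (g⁻¹, g • x) ∈ H

/-- the unit space of a subgroupoid -/
def unitSpace (H : Set (Γ × X)) : Set X := {x | (1, x) ∈ H}

/-- the subgroupoid generated by a set of arrows -/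
def generated (K : Set (Γ × X)) : Set (Γ × X) := ⋂₀ {H | IsSubgroupoid H ∧ K ⊆ H}

variable [TopologicalSpace Γ]

/-- `H` is decomposable over the class `𝒞` -/
def Decomposable (H : Set (Γ × X)) (𝒞 : Set (Set (Γ × X))) : Prop :=
  ∀ K : Set (Γ × X), IsOpen K → IsCompact (closure K) → closure K ⊆ H →
    ∃ U₀ U₁ : Set X, IsOpen U₀ ∧ IsOpen U₁ ∧ unitSpace H = U₀ ∪ U₁ ∧
      (∃ H₀ ∈ 𝒞, generated {a ∈ K | a.2 ∈ U₀ ∧ a.1 • a.2 ∈ U₀} ⊆ H₀) ∧
      (∃ H₁ ∈ 𝒞, generated {a ∈ K | a.2 ∈ U₁ ∧ a.1 • a.2 ∈ U₁} ⊆ H₁)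

variable (Γ X)

/-- the transformation groupoid lies in the smallest class that contains the relatively compact
open subgroupoids and is closed under decomposability of open subgroupoids -/
def FiniteDynamicalComplexity : Prop :=
  ∀ 𝒞 : Set (Set (Γ × X)),
    (∀ H : Set (Γ × X), IsOpen H → IsSubgroupoid H → IsCompact (closure H) → H ∈ 𝒞) →
    (∀ H : Set (Γ × X), IsOpen H → IsSubgroupoid H → Decomposable H 𝒞 → H ∈ 𝒞) →
    univ ∈ 𝒞

end groupoid

end Pool.Agent.H289Z.FD
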