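import Pool.Agent.H289Z.FD1
import Pool.Agent.H289Z.FDDefs

set_option autoImplicit false

namespace Pool.Agent.H289Z.FD

open Set Filter Topology
open scoped BigOperators

/-- the group element of a natural number -/
def gg (n : ℕ) : Multiplicative ℤ := Multiplicative.ofAdd (n : ℤ)

theorem gg_add (m n : ℕ) : gg (m + n) = gg m * gg n := by
  unfold gg
  rw [← ofAdd_add]
  push_cast
  rfl

theorem gg_zero : gg 0 = 1 := rfl

/-- points all of whose windows meet `O` -/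
def Dn {A Ω : Type} (T : A → A) (Φ : A → Ω) (O : Set Ω) (N : ℕ) : Set A :=
  {u | ∀ j : ℕ, ∃ t, t < N ∧ Φ (T^[j + t] u) ∈ O}

section main

variable {X : Type} [MulAction (Multiplicative ℤ) X]

/-- points of `C` whose first windows meet `C` -/
def core (C : Set X) (N L : ℕ) : Set X := {x ∈ C | ∀ j, j ≤ L → ∃ t, t < N ∧ gg (j + t) • x ∈ C}

theorem chain {H : Set (Multiplicative ℤ × X)} (hH : IsSubgroupoid H) {C : Set X} {N L : ℕ}
    (h : ∀ x ∈ C, ∀ n, n ≤ N → gg n • x ∈ C → (gg n, x) ∈ H) {x : X} (hx : x ∈ core C N L) :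
    ∀ n, n ≤ L + N → gg n • x ∈ C → (gg n, x) ∈ H := by
  intro n
  induction n using Nat.strong_induction_on with
  | _ n ih =>
    intro hn hC
    by_cases h1 : n ≤ N
    · exact h x hx.1 n h1 hC
    · obtain ⟨t, ht, h2⟩ := hx.2 (n - N) (by omega)
      have h3 := ih (n - N + t) (by omega) (by omega) h2
      have e : gg n = gg (N - t) * gg (n - N + t) := by
        rw [← gg_add]
        congr 1
        omega
      have h4 := h _ h2 (N - t) (by omega) (by rw [← mul_smul, ← e]; exact hC)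
      rw [e]
      exact hH.1 _ _ _ h3 h4

variable [TopologicalSpace X] [ContinuousConstSMul (Multiplicative ℤ) X]

theorem isClosed_core {C : Set X} (hC : IsClosed C) (N L : ℕ) : IsClosed (core C N L) := by
  have e : core C N L = C ∩ ⋂ j, ⋂ _ : j ≤ L, ⋃ t ∈ Finset.range N,
      (fun x => gg (j + t) • x) ⁻¹' C := by
    ext x
    simp [core]
  rw [e]
  exact hC.inter (isClosed_iInter fun j => isClosed_iInter fun _ =>
    isClosed_biUnion_finset fun t _ => hC.preimage (continuous_const_smul _))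

variable {Ω : Type} [MetricSpace Ω] [CompactSpace Ω] {S : Ω → Ω} {ι : X → Ω}

theorem shrink (hS : Continuous S) (hι : Continuous ι) (hinj : Function.Injective ι)
    (he : ∀ n x, ι (gg n • x) = S^[n] (ι x)) {C : Set X} (hC : IsCompact C) (N L : ℕ)
    {O' : Set Ω} (hO' : IsOpen O') (h : ι '' core C N L ⊆ O') :
    ∃ O : Set Ω, IsOpen O ∧ ι '' C ⊆ O ∧
      ∀ y ∈ O, (∀ j, j ≤ L → ∃ t, t < N ∧ S^[j + t] y ∈ O) → y ∈ O' := by
  rcases C.eq_empty_or_nonempty with rfl | hne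
  · exact ⟨∅, isOpen_empty, by simp, fun y hy => hy.elim⟩
  have hD : IsClosed (ι '' C) := (hC.image hι).isClosed
  have hDne : (ι '' C).Nonempty := hne.image ι
  let d : Ω → ℝ := fun y => Metric.infDist y (ι '' C)
  have hd : Continuous d := Metric.continuous_infDist_pt _
  have hpos : ∀ y, y ∉ ι '' C → 0 < d y := fun y hy => (hD.notMem_iff_infDist_pos hDne).1 hy
  have key : ∀ᶠ δ : ℝ in 𝓝 0, ∀ y ∈ O'ᶜ,
      δ < d y ∨ ∃ j, j ≤ L ∧ ∀ t ∈ Finset.range N, δ < d (S^[j + t] y) := by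
    refine hO'.isClosed_compl.isCompact.eventually_forall_of_forall_eventually
      (P := fun δ y => δ < d y ∨ ∃ j, j ≤ L ∧ ∀ t ∈ Finset.range N, δ < d (S^[j + t] y))
      fun y hy => ?_
    have ev : ∀ n, 0 < d (S^[n] y) → ∀ᶠ z : ℝ × Ω in 𝓝 (0, y), z.1 < d (S^[n] z.2) := by
      intro n hn
      exact (isOpen_lt continuous_fst (hd.comp ((hS.iterate n).comp continuous_snd))).mem_nhds hn
    by_cases h1 : y ∈ ι '' C
    · obtain ⟨x, hx, rfl⟩ := h1
      have h2 : x ∉ core C N L := fun h2 => hy (h ⟨x, h2, rfl⟩)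
      simp only [core, mem_ofPred_eq, not_and, not_forall, not_exists] at h2
      obtain ⟨j, hj, h3⟩ := h2 hx
      have h4 : ∀ᶠ z : ℝ × Ω in 𝓝 (0, ι x), ∀ t ∈ Finset.range N, z.1 < d (S^[j + t] z.2) := by
        rw [Filter.eventually_all_finset]
        intro t ht
        refine ev _ (hpos _ ?_)
        rintro ⟨x', hx', e⟩
        rw [← he] at e
        exact h3 t (Finset.mem_range.1 ht) (hinj e ▸ hx')
      filter_upwards [h4] with z hz
      exact Or.inr ⟨j, hj, hz⟩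
    · filter_upwards [ev 0 (hpos y h1)] with z hz
      exact Or.inl hz
  obtain ⟨δ, hδ, hδ0⟩ := (key.filter_mono nhdsWithin_le_nhds).and self_mem_nhdsWithin
    |>.exists (f := 𝓝[>] (0 : ℝ))
  refine ⟨{y | d y < δ}, isOpen_lt hd continuous_const, fun y hy => ?_, fun y hy h1 => ?_⟩
  · show Metric.infDist y (ι '' C) < δ
    rw [Metric.infDist_zero_of_mem hy]
    exact hδ0
  · by_contra h2
    rcases hδ y h2 with h3 | ⟨j, hj, h3⟩
    · exact lt_asymm h3 hy
    · obtain ⟨t, ht, h4⟩ := h1 j hj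
      exact lt_asymm (h3 t (Finset.mem_range.2 ht)) h4

theorem Dn_window {A : Type} {T : A → A} {Φ : A → Ω} (hΦ : ∀ u, Φ (T u) = S (Φ u))
    {O O' : Set Ω} {N L : ℕ}
    (h : ∀ y ∈ O, (∀ j, j ≤ L → ∃ t, t < N ∧ S^[j + t] y ∈ O) → y ∈ O') {u : A}
    (hu : u ∈ Dn T Φ O N) (i : ℕ) : ∃ t, t < N ∧ Φ (T^[i + t] u) ∈ O' := by
  have hit : ∀ n v, Φ (T^[n] v) = S^[n] (Φ v) := fun n v =>
    (Function.Semiconj.iterate_right hΦ n) v
  obtain ⟨t, ht, h1⟩ := hu i
  refine ⟨t, ht, h _ h1 fun j _ => ?_⟩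
  obtain ⟨t', ht', h2⟩ := hu (j + i + t)
  refine ⟨t', ht', ?_⟩
  rw [← hit, ← Function.iterate_add_apply, show j + t' + (i + t) = j + i + t + t' by ring]
  exact h2

theorem exists_bump {D O : Set Ω} (hD : IsClosed D) (hO : IsOpen O) (h : D ⊆ O) :
    ∃ (V : Set Ω) (ψ : Ω → ℝ), IsOpen V ∧ D ⊆ V ∧ Continuous ψ ∧ (∀ y, 0 ≤ ψ y) ∧
      (∀ y ∈ V, ψ y = 0) ∧ ∀ y, y ∉ O → 0 < ψ y := by
  obtain ⟨V, h1, h2, h3⟩ := normal_exists_closure_subset hD hO h
  obtain ⟨f, h4, h5, h6⟩ := exists_continuous_zero_one_of_isClosed (isClosed_closure (s := V))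
    hO.isClosed_compl (disjoint_compl_right_iff_subset.2 h3)
  refine ⟨V, f, h1, h2, f.continuous, fun y => (h6 y).1, fun y hy => h4 (subset_closure hy),
    fun y hy => ?_⟩
  rw [h5 hy]
  exact one_pos

variable [CompactSpace X] [T2Space X]

theorem fdc_gen (hS : Continuous S) (hι : Continuous ι) (hinj : Function.Injective ι)
    (he : ∀ n x, ι (gg n • x) = S^[n] (ι x))
    (A : ℕ → Type) [∀ p, TopologicalSpace (A p)] (T : ∀ p, A p → A p)
    (hT : ∀ p, Continuous (T p)) (hTp : ∀ p u, (T p)^[p] u = u) (Φ : ∀ p, A p → Ω)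
    (hΦ : ∀ p, Continuous (Φ p)) (hΦS : ∀ p u, Φ p (T p u) = S (Φ p u))
    (h : FiniteDynamicalComplexity (Multiplicative ℤ) X) {ε : ℝ} (hε : 0 < ε) :
    ∃ O : Set Ω, IsOpen O ∧ range ι ⊆ O ∧ ∃ p0 : ℕ, ∀ p, p0 ≤ p →
      Gen (T p) p (Dn (T p) (Φ p) O 1) (ε * p) := by
  classical
  have main := h {H | ∀ ε : ℝ, 0 < ε → ∀ (N : ℕ) (C : Set X), IsCompact C →
    (∀ x ∈ C, ∀ n, n ≤ N → gg n • x ∈ C → (gg n, x) ∈ H) →
    ∃ O : Set Ω, IsOpen O ∧ ι '' C ⊆ O ∧ ∃ p0 : ℕ, ∀ p, p0 ≤ p →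
      Gen (T p) p (Dn (T p) (Φ p) O N) (ε * p)} ?_ ?_
  · have := main ε hε 1 univ isCompact_univ fun _ _ _ _ _ => mem_univ _
    rwa [image_univ] at this
  · intro H _ hH hc ε hε N C hC hCH
    have hfin : (Prod.fst '' closure H).Finite := (hc.image continuous_fst).finite_of_discrete
    obtain ⟨M, hM⟩ : ∃ M : ℕ, ∀ n x, (gg n, x) ∈ H → n ≤ M := by
      obtain ⟨M, hM⟩ := (hfin.image fun g => (Multiplicative.toAdd g).toNat).bddAbove
      exact ⟨M, fun n x hx => hM ⟨gg n, ⟨_, subset_closure hx, rfl⟩, by simp [gg]⟩⟩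
    have hcore : core C N (M + 1) = ∅ := by
      refine eq_empty_of_forall_notMem fun x hx => ?_
      obtain ⟨t, ht, h1⟩ := hx.2 (M + 1) le_rfl
      have := hM _ _ (chain hH hCH hx _ (by omega) h1)
      omega
    obtain ⟨O, h1, h2, h3⟩ := shrink hS hι hinj he hC N (M + 1) isOpen_empty (by rw [hcore]; simp)
    refine ⟨O, h1, h2, 0, fun p _ => (Gen.empty (by positivity)).mono (fun u hu => ?_) le_rfl⟩
    obtain ⟨t, -, h4⟩ := Dn_window (hΦS p) h3 hu 0
    exact h4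
  · intro H hHo hH hdec ε hε N C hC hCH
    obtain ⟨W0, hW0⟩ := exists_nat_ge (6 / ε)
    let W := W0 + 2
    let N' := N + W
    have hC' : IsCompact (core C N N') := (isClosed_core hC.isClosed N N').isCompact
    let K0 : Set (Multiplicative ℤ × X) := ⋃ n ∈ Finset.range (N' + 1),
      {gg n} ×ˢ (core C N N' ∩ (fun x => gg n • x) ⁻¹' core C N N')
    have hK0 : IsCompact K0 := (Finset.range (N' + 1)).isCompact_biUnion fun n _ =>
      isCompact_singleton.prod (hC'.inter_right (hC'.isClosed.preimage (continuous_const_smul _)))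
    have hK0H : K0 ⊆ H := by
      intro a ha
      simp only [K0, mem_iUnion, Finset.mem_range] at ha
      obtain ⟨n, hn, h1, h2, h3⟩ := ha
      have : a = (gg n, a.2) := Prod.ext h1 rfl
      rw [this]
      exact chain hH hCH h2 n (by omega) h3.1
    obtain ⟨K, hKo, hK1, hK2, hK3⟩ := exists_open_between_and_isCompact_closure hK0 hHo hK0H
    obtain ⟨U0, U1, hU0, hU1, hU, ⟨H0, hH0, hg0⟩, ⟨H1, hH1, hg1⟩⟩ := hdec K hKo hK3 hK2
    have hcov : core C N N' ⊆ U0 ∪ U1 := by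
      rw [← hU]
      intro x hx
      have := hCH x hx.1 0 (Nat.zero_le _) (by rw [gg_zero, one_smul]; exact hx.1)
      exact this
    obtain ⟨C0, C1, hC0, hC1, h0, h1, hsplit⟩ := hC'.binary_compact_cover hU0 hU1 hcov
    have child : ∀ (U : Set X) (H' : Set (Multiplicative ℤ × X)) (D : Set X), D ⊆ U →
        D ⊆ core C N N' → generated {a ∈ K | a.2 ∈ U ∧ a.1 • a.2 ∈ U} ⊆ H' →
        ∀ x ∈ D, ∀ n, n ≤ N' → gg n • x ∈ D → (gg n, x) ∈ H' := by
      intro U H' D d1 d2 d3 x hx n hn hx'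
      apply d3
      intro G hG
      refine hG.2 ⟨hK1 ?_, d1 hx, d1 hx'⟩
      simp only [K0, mem_iUnion, Finset.mem_range]
      exact ⟨n, by omega, rfl, d2 hx, d2 hx'⟩
    obtain ⟨O0, hO0, hCO0, p0, G0⟩ := hH0 (ε / 3) (by positivity) N' C0 hC0
      (child U0 H0 C0 h0 (by rw [hsplit]; exact subset_union_left) hg0)
    obtain ⟨O1, hO1, hCO1, p1, G1⟩ := hH1 (ε / 3) (by positivity) N' C1 hC1
      (child U1 H1 C1 h1 (by rw [hsplit]; exact subset_union_right) hg1)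
    obtain ⟨V0, ψ0, v1, v2, v3, v4, v5, v6⟩ := exists_bump (hC0.image hι).isClosed hO0 hCO0
    obtain ⟨V1, ψ1, w1, w2, w3, w4, w5, w6⟩ := exists_bump (hC1.image hι).isClosed hO1 hCO1
    obtain ⟨O, hO, hCO, hwin⟩ := shrink hS hι hinj he hC N N' (v1.union w1)
      (by rw [hsplit, image_union]; exact union_subset_union v2 w2)
    refine ⟨O, hO, hCO, p0 + p1 + W0 + 3, fun p hp => ?_⟩
    let pr : (Ω → ℝ) → A p → ℝ := fun ψ u => ∏ t ∈ Finset.range N', ψ (Φ p ((T p)^[t] u))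
    have prc : ∀ ψ, Continuous ψ → Continuous (pr ψ) := fun ψ hψ =>
      continuous_finsetProd _ fun t _ => hψ.comp ((hΦ p).comp ((hT p).iterate t))
    have pr0 : ∀ ψ : Ω → ℝ, (∀ y, 0 ≤ ψ y) → ∀ u, 0 ≤ pr ψ u := fun ψ hψ u =>
      Finset.prod_nonneg fun t _ => hψ _
    have prp : ∀ (ψ : Ω → ℝ) (O' : Set Ω), (∀ y, y ∉ O' → 0 < ψ y) → ∀ u,
        u ∉ Dn (T p) (Φ p) O' N' → ∃ j, 0 < pr ψ ((T p)^[j] u) := by
      intro ψ O' hψ u hu
      simp only [Dn, mem_ofPred_eq, not_forall, not_exists, not_and] at hu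
      obtain ⟨j, hj⟩ := hu
      refine ⟨j, Finset.prod_pos fun t ht => hψ _ ?_⟩
      rw [← Function.iterate_add_apply, add_comm]
      exact hj t (Finset.mem_range.1 ht)
    have prz : ∀ (ψ : Ω → ℝ) (V : Set Ω), (∀ y ∈ V, ψ y = 0) → ∀ u j t, t < N' →
        Φ p ((T p)^[j + t] u) ∈ V → pr ψ ((T p)^[j] u) = 0 := by
      intro ψ V hψ u j t ht hu
      refine Finset.prod_eq_zero (Finset.mem_range.2 ht) (hψ _ ?_)
      rw [← Function.iterate_add_apply, add_comm]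
      exact hu
    have G2 := gen_sep (hT p) (W := W) (hTp p) (by omega) (by omega) (prc ψ0 v3) (prc ψ1 w3)
      (pr0 ψ0 v4) (pr0 ψ1 w4)
    refine (((G0 p (by omega)).union (G1 p (by omega))).union G2).mono (fun u hu => ?_) ?_
    · by_cases a0 : u ∈ Dn (T p) (Φ p) O0 N'
      · exact Or.inl (Or.inl a0)
      by_cases a1 : u ∈ Dn (T p) (Φ p) O1 N'
      · exact Or.inl (Or.inr a1)
      refine Or.inr ⟨prp ψ0 O0 v6 u a0, prp ψ1 O1 w6 u a1, fun j i hji hij hpos => ?_⟩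
      obtain ⟨t, ht, h2 | h2⟩ := Dn_window (hΦS p) hwin hu i
      · refine absurd (prz ψ0 V0 v5 u j (i + t - j) (by omega) ?_) hpos.ne'
        rwa [show j + (i + t - j) = i + t by omega]
      · exact prz ψ1 V1 w5 u i t (by omega) h2
    · have e1 : ((p / W : ℕ) : ℝ) ≤ p / W := Nat.cast_div_le
      have e2 : (6 / ε : ℝ) ≤ W := hW0.trans (by simp only [W]; push_cast; linarith)
      have e3 : (6 / ε : ℝ) ≤ p := hW0.trans (by exact_mod_cast (by omega))
      have e4 : (0 : ℝ) < W := by simp only [W]; positivity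
      rw [div_le_iff₀ hε] at e2 e3
      have e5 : (p : ℝ) / W ≤ ε * p / 6 := by
        rw [div_le_div_iff₀ e4 (by norm_num)]
        have : (0 : ℝ) ≤ p := Nat.cast_nonneg p
        nlinarith
      push_cast
      linarith

end main

end Pool.Agent.H289Z.FD
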