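import Pool.Agent.H289Z.ZI4
import Pool.Agent.Helper954.Hopf.D1c

set_option autoImplicit false

namespace Pool.Agent.H289Z.ZI

open Set Filter Topology Complex
open scoped ComplexConjugate BigOperators
open Pool.Agent.Helper954.Hopf.Dold.D1c (dold_cover dc_pow_add dc_slot)

theorem zeta_pow (p : ℕ) (j : Fin (p / 26)) : exp (I * om p j * (1 : ℝ)) ^ p = 1 := by
  have := exp_om_mul p j 1
  rw [← this, ← Complex.exp_nat_mul]
  congr 1
  push_cast
  ring

theorem zeta_norm (p : ℕ) (j : Fin (p / 26)) : ‖exp (I * om p j * (1 : ℝ))‖ = 1 := by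
  have h3 : I * om p j * (1 : ℝ) = ((om p j * 1 : ℝ) : ℂ) * I := by push_cast; ring
  rw [h3, Complex.norm_exp_ofReal_mul_I]

/-- equivariant map from the join to the sphere -/
theorem join_to_sphere (p : ℕ) [Fact p.Prime] (n : ℕ) (hn : p / 26 = n + 1) :
    ∃ g : C(E p n, Sph (p / 26)), ∀ x, g (shift p n x) = Rs p 1 (g x) := by
  have hp : p.Prime := Fact.out
  let ζ : Fin (p / 26) → ℂ := fun j => exp (I * om p j * (1 : ℝ))
  let g0 : E p n → Fin (p / 26) → ℂ := fun x j =>
    ∑ a : ZMod p, (Real.sqrt (x.1 (Fin.cast hn j) a) : ℂ) * ζ j ^ a.val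
  have hg0 : ∀ x, g0 x ∈ Sph (p / 26) := by
    intro x
    show ∑ j, ‖g0 x j‖ ^ 2 = 1
    rw [← x.2.2.1, ← (finCongr hn).sum_comp]
    refine Finset.sum_congr rfl fun j _ => ?_
    obtain ⟨l0, hl0⟩ := dc_slot (x.1 (Fin.cast hn j)) (x.2.2.2 _)
    simp only [g0, finCongr_apply]
    rw [Finset.sum_eq_single l0, Finset.sum_eq_single l0]
    · rw [norm_mul, norm_pow, zeta_norm, one_pow, mul_one, Complex.norm_real, Real.norm_eq_abs,
        sq_abs, Real.sq_sqrt (x.2.1 _ _)]
    · intro l _ hl; exact hl0 l hl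
    · intro h; exact absurd (Finset.mem_univ _) h
    · intro l _ hl; rw [hl0 l hl]; simp
    · intro h; exact absurd (Finset.mem_univ _) h
  have hc : Continuous g0 := by
    refine continuous_pi fun j => continuous_finsetSum _ fun a _ => ?_
    refine Continuous.mul (Complex.continuous_ofReal.comp (Real.continuous_sqrt.comp ?_))
      continuous_const
    exact (continuous_apply a).comp ((continuous_apply _).comp continuous_subtype_val)
  refine ⟨⟨fun x => ⟨g0 x, hg0 x⟩, hc.subtype_mk _⟩, fun x => ?_⟩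
  apply Subtype.ext
  funext j
  show ∑ a : ZMod p, (Real.sqrt (x.1 (Fin.cast hn j) (a - 1)) : ℂ) * ζ j ^ a.val =
    ζ j * ∑ a : ZMod p, (Real.sqrt (x.1 (Fin.cast hn j) a) : ℂ) * ζ j ^ a.val
  rw [Finset.mul_sum, ← (Equiv.subRight (1 : ZMod p)).sum_comp
    (fun a => ζ j * ((Real.sqrt (x.1 (Fin.cast hn j) a) : ℂ) * ζ j ^ a.val))]
  refine Finset.sum_congr rfl fun a _ => ?_
  rw [Equiv.subRight_apply]
  have h1 : ζ j ^ a.val = ζ j ^ (1 + (a - 1)).val := by rw [add_sub_cancel]
  rw [h1, dc_pow_add p (ζ j) (zeta_pow p j), ZMod.val_one, pow_one]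
  ring

/-- Dold's theorem for the sphere -/
theorem sphere_to_join (p : ℕ) [Fact p.Prime] (hp2 : p ≠ 2) (n : ℕ) (f : C(Sph (p / 26), E p n))
    (hf : ∀ u, f (Rs p 1 u) = shift p n (f u)) : 2 * (p / 26) ≤ n + 1 := by
  classical
  have hp : p.Prime := Fact.out
  by_contra hlt
  let κ : Fin (p / 26) → ZMod p := fun j => (((j : ℕ) + 1 : ℕ) : ZMod p)
  have hκ : ∀ j, (κ j).val = (j : ℕ) + 1 := by
    intro j
    apply ZMod.val_cast_of_lt
    have := j.2
    omega
  have hrot : ∀ v : Fin (p / 26) → ℂ,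
      (fun j => exp (2 * Real.pi * I / p) ^ (κ j).val * v j) = R (om p) 1 v := by
    intro v
    funext j
    simp only [R]
    rw [hκ, ← Complex.exp_nat_mul]
    congr 2
    unfold om
    push_cast
    ring
  let F : (Fin (p / 26) → ℂ) → Fin (n + 1) → ZMod p → ℝ := fun v =>
    if h : v ≠ 0 then (f (nrm _ ⟨v, h⟩)).1 else 0
  have hF : ∀ v (h : v ≠ 0), F v = (f (nrm _ ⟨v, h⟩)).1 := fun v h => dif_pos h
  have hF0 : ∀ v i a, 0 < F v i a → v ≠ 0 := by
    intro v i a h hv
    have : F v = 0 := dif_neg (not_not.2 hv)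
    rw [this] at h
    exact lt_irrefl _ h
  have hFc : ∀ v, v ≠ 0 → ContinuousAt F v := by
    intro v hv
    have h1 : ContinuousOn F {v | v ≠ 0} := by
      rw [continuousOn_iff_continuous_domRestrict]
      have : Set.domRestrict {v | v ≠ 0} F = fun v => (f (nrm _ v)).1 := by
        funext v
        exact hF v.1 v.2
      rw [this]
      exact continuous_subtype_val.comp (f.continuous.comp (nrm _).continuous)
    exact h1.continuousAt (isOpen_ne.mem_nhds hv)
  have hev : ∀ v i a, 0 < F v i a → ∀ᶠ y in 𝓝 v, 0 < F y i a := by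
    intro v i a h
    have h1 : ContinuousAt (fun y => F y i a) v :=
      continuousAt_pi.1 (continuousAt_pi.1 (hFc v (hF0 v i a h)) i) a
    exact h1.eventually (lt_mem_nhds h)
  have hRne : ∀ v : Fin (p / 26) → ℂ, v ≠ 0 → R (om p) 1 v ≠ 0 := by
    intro v hv h
    apply hv
    funext j
    have := norm_R (om p) 1 v j
    rw [h] at this
    simpa using this.symm
  have hFs : ∀ v, v ≠ 0 → ∀ i a, F (R (om p) 1 v) i a = F v i (a - 1) := by
    intro v hv i a
    rw [hF _ (hRne v hv), hF v hv]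
    have : nrm _ ⟨R (om p) 1 v, hRne v hv⟩ = Rs p 1 (nrm _ ⟨v, hv⟩) := by
      apply Subtype.ext
      funext j
      show ((eN (R (om p) 1 v))⁻¹ • R (om p) 1 v) j = R (om p) 1 ((eN v)⁻¹ • v) j
      have e : eN (R (om p) 1 v) = eN v := by simp only [eN, norm_R]
      rw [e]
      simp only [R, Pi.smul_apply, Complex.real_smul]
      ring
    rw [this, hf]
    rfl
  let lab : Fin (n + 1) → (Fin (p / 26) → ℂ) → ZMod p := fun i v =>
    if h : ∃ a, 0 < F v i a then h.choose else 0
  have hlab : ∀ v i a, 0 < F v i a → lab i v = a := by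
    intro v i a h
    have h1 : ∃ a, 0 < F v i a := ⟨a, h⟩
    have h2 : lab i v = h1.choose := dif_pos h1
    have h3 := h1.choose_spec
    rw [h2]
    by_contra hne
    have hv := hF0 v i a h
    have h4 : F v i h1.choose = 0 ∨ F v i a = 0 := by
      have := (f (nrm _ ⟨v, hv⟩)).2.2.2 i h1.choose a hne
      rw [← hF v hv] at this
      exact this
    rcases h4 with h4 | h4
    · exact h3.ne' h4
    · exact h.ne' h4
  obtain ⟨v, hv, hO⟩ := dold_cover p hp2 κ (fun j h => by
      have := hκ j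
      rw [h, ZMod.val_zero] at this
      omega) (J := Fin (n + 1)) (by simp only [Fintype.card_fin]; omega)
    (fun i => {v | ∃ a, 0 < F v i a})
    (fun i => by
      rw [isOpen_iff_mem_nhds]
      rintro v ⟨a, ha⟩
      filter_upwards [hev v i a ha] with y hy
      exact ⟨a, hy⟩) lab
    (fun i v ⟨a, ha⟩ => by
      filter_upwards [hev v i a ha] with y hy
      rw [hlab y i a hy, hlab v i a ha])
    (fun i v ⟨a, ha⟩ => by
      rw [hrot]
      refine ⟨a + 1, ?_⟩
      rw [hFs v (hF0 v i a ha), add_sub_cancel_right]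
      exact ha)
    (fun i v ⟨a, ha⟩ => by
      rw [hrot, hlab v i a ha]
      apply hlab
      rw [hFs v (hF0 v i a ha), add_sub_cancel_right]
      exact ha)
  have h1 := (f (nrm _ ⟨v, hv⟩)).2.2.1
  have h2 := (f (nrm _ ⟨v, hv⟩)).2.1
  rw [← hF v hv] at h1 h2
  have h3 : ∑ i, ∑ a, F v i a = 0 := by
    refine Finset.sum_eq_zero fun i _ => Finset.sum_eq_zero fun a _ => ?_
    refine le_antisymm (not_lt.1 fun h => hO i ⟨a, h⟩) (h2 i a)
  rw [h3] at h1
  exact zero_ne_one h1

/-- a compact metric space with a free action has finite index -/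
theorem exists_to_join (p : ℕ) [NeZero p] {A : Type} [MetricSpace A] [CompactSpace A] [Nonempty A]
    (S : A → A) (hS : Continuous S) (hp : ∀ a, S^[p] a = a)
    (hfree : ∀ a k, 0 < k → k < p → S^[k] a ≠ a) :
    ∃ n, ∃ f : C(A, E p n), ∀ a, f (S a) = shift p n (f a) := by
  classical
  have hp0 : 0 < p := Nat.pos_of_ne_zero (NeZero.ne p)
  have hmod : ∀ k a, S^[k % p] a = S^[k] a := by
    intro k a
    have h1 : ∀ t a, S^[p * t] a = a := by
      intro t
      induction t with
      | zero => intro a; rfl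
      | succ t ih => intro a; rw [Nat.mul_succ, Function.iterate_add_apply, hp, ih]
    conv_rhs => rw [← Nat.mod_add_div k p, Function.iterate_add_apply, h1]
  let σ : ZMod p → A → A := fun c => S^[c.val]
  have hσ : ∀ b c a, σ (b + c) a = σ b (σ c a) := by
    intro b c a
    simp only [σ]
    rw [ZMod.val_add, hmod, Function.iterate_add_apply]
  have hσ1 : ∀ a, σ 1 a = S a := by
    intro a
    simp only [σ]
    rw [ZMod.val_one_eq_one_mod, hmod]
    rfl
  have hσc : ∀ c, Continuous (σ c) := fun c => hS.iterate _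
  have hσ0 : ∀ a, σ 0 a = a := by
    intro a
    simp [σ]
  have hsep : ∃ ε : ℝ, 0 < ε ∧ ∀ c : ZMod p, c ≠ 0 → ∀ a, ε ≤ dist a (σ c a) := by
    have h1 : ∀ c : ZMod p, ∃ ε : ℝ, 0 < ε ∧ (c ≠ 0 → ∀ a, ε ≤ dist a (σ c a)) := by
      intro c
      by_cases hc : c = 0
      · exact ⟨1, one_pos, fun h => absurd hc h⟩
      obtain ⟨a0, -, h0⟩ := isCompact_univ.exists_isMinOn univ_nonempty
        (continuous_id.dist (hσc c)).continuousOn
      refine ⟨dist a0 (σ c a0), dist_pos.2 ?_, fun _ a => h0 (mem_univ a)⟩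
      exact (hfree a0 c.val (Nat.pos_of_ne_zero (by simpa using hc)) (ZMod.val_lt c)).symm
    choose ε h2 h3 using h1
    obtain ⟨c0, -, h4⟩ := Finset.exists_min_image Finset.univ ε ⟨0, Finset.mem_univ _⟩
    exact ⟨ε c0, h2 c0, fun c hc a => (h4 c (Finset.mem_univ _)).trans (h3 c hc a)⟩
  obtain ⟨ε, hε, hsep⟩ := hsep
  obtain ⟨t, -, ht1, ht2⟩ := finite_cover_balls_of_compact (isCompact_univ (X := A))
    (show 0 < ε / 2 by positivity)
  obtain ⟨n, x, hx⟩ : ∃ (n : ℕ) (x : Fin (n + 1) → A), ∀ y ∈ t, ∃ i, x i = y := by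
    obtain ⟨k, y, hy⟩ := ht1.fin_embedding
    obtain ⟨a0⟩ := ‹Nonempty A›
    refine ⟨k, Fin.cons a0 y, fun z hz => ?_⟩
    rw [← hy] at hz
    obtain ⟨i, rfl⟩ := hz
    exact ⟨i.succ, rfl⟩
  let ψ : A → Fin (n + 1) → ZMod p → ℝ := fun y i c => max 0 (ε / 2 - dist (σ (-c) y) (x i))
  have hψ0 : ∀ y i c, 0 ≤ ψ y i c := fun y i c => le_max_left _ _
  have hψc : ∀ i c, Continuous fun y => ψ y i c := fun i c =>
    continuous_const.max (continuous_const.sub ((hσc _).dist continuous_const))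
  let tot : A → ℝ := fun y => ∑ i, ∑ c, ψ y i c
  have htc : Continuous tot :=
    continuous_finsetSum _ fun i _ => continuous_finsetSum _ fun c _ => hψc i c
  have htp : ∀ y, 0 < tot y := by
    intro y
    obtain ⟨z, hz, hy⟩ := mem_iUnion₂.1 (ht2 (mem_univ y))
    obtain ⟨i, rfl⟩ := hx z hz
    refine Finset.sum_pos' (fun i _ => Finset.sum_nonneg fun c _ => hψ0 y i c)
      ⟨i, Finset.mem_univ _, Finset.sum_pos' (fun c _ => hψ0 y i c) ⟨0, Finset.mem_univ _, ?_⟩⟩
    refine lt_max_of_lt_right ?_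
    rw [neg_zero, hσ0]
    exact sub_pos.2 (Metric.mem_ball.1 hy)
  have hψs : ∀ y i c, ψ (S y) i c = ψ y i (c - 1) := by
    intro y i c
    simp only [ψ]
    rw [← hσ1, ← hσ, show -c + 1 = -(c - 1) by ring]
  have hts : ∀ y, tot (S y) = tot y := by
    intro y
    refine Finset.sum_congr rfl fun i _ => ?_
    simp only [hψs]
    exact (Equiv.subRight (1 : ZMod p)).sum_comp (fun c => ψ y i c)
  have hmem : ∀ y, (fun i c => ψ y i c / tot y) ∈ E p n := by
    intro y
    refine ⟨fun i c => div_nonneg (hψ0 y i c) (htp y).le, ?_, fun i a b hab => ?_⟩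
    · simp only [← Finset.sum_div]
      exact div_self (htp y).ne'
    · by_contra hc
      push Not at hc
      have pos : ∀ c, ψ y i c / tot y ≠ 0 → dist (σ (-c) y) (x i) < ε / 2 := by
        intro c h
        by_contra h2
        apply h
        have : ψ y i c = 0 := max_eq_left (by linarith [not_lt.1 h2])
        rw [this, zero_div]
      have a1 := pos a hc.1
      have a2 := pos b hc.2
      have a3 := hsep (a - b) (sub_ne_zero.2 hab) (σ (-a) y)
      rw [← hσ, show a - b + -a = -b by ring] at a3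
      have a4 := dist_triangle_right (σ (-a) y) (σ (-b) y) (x i)
      linarith
  refine ⟨n, ⟨fun y => ⟨fun i c => ψ y i c / tot y, hmem y⟩, Continuous.subtype_mk ?_ _⟩,
    fun y => ?_⟩
  · exact continuous_pi fun i => continuous_pi fun c => (hψc i c).div htc fun y => (htp y).ne'
  · apply Subtype.ext
    funext i c
    show ψ (S y) i c / tot (S y) = ψ y i (c - 1) / tot y
    rw [hψs, hts]

theorem Rs_iter (p k : ℕ) (u : Sph (p / 26)) : (Rs p 1)^[k] u = Rs p k u := by
  induction k with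
  | zero => simp [Rs_zero]
  | succ k ih =>
    rw [Function.iterate_succ_apply', ih, Rs_add]
    push_cast
    rw [add_comm]

theorem Rs_free (p : ℕ) (hp : p.Prime) (u : Sph (p / 26)) (k : ℕ) (h0 : 0 < k) (hk : k < p) :
    (Rs p 1)^[k] u ≠ u := by
  obtain ⟨φ, -, h⟩ := exists_phi p k
  intro e
  have := h hp (Nat.not_dvd_of_pos_of_lt h0 hk) u
  rw [← Rs_iter, e, dist_self] at this
  norm_num at this

theorem sph_nonempty {m : ℕ} (hm : 0 < m) : Nonempty (Sph m) := by
  have : (fun _ : Fin m => (1 : ℂ)) ≠ 0 := fun h => one_ne_zero (congrFun h ⟨0, hm⟩)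
  exact ⟨nrm m ⟨_, this⟩⟩

theorem main_all : ∃ (X : Type) (_ : TopologicalSpace X) (_ : CompactSpace X)
    (_ : TopologicalSpace.MetrizableSpace X) (T : X ≃ₜ X), (∀ x, T x ≠ x) ∧
    ∀ (p : ℕ) [Fact p.Prime], 102 ≤ p →
      (1 / 52 : ℝ) * p ≤ ind p (perMap T p) ∧
      (((1 / 52 : ℝ) * p : ℝ) : EReal) ≤ coind p (perMap T p) ∧
      (((1 / 52 : ℝ) * p : ℝ) : EReal) ≤ conn (Per T p) := by
  obtain ⟨X, i1, i2, i3, T, h1, h2⟩ := system
  refine ⟨X, i1, i2, i3, T, h1, fun p _ hp102 => ?_⟩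
  have hp : p.Prime := Fact.out
  obtain ⟨e, he⟩ := h2 p hp
  obtain ⟨n, hn⟩ : ∃ n, p / 26 = n + 1 := ⟨p / 26 - 1, by omega⟩
  have hS : Nonempty (Sph (p / 26)) := sph_nonempty (by omega)
  have hne : ¬ IsEmpty (Per T p) := not_isEmpty_iff.2 (hS.map e)
  have hb : (1 / 52 : ℝ) * p ≤ n := by
    have h3 : p ≤ 52 * n := by omega
    have h4 : (p : ℝ) ≤ 52 * n := by exact_mod_cast h3
    linarith
  have hbE : (((1 / 52 : ℝ) * p : ℝ) : EReal) ≤ (n : EReal) := by
    exact_mod_cast hb
  refine ⟨?_, ?_, ?_⟩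
  · unfold ind
    rw [if_neg hne]
    have hnon : {n : ℕ | ∃ f : C(Per T p, E p n),
        ∀ a, f (perMap T p a) = shift p n (f a)}.Nonempty := by
      obtain ⟨k, f, hf⟩ := exists_to_join p (Rs p 1) (continuous_Rs p 1)
        (fun u => by rw [Rs_iter, Rs_period]) (Rs_free p hp)
      refine ⟨k, f.comp (e.symm : C(Per T p, Sph (p / 26))), fun a => ?_⟩
      show f (e.symm (perMap T p a)) = shift p k (f (e.symm a))
      rw [← hf]
      congr 1
      apply e.injective
      rw [he, e.apply_symm_apply, e.apply_symm_apply]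
    obtain ⟨f, hf⟩ := Nat.sInf_mem hnon
    have h3 := sphere_to_join p (by omega) _ (f.comp (e : C(Sph (p / 26), Per T p))) (fun u => by
      show f (e (Rs p 1 u)) = shift p _ (f (e u))
      rw [he, hf])
    refine hb.trans ?_
    rw [Int.cast_natCast]
    exact_mod_cast (by omega)
  · unfold coind
    rw [if_neg hne]
    obtain ⟨g, hg⟩ := join_to_sphere p n hn
    refine hbE.trans (le_iSup₂_of_le n ⟨(e : C(Sph (p / 26), Per T p)).comp g, fun u => ?_⟩ le_rfl)
    show e (g (shift p n u)) = perMap T p (e (g u))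
    rw [hg, he]
  · unfold conn
    rw [if_neg hne]
    refine hbE.trans (le_sup_of_le_right (le_iSup₂_of_le n (fun i hi x => ?_) le_rfl))
    exact subsingleton_pi e.symm (by omega) x

end Pool.Agent.H289Z.ZI
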