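import Pool.Agent.H289Z.FD2
import Pool.Agent.H289Z.ZI5
import Pool.Agent.Helper954.Hopf.T2

set_option autoImplicit false

namespace Pool.Agent.H289Z.FD

open Set Filter Topology Complex
open scoped BigOperators
open Pool.Agent.H289Z.ZI
open Pool.Agent.Helper954.Hopf.Dold.D1c (dold_cover)
open Pool.Agent.Helper954.Hopf.T2 (ee Sec QQ Sec_disj Sec_rot Sec_open fact1 pieces ee_natCast)

theorem ch_ee (p : ℕ) [Fact p.Prime] (w : ℕ) : ch (w / p) = ee p (w : ZMod p) := by
  rw [ee_natCast]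
  unfold ch Pool.Agent.Helper954.Hopf.om
  rw [← Complex.exp_nat_mul]
  congr 1
  push_cast
  ring

/-- Borsuk-Ulam theorem for the sphere -/
theorem gen_sphere (p : ℕ) [Fact p.Prime] (hp2 : p ≠ 2) {k : ℝ} (h : Gen (Rs p 1) p univ k) :
    ((p / 26 : ℕ) : ℝ) ≤ k := by
  classical
  have hp : p.Prime := Fact.out
  obtain ⟨J, i, F, w, hFc, hw, hFe, hk, hF0⟩ := h
  refine le_trans ?_ hk
  by_contra hlt
  have hlt' : Fintype.card J < p / 26 := by exact_mod_cast not_le.1 hlt
  let κ : Fin (p / 26) → ZMod p := fun j => (((j : ℕ) + 1 : ℕ) : ZMod p)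
  have hκ : ∀ j, (κ j).val = (j : ℕ) + 1 := by
    intro j
    apply ZMod.val_cast_of_lt
    have := j.2
    omega
  have hrot : ∀ v : Fin (p / 26) → ℂ,
      (fun j => exp (2 * Real.pi * I / p) ^ (κ j).val * v j) = R (om p) 1 v := by
    intro v
    funext j
    simp only [R]
    rw [hκ, ← Complex.exp_nat_mul]
    congr 2
    unfold om
    push_cast
    ring
  have hRne : ∀ v : Fin (p / 26) → ℂ, v ≠ 0 → R (om p) 1 v ≠ 0 := by
    intro v hv h
    apply hv
    funext j
    have := norm_R (om p) 1 v j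
    rw [h] at this
    simpa using this.symm
  have hnrm : ∀ v (hv : v ≠ 0), nrm _ ⟨R (om p) 1 v, hRne v hv⟩ = Rs p 1 (nrm _ ⟨v, hv⟩) := by
    intro v hv
    apply Subtype.ext
    funext j
    show ((eN (R (om p) 1 v))⁻¹ • R (om p) 1 v) j = R (om p) 1 ((eN v)⁻¹ • v) j
    have e : eN (R (om p) 1 v) = eN v := by simp only [eN, norm_R]
    rw [e]
    simp only [R, Pi.smul_apply, Complex.real_smul]
    ring
  let sg : Bool → ℂ := fun b => if b then 1 else -1
  let piece : J × Bool → ZMod p → Set (Fin (p / 26) → ℂ) := fun a s =>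
    Subtype.val '' {x : {v : Fin (p / 26) → ℂ // v ≠ 0} | sg a.2 * F a.1 (nrm _ x) ∈ Sec p s}
  have hpc : ∀ a : J × Bool, ∃ (O : Set (Fin (p / 26) → ℂ)) (lab : (Fin (p / 26) → ℂ) → ZMod p),
      IsOpen O ∧ (∀ x, x ∈ O ↔ ∃ q, x ∈ piece a q) ∧
      (∀ x ∈ O, ∀ᶠ y in nhds x, lab y = lab x) ∧ (∀ x ∈ O, R (om p) 1 x ∈ O) ∧
      (∀ x ∈ O, lab (R (om p) 1 x) = lab x + 1) := by
    intro a
    have hwz : (w a.1 : ZMod p) ≠ 0 := fun h => hw a.1 ((ZMod.natCast_eq_zero_iff _ _).1 h)
    refine pieces (R (om p) 1) (piece a) (fun s => ?_) (fun s => s * (w a.1 : ZMod p)⁻¹) ?_ ?_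
    · refine (isOpen_ne (x := (0 : Fin (p / 26) → ℂ))).isOpenMap_subtype_val _ ?_
      exact (Sec_open s).preimage (continuous_const.mul ((hFc a.1).comp (nrm _).continuous))
    · rintro q q' v ⟨x, hx, rfl⟩ ⟨x', hx', e⟩
      have e' : x' = x := Subtype.ext e
      subst e'
      rw [Sec_disj hx hx']
    · rintro q v ⟨x, hx, rfl⟩
      refine ⟨q + w a.1, ⟨⟨R (om p) 1 x.1, hRne _ x.2⟩, ?_, rfl⟩, ?_⟩
      · show sg a.2 * F a.1 (nrm _ ⟨R (om p) 1 x.1, hRne _ x.2⟩) ∈ Sec p (q + w a.1)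
        rw [hnrm x.1 x.2, hFe, ch_ee, mul_left_comm]
        exact Sec_rot _ hx
      · rw [add_mul, mul_inv_cancel₀ hwz]
  choose O lab h1 h2 h3 h4 h5 using hpc
  obtain ⟨v, hv, hO⟩ := dold_cover p hp2 κ (fun j h => by
      have := hκ j
      rw [h, ZMod.val_zero] at this
      omega) (J := J × Bool)
    (by simp only [Fintype.card_prod, Fintype.card_bool, Fintype.card_fin]; omega) O h1 lab h3
    (fun a v hv => by rw [hrot]; exact h4 a v hv) (fun a v hv => by rw [hrot]; exact h5 a v hv)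
  obtain ⟨j, hj⟩ := hF0 (nrm _ ⟨v, hv⟩) (mem_univ _)
  apply hj
  have hq : ∀ b, sg b * F j (nrm _ ⟨v, hv⟩) ∉ QQ p := by
    intro b hb
    obtain ⟨s, hs⟩ := mem_iUnion.1 hb
    exact hO (j, b) ((h2 (j, b) v).2 ⟨s, ⟨v, hv⟩, hs, rfl⟩)
  refine fact1 hp2 ?_ ?_
  · simpa [sg] using hq true
  · simpa [sg] using hq false

theorem hasFDC_int : HasFDC (Multiplicative ℤ) := by
  classical
  refine ⟨inferInstance, fun g a b => dist_mul_left g a b, fun R => ?_, fun 𝔇 h1 h2 => ?_⟩
  · exact (isCompact_closedBall _ _).finite_of_discrete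
  have hd : ∀ x y : Multiplicative ℤ,
      dist x y = ((|Multiplicative.toAdd x - Multiplicative.toAdd y| : ℤ) : ℝ) := by
    intro x y
    show dist (Multiplicative.toAdd x) (Multiplicative.toAdd y) = _
    rw [Int.dist_eq]
    push_cast
    rfl
  refine h2 _ fun r hr => ?_
  obtain ⟨M0, hM0⟩ := exists_nat_ge r
  let M : ℤ := M0 + 1
  have hM : 0 < M := by simp only [M]; omega
  let B : ℤ → Set (Multiplicative ℤ) := fun k => {x | Multiplicative.toAdd x / M = k}
  have hB : ∀ k x, x ∈ B k → M * k ≤ Multiplicative.toAdd x ∧ Multiplicative.toAdd x < M * k + M := by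
    intro k x hx
    have e1 := Int.mul_ediv_add_emod (Multiplicative.toAdd x) M
    have e2 := Int.emod_nonneg (Multiplicative.toAdd x) hM.ne'
    have e3 := Int.emod_lt_of_pos (Multiplicative.toAdd x) hM
    have e4 : Multiplicative.toAdd x / M = k := hx
    rw [e4] at e1
    constructor <;> linarith
  have hdis : ∀ c : ℤ, RDisjoint r (B '' {k | k % 2 = c}) := by
    rintro c _ ⟨k, hk, rfl⟩ _ ⟨l, hl, rfl⟩ hne x hx y hy
    have e1 : k ≠ l := fun e => hne (by rw [e])
    have e2 : k % 2 = c := hk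
    have e3 : l % 2 = c := hl
    obtain ⟨a1, a2⟩ := hB k x hx
    obtain ⟨a3, a4⟩ := hB l y hy
    have e4 : M ≤ |Multiplicative.toAdd x - Multiplicative.toAdd y| := by
      rcases (by omega : k + 2 ≤ l ∨ l + 2 ≤ k) with h | h
      · have := mul_le_mul_of_nonneg_left h hM.le
        exact le_abs.2 (Or.inr (by linarith))
      · have := mul_le_mul_of_nonneg_left h hM.le
        exact le_abs.2 (Or.inl (by linarith))
    rw [hd]
    have e5 : ((M : ℤ) : ℝ) ≤ ((|Multiplicative.toAdd x - Multiplicative.toAdd y| : ℤ) : ℝ) := by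
      exact_mod_cast e4
    have e6 : ((M : ℤ) : ℝ) = M0 + 1 := by simp [M]
    linarith
  refine ⟨range B, h1 _ ⟨M, ?_⟩, ?_⟩
  · rintro _ ⟨k, rfl⟩ x hx y hy
    obtain ⟨a1, a2⟩ := hB k x hx
    obtain ⟨a3, a4⟩ := hB k y hy
    rw [hd]
    exact_mod_cast abs_le.2 ⟨by linarith, by linarith⟩
  · rintro _ rfl
    refine ⟨B '' {k | k % 2 = 0}, B '' {k | k % 2 = 1}, image_subset_range _ _,
      image_subset_range _ _, hdis 0, hdis 1, (eq_univ_of_forall fun x => ?_).symm⟩
    rcases Int.emod_two_eq_zero_or_one (Multiplicative.toAdd x / M) with h | h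
    · exact Or.inl ⟨_, ⟨_, h, rfl⟩, rfl⟩
    · exact Or.inr ⟨_, ⟨_, h, rfl⟩, rfl⟩

theorem amenable_int (X : Type) [MulAction (Multiplicative ℤ) X] [TopologicalSpace X] :
    IsAmenableAction (Multiplicative ℤ) X := by
  classical
  intro F L _ ε hε
  obtain ⟨c, hc⟩ : ∃ c : ℕ, ∀ γ ∈ F, (Multiplicative.toAdd γ).natAbs ≤ c := by
    obtain ⟨c, hc⟩ := (F.finite_toSet.image fun γ => (Multiplicative.toAdd γ).natAbs).bddAbove
    exact ⟨c, fun γ hγ => hc ⟨γ, hγ, rfl⟩⟩
  obtain ⟨n0, hn0⟩ := exists_nat_gt (4 * (c + 1) / ε)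
  have hn : (0 : ℝ) < n0 := lt_trans (by positivity) hn0
  let S : Finset (Multiplicative ℤ) := (Finset.Ico (0 : ℤ) n0).image Multiplicative.ofAdd
  have hS : ∀ g, g ∈ S ↔ 0 ≤ Multiplicative.toAdd g ∧ Multiplicative.toAdd g < n0 := by
    intro g
    simp only [S, Finset.mem_image, Finset.mem_Ico]
    constructor
    · rintro ⟨a, ha, rfl⟩
      exact ha
    · intro h
      exact ⟨_, h, rfl⟩
  have hcard : S.card = n0 := by
    simp only [S]
    rw [Finset.card_image_of_injective _ Multiplicative.ofAdd.injective]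
    simp
  refine ⟨S, fun _ g => if g ∈ S then 1 / n0 else 0, fun g => continuous_const, fun x g => ?_,
    fun x g hg => if_neg hg, fun x => ?_, fun γ hγ x _ => ?_⟩
  · show 0 ≤ if g ∈ S then (1 : ℝ) / n0 else 0
    split_ifs
    exacts [by positivity, le_rfl]
  · rw [Finset.sum_congr rfl fun g hg => if_pos hg, Finset.sum_const, hcard, nsmul_eq_mul]
    field_simp
  · let D : Finset (Multiplicative ℤ) :=
      (Finset.Icc (-(c : ℤ)) c ∪ Finset.Icc ((n0 : ℤ) - c) (n0 + c)).image Multiplicative.ofAdd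
    have hD : ∀ g, g ∉ D → (γ * g ∈ S ↔ g ∈ S) := by
      intro g hg
      have h1 : Multiplicative.toAdd g ∉ Finset.Icc (-(c : ℤ)) c ∪
          Finset.Icc ((n0 : ℤ) - c) (n0 + c) := fun h => hg (Finset.mem_image.2 ⟨_, h, rfl⟩)
      simp only [Finset.mem_union, Finset.mem_Icc] at h1
      have h2 := hc γ hγ
      rw [hS, hS, toAdd_mul]
      omega
    have hDc : (D.card : ℝ) ≤ 4 * (c + 1) := by
      have h1 : D.card ≤ 4 * (c + 1) := by
        refine Finset.card_image_le.trans ((Finset.card_union_le _ _).trans ?_)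
        simp only [Int.card_Icc]
        omega
      exact_mod_cast h1
    rw [tsum_eq_sum (s := D) fun g hg => by simp only [hD g hg, sub_self, abs_zero]]
    refine lt_of_le_of_lt (Finset.sum_le_card_nsmul D _ (1 / n0 : ℝ) fun g _ => ?_) ?_
    · have : (0 : ℝ) < 1 / n0 := by positivity
      beta_reduce
      split_ifs
      · rw [sub_self, abs_zero]; exact this.le
      · rw [sub_zero, abs_of_pos this]
      · rw [zero_sub, abs_neg, abs_of_pos this]
      · rw [sub_self, abs_zero]; exact this.le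
    · rw [nsmul_eq_mul, div_lt_iff₀ hε] at *
      rw [mul_one_div, div_lt_iff₀ hn]
      linarith

/-- the ambient shift space -/
abbrev Om : Type := ℤ → ℕ → KK

/-- the aperiodic subshift -/
def XS : Set Om := {z | ∀ q : ℕ, 1 ≤ q → ∀ i : ℤ, 3 / 16 ≤ dist (z i q) (z (i + q) q)}

instance : MulAction (Multiplicative ℤ) XS where
  smul n z := ⟨fun i => z.1 (i + Multiplicative.toAdd n), fun q hq i => by
    have := z.2 q hq (i + Multiplicative.toAdd n)
    rwa [add_right_comm] at this⟩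
  one_smul z := by
    apply Subtype.ext
    funext i
    show z.1 (i + 0) = z.1 i
    rw [add_zero]
  mul_smul m n z := by
    apply Subtype.ext
    funext i
    show z.1 (i + (Multiplicative.toAdd m + Multiplicative.toAdd n)) =
      z.1 (i + Multiplicative.toAdd m + Multiplicative.toAdd n)
    rw [add_assoc]

theorem smul_val (n : Multiplicative ℤ) (z : XS) (i : ℤ) :
    (n • z).1 i = z.1 (i + Multiplicative.toAdd n) := rfl

instance : ContinuousConstSMul (Multiplicative ℤ) XS :=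
  ⟨fun n => continuous_induced_rng.2 (continuous_pi fun i =>
    (continuous_apply (i + Multiplicative.toAdd n)).comp continuous_subtype_val)⟩

/-- finite stages of the subshift -/
def XQ (Q : ℕ) : Set Om :=
  {z | ∀ q : ℕ, 1 ≤ q → q ≤ Q → ∀ i : ℤ, 3 / 16 ≤ dist (z i q) (z (i + q) q)}

theorem isClosed_XQ (Q : ℕ) : IsClosed (XQ Q) := by
  unfold XQ
  simp only [Set.ofPred_forall]
  exact isClosed_iInter fun q => isClosed_iInter fun _ => isClosed_iInter fun _ =>
    isClosed_iInter fun i => isClosed_le continuous_const (by fun_prop)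

theorem XS_eq : XS = ⋂ Q, XQ Q := by
  ext z
  simp only [XS, XQ, mem_iInter, mem_ofPred_eq]
  exact ⟨fun h _ q hq _ => h q hq, fun h q hq => h q q hq le_rfl⟩

instance : CompactSpace XS :=
  isCompact_iff_compactSpace.1 (XS_eq ▸ isClosed_iInter isClosed_XQ).isCompact

theorem free_XS (g : Multiplicative ℤ) (x : XS) (h : g • x = x) : g = 1 := by
  by_contra hg
  have h0 : Multiplicative.toAdd g ≠ 0 := fun e => hg (toAdd_eq_zero.1 e)
  have h1 : ∀ i, x.1 (i + Multiplicative.toAdd g) = x.1 i := fun i => by rw [← smul_val, h]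
  have h2 : x.1 (0 + ((Multiplicative.toAdd g).natAbs : ℤ)) = x.1 0 := by
    rcases Int.natAbs_eq (Multiplicative.toAdd g) with e | e
    · rw [← e, h1]
    · have e2 : 0 + ((Multiplicative.toAdd g).natAbs : ℤ) + Multiplicative.toAdd g = 0 := by omega
      rw [← h1 (0 + ((Multiplicative.toAdd g).natAbs : ℤ)), e2]
  have h3 := x.2 (Multiplicative.toAdd g).natAbs (by omega) 0
  rw [h2, dist_self] at h3
  norm_num at h3

theorem not_fdc : ¬ FiniteDynamicalComplexity (Multiplicative ℤ) XS := by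
  classical
  intro h
  choose φ hφc hφ using exists_phi
  let S : Om → Om := fun z i => z (i + 1)
  have hS : Continuous S := by fun_prop
  have hSi : ∀ (n : ℕ) z, S^[n] z = fun i => z (i + n) := by
    intro n
    induction n with
    | zero => intro z; simp
    | succ n ih =>
      intro z
      rw [Function.iterate_succ_apply', ih]
      funext i
      show z (i + 1 + n) = z (i + ((n + 1 : ℕ) : ℤ))
      congr 1
      push_cast
      ring
  let Φ : ∀ p : ℕ, Sph (p / 26) → Om := fun p u i q => φ p q (Rs p i u)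
  have hΦ : ∀ p, Continuous (Φ p) := fun p => continuous_pi fun i => continuous_pi fun q =>
    (hφc p q).comp (continuous_Rs p i)
  have hΦS : ∀ p u, Φ p (Rs p 1 u) = S (Φ p u) := by
    intro p u
    funext i q
    show φ p q (Rs p i (Rs p 1 u)) = φ p q (Rs p ((i + 1 : ℤ) : ℝ) u)
    rw [Rs_add]
    push_cast
    rfl
  have hΦQ : ∀ Q p, p.Prime → Q < p → ∀ u, Φ p u ∈ XQ Q := by
    intro Q p hp hQ u q h1 h2 i
    have := hφ p q hp (Nat.not_dvd_of_pos_of_lt h1 (by omega)) (Rs p i u)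
    rw [Rs_add] at this
    show 3 / 16 ≤ dist (φ p q (Rs p i u)) (φ p q (Rs p ((i + q : ℤ) : ℝ) u))
    push_cast
    rwa [add_comm]
  have hsub : ∀ O : Set Om, IsOpen O → XS ⊆ O → ∃ Q, XQ Q ⊆ O := by
    intro O hO hX
    refine exists_subset_nhds_of_compactSpace (V := XQ) (fun a b => ⟨max a b, ?_, ?_⟩) isClosed_XQ
      fun x hx => hO.mem_nhds (hX (XS_eq ▸ hx))
    · exact fun z hz q h1 h2 => hz q h1 (h2.trans (le_max_left _ _))
    · exact fun z hz q h1 h2 => hz q h1 (h2.trans (le_max_right _ _))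
  letI : MetricSpace Om := TopologicalSpace.metrizableSpaceMetric Om
  obtain ⟨O, hO, hXO, p0, hG⟩ := fdc_gen (Ω := Om) (ι := (Subtype.val : XS → Om)) hS
    continuous_subtype_val Subtype.val_injective (fun n x => by rw [hSi]; rfl)
    (fun p => Sph (p / 26)) (fun p => Rs p 1) (fun p => continuous_Rs p 1)
    (fun p u => by rw [Rs_iter, Rs_period]) Φ hΦ hΦS h (show (0 : ℝ) < 1 / 100 by norm_num)
  rw [Subtype.range_coe] at hXO
  obtain ⟨Q, hQ⟩ := hsub O hO hXO
  obtain ⟨p, hp1, hp⟩ := Nat.exists_infinite_primes (p0 + Q + 100)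
  haveI : Fact p.Prime := ⟨hp⟩
  have h1 := gen_sphere p (by omega) ((hG p (by omega)).mono
    (fun u _ j => ⟨0, one_pos, hQ (hΦQ Q p hp (by omega) _)⟩) le_rfl)
  have h2 : p < 100 * (p / 26) := by omega
  have h3 : (p : ℝ) < 100 * ((p / 26 : ℕ) : ℝ) := by exact_mod_cast h2
  linarith

theorem nonempty_XS : Nonempty XS := by
  by_contra hn
  rw [not_nonempty_iff] at hn
  refine not_fdc fun 𝒞 h1 _ => h1 _ isOpen_univ ⟨fun _ _ _ _ _ => trivial, fun _ _ _ => trivial⟩ ?_
  rw [closure_univ, Set.eq_empty_of_isEmpty (univ : Set (Multiplicative ℤ × XS))]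
  exact isCompact_empty

end Pool.Agent.H289Z.FD
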