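import Mathlib

set_option autoImplicit false

namespace Pool.Agent.H289Z.MU

open Set Filter Topology

universe u

section Stage

variable {H : Type u} [Group H]

/-- invariant pseudo-metric on the points with index in `I` -/
structure IsSt (I : Set ℕ) (D : ℕ × H → ℕ × H → ℝ) : Prop where
  self : ∀ a : ℕ × H, a.1 ∈ I → D a a = 0
  symm : ∀ a b : ℕ × H, a.1 ∈ I → b.1 ∈ I → D a b = D b a
  tri : ∀ a b c : ℕ × H, a.1 ∈ I → b.1 ∈ I → c.1 ∈ I → D a c ≤ D a b + D b c
  inv : ∀ (g : H) (a b : ℕ × H), a.1 ∈ I → b.1 ∈ I → D (a.1, g * a.2) (b.1, g * b.2) = D a b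

theorem IsSt.nonneg {I : Set ℕ} {D : ℕ × H → ℕ × H → ℝ} (h : IsSt I D) (a b : ℕ × H)
    (ha : a.1 ∈ I) (hb : b.1 ∈ I) : 0 ≤ D a b := by
  have h1 := h.tri a b a ha hb ha
  rw [h.self a ha, h.symm b a hb ha] at h1
  linarith

/-- Katetov functions -/
structure Kat (I : Set ℕ) (D : ℕ × H → ℕ × H → ℝ) (f : ℕ × H → ℝ) : Prop where
  lip : ∀ a b : ℕ × H, a.1 ∈ I → b.1 ∈ I → f a ≤ f b + D a b
  low : ∀ a b : ℕ × H, a.1 ∈ I → b.1 ∈ I → D a b ≤ f a + f b

theorem Kat.of_st {I : Set ℕ} {D : ℕ × H → ℕ × H → ℝ} (h : IsSt I D) (c : ℕ × H)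
    (hc : c.1 ∈ I) : Kat I D (D c) := by
  refine ⟨fun a b ha hb => ?_, fun a b ha hb => ?_⟩
  · have := h.tri c b a hc hb ha
    rw [h.symm b a hb ha] at this
    exact this
  · have := h.tri a c b ha hc hb
    rw [h.symm a c ha hc] at this
    exact this

theorem Kat.shift {I : Set ℕ} {D : ℕ × H → ℕ × H → ℝ} (h : IsSt I D) {f : ℕ × H → ℝ}
    (hf : Kat I D f) (g : H) : Kat I D (fun z => f (z.1, g * z.2)) := by
  refine ⟨fun a b ha hb => ?_, fun a b ha hb => ?_⟩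
  · have := hf.lip (a.1, g * a.2) (b.1, g * b.2) ha hb
    rw [h.inv g a b ha hb] at this
    exact this
  · have := hf.low (a.1, g * a.2) (b.1, g * b.2) ha hb
    rw [h.inv g a b ha hb] at this
    exact this

theorem Kat.bound {I : Set ℕ} {D : ℕ × H → ℕ × H → ℝ} {f f' : ℕ × H → ℝ}
    (hf : Kat I D f) (hf' : Kat I D f') (w z : ℕ × H) (hw : w.1 ∈ I) (hz : z.1 ∈ I) :
    |f z - f' z| ≤ f w + f' w := by
  have h1 := hf.lip z w hz hw
  have h2 := hf'.low z w hz hw
  have h3 := hf'.lip z w hz hw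
  have h4 := hf.low z w hz hw
  rw [abs_le]
  constructor <;> linarith

/-- one-orbit extension -/
theorem extend {I : Set ℕ} {D : ℕ × H → ℕ × H → ℝ} (h : IsSt I D) {n i0 : ℕ} (hn : n ∉ I)
    (hi0 : i0 ∈ I) {f : ℕ × H → ℝ} (hf : Kat I D f) :
    ∃ D' : ℕ × H → ℕ × H → ℝ, IsSt (insert n I) D' ∧
      (∀ a b : ℕ × H, a.1 ∈ I → b.1 ∈ I → D' a b = D a b) ∧
      (∀ b : ℕ × H, b.1 ∈ I → D' (n, 1) b = f b) ∧
      (∀ (g : H) (c : ℝ), (∀ z : ℕ × H, z.1 ∈ I → |f z - f (z.1, g⁻¹ * z.2)| ≤ c) →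
        D' (n, 1) (n, g) ≤ c) := by
  classical
  let K : ℕ × H → ℕ × H → ℝ := fun a z => if a.1 = n then f (z.1, a.2⁻¹ * z.2) else D a z
  have hK : ∀ a : ℕ × H, a.1 ∈ insert n I → Kat I D (K a) := by
    intro a ha
    by_cases h1 : a.1 = n
    · have : K a = fun z => f (z.1, a.2⁻¹ * z.2) := by
        funext z; simp only [K, if_pos h1]
      rw [this]
      exact hf.shift h _
    · have : K a = D a := by
        funext z; simp only [K, if_neg h1]
      rw [this]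
      exact Kat.of_st h a (ha.resolve_left h1)
  have hKI : ∀ a : ℕ × H, a.1 ∈ I → K a = D a := by
    intro a ha
    have h1 : a.1 ≠ n := fun e => hn (e ▸ ha)
    funext z; simp only [K, if_neg h1]
  let Z := {z : ℕ × H // z.1 ∈ I}
  haveI : Nonempty Z := ⟨⟨(i0, 1), hi0⟩⟩
  let D' : ℕ × H → ℕ × H → ℝ := fun a b => ⨆ z : Z, |K a z.1 - K b z.1|
  have hbdd : ∀ a b : ℕ × H, a.1 ∈ insert n I → b.1 ∈ insert n I →
      BddAbove (range fun z : Z => |K a z.1 - K b z.1|) := by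
    intro a b ha hb
    refine ⟨K a (i0, 1) + K b (i0, 1), ?_⟩
    rintro _ ⟨z, rfl⟩
    exact (hK a ha).bound (hK b hb) (i0, 1) z.1 hi0 z.2
  have hle : ∀ a b : ℕ × H, a.1 ∈ insert n I → b.1 ∈ insert n I → ∀ z : ℕ × H, z.1 ∈ I →
      |K a z - K b z| ≤ D' a b := by
    intro a b ha hb z hz
    exact le_ciSup (hbdd a b ha hb) (⟨z, hz⟩ : Z)
  have hval : ∀ a b : ℕ × H, a.1 ∈ insert n I → b.1 ∈ I → D' a b = K a b := by
    intro a b ha hb
    apply le_antisymm
    · refine ciSup_le fun z => ?_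
      have := (hK a ha).bound (hK b (Or.inr hb)) b z.1 hb z.2
      rw [hKI b hb, h.self b hb, add_zero] at this
      rw [hKI b hb]
      exact this
    · have := hle a b ha (Or.inr hb) b hb
      rw [hKI b hb, h.self b hb, sub_zero] at this
      exact (le_abs_self _).trans this
  refine ⟨D', ⟨?_, ?_, ?_, ?_⟩, ?_, ?_, ?_⟩
  · intro a _
    simp only [D', sub_self, abs_zero, ciSup_const]
  · intro a b _ _
    simp only [D', abs_sub_comm]
  · intro a b c ha hb hc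
    refine ciSup_le fun z => ?_
    have h1 := hle a b ha hb z.1 z.2
    have h2 := hle b c hb hc z.1 z.2
    have h3 := abs_sub_le (K a z.1) (K b z.1) (K c z.1)
    linarith
  · intro g a b ha hb
    have key : ∀ a : ℕ × H, a.1 ∈ insert n I → ∀ z : ℕ × H, z.1 ∈ I →
        K (a.1, g * a.2) (z.1, g * z.2) = K a z := by
      intro a ha z hz
      by_cases h1 : a.1 = n
      · simp only [K, if_pos h1]
        congr 2
        group
      · simp only [K, if_neg h1]
        exact h.inv g a z (ha.resolve_left h1) hz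
    apply le_antisymm
    · refine ciSup_le fun z => ?_
      have h1 := hle a b ha hb (z.1.1, g⁻¹ * z.1.2) z.2
      have h2 := key a ha (z.1.1, g⁻¹ * z.1.2) z.2
      have h3 := key b hb (z.1.1, g⁻¹ * z.1.2) z.2
      simp only [mul_inv_cancel_left] at h2 h3
      rw [← h2, ← h3] at h1
      exact h1
    · refine ciSup_le fun z => ?_
      have h1 := hle (a.1, g * a.2) (b.1, g * b.2) ha hb (z.1.1, g * z.1.2) z.2
      rw [key a ha z.1 z.2, key b hb z.1 z.2] at h1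
      exact h1
  · intro a b ha hb
    rw [hval a b (Or.inr ha) hb, hKI a ha]
  · intro b hb
    rw [hval (n, 1) b (Or.inl rfl) hb]
    simp [K]
  · intro g c hc
    refine ciSup_le fun z => ?_
    have := hc z.1 z.2
    simpa [K] using this

/-- limit of a chain of stages -/
theorem limit (Inv : ℕ → (ℕ × H → ℕ × H → ℝ) → Prop)
    (Req : ℕ → ℕ → (ℕ × H → ℕ × H → ℝ) → Prop)
    (N0 : ℕ) (D0 : ℕ × H → ℕ × H → ℝ) (h0 : IsSt (Iio N0) D0) (hI0 : Inv N0 D0)
    (step : ∀ (k N : ℕ) (D : ℕ × H → ℕ × H → ℝ), k ≤ N → IsSt (Iio N) D → Inv N D →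
      ∃ (N' : ℕ) (D' : ℕ × H → ℕ × H → ℝ), N < N' ∧ IsSt (Iio N') D' ∧ Inv N' D' ∧
        (∀ a b : ℕ × H, a.1 < N → b.1 < N → D' a b = D a b) ∧ Req k N' D') :
    ∃ E : ℕ × H → ℕ × H → ℝ, IsSt univ E ∧ ∀ k, ∃ (N : ℕ) (D : ℕ × H → ℕ × H → ℝ),
      k < N ∧ Inv N D ∧ Req k N D ∧ ∀ a b : ℕ × H, a.1 < N → b.1 < N → E a b = D a b := by
  classical
  let T : ℕ → Type u := fun k =>
    {s : ℕ × (ℕ × H → ℕ × H → ℝ) // k ≤ s.1 ∧ IsSt (Iio s.1) s.2 ∧ Inv s.1 s.2}
  have step' : ∀ (k : ℕ) (s : T k), ∃ t : T (k + 1), s.1.1 < t.1.1 ∧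
      (∀ a b : ℕ × H, a.1 < s.1.1 → b.1 < s.1.1 → t.1.2 a b = s.1.2 a b) ∧
      Req k t.1.1 t.1.2 := by
    intro k s
    obtain ⟨N', D', h1, h2, h3, h4, h5⟩ := step k s.1.1 s.1.2 s.2.1 s.2.2.1 s.2.2.2
    exact ⟨⟨(N', D'), by have := s.2.1; show k + 1 ≤ N'; omega, h2, h3⟩, h1, h4, h5⟩
  choose nx hnx using step'
  let S : ∀ k, T k := fun k => Nat.rec (motive := T) ⟨(N0, D0), Nat.zero_le _, h0, hI0⟩ nx k
  have hS : ∀ k, S (k + 1) = nx k (S k) := fun k => rfl
  have hmono : ∀ k l, k ≤ l → (S k).1.1 ≤ (S l).1.1 ∧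
      ∀ a b : ℕ × H, a.1 < (S k).1.1 → b.1 < (S k).1.1 → (S l).1.2 a b = (S k).1.2 a b := by
    intro k l hkl
    induction l, hkl using Nat.le_induction with
    | base => exact ⟨le_rfl, fun _ _ _ _ => rfl⟩
    | succ l _ ih =>
      have h1 := hnx l (S l)
      rw [← hS] at h1
      refine ⟨ih.1.trans h1.1.le, fun a b ha hb => ?_⟩
      rw [h1.2.1 a b (ha.trans_le ih.1) (hb.trans_le ih.1), ih.2 a b ha hb]
  let E : ℕ × H → ℕ × H → ℝ := fun a b => (S (max a.1 b.1 + 1)).1.2 a b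
  have hE : ∀ k (a b : ℕ × H), a.1 < (S k).1.1 → b.1 < (S k).1.1 → E a b = (S k).1.2 a b := by
    intro k a b ha hb
    have h1 := (S (max a.1 b.1 + 1)).2.1
    have ha' : a.1 < (S (max a.1 b.1 + 1)).1.1 := by
      have := le_max_left a.1 b.1; omega
    have hb' : b.1 < (S (max a.1 b.1 + 1)).1.1 := by
      have := le_max_right a.1 b.1; omega
    rcases le_total k (max a.1 b.1 + 1) with h | h
    · exact (hmono _ _ h).2 a b ha hb
    · exact ((hmono _ _ h).2 a b ha' hb').symm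
  have hlt : ∀ k i, i < k → i < (S k).1.1 := fun k i hi => hi.trans_le (S k).2.1
  refine ⟨E, ⟨?_, ?_, ?_, ?_⟩, ?_⟩
  · intro a _
    have ha := hlt (a.1 + 1) a.1 (by omega)
    rw [hE (a.1 + 1) a a ha ha]
    exact (S (a.1 + 1)).2.2.1.self a ha
  · intro a b _ _
    have ha := hlt (a.1 + b.1 + 1) a.1 (by omega)
    have hb := hlt (a.1 + b.1 + 1) b.1 (by omega)
    rw [hE (a.1 + b.1 + 1) a b ha hb, hE (a.1 + b.1 + 1) b a hb ha]
    exact (S (a.1 + b.1 + 1)).2.2.1.symm a b ha hb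
  · intro a b c _ _ _
    have ha := hlt (a.1 + b.1 + c.1 + 1) a.1 (by omega)
    have hb := hlt (a.1 + b.1 + c.1 + 1) b.1 (by omega)
    have hc := hlt (a.1 + b.1 + c.1 + 1) c.1 (by omega)
    rw [hE (a.1 + b.1 + c.1 + 1) a b ha hb, hE (a.1 + b.1 + c.1 + 1) b c hb hc,
      hE (a.1 + b.1 + c.1 + 1) a c ha hc]
    exact (S (a.1 + b.1 + c.1 + 1)).2.2.1.tri a b c ha hb hc
  · intro g a b _ _
    have ha := hlt (a.1 + b.1 + 1) a.1 (by omega)
    have hb := hlt (a.1 + b.1 + 1) b.1 (by omega)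
    rw [hE (a.1 + b.1 + 1) a b ha hb, hE (a.1 + b.1 + 1) (a.1, g * a.2) (b.1, g * b.2) ha hb]
    exact (S (a.1 + b.1 + 1)).2.2.1.inv g a b ha hb
  · intro k
    have h1 := hnx k (S k)
    rw [← hS] at h1
    exact ⟨(S (k + 1)).1.1, (S (k + 1)).1.2, (S (k + 1)).2.1, (S (k + 1)).2.2.2, h1.2.2,
      hE (k + 1)⟩

end Stage

/-- a countable pseudo-metric space with the approximate extension property -/
theorem exists_d : ∃ d : ℕ → ℕ → ℝ, (∀ i, d i i = 0) ∧ (∀ i j, d i j = d j i) ∧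
    (∀ i j k, d i k ≤ d i j + d j k) ∧
    ∀ (M : ℕ) (r : ℕ → ℝ), 0 < M → (∀ i j, i < M → j < M → r i ≤ r j + d i j) →
      (∀ i j, i < M → j < M → d i j ≤ r i + r j) → ∀ ε : ℝ, 0 < ε → ∀ N : ℕ,
      ∃ n, N ≤ n ∧ ∀ i, i < M → |d n i - r i| ≤ ε := by
  classical
  obtain ⟨e0, he0⟩ := exists_surjective_nat (List ℚ)
  let e : ℕ → List ℚ := fun k => e0 k.unpair.1
  let Req : ℕ → ℕ → (ℕ × Multiplicative PUnit.{1} → ℕ × Multiplicative PUnit.{1} → ℝ) → Prop :=
    fun k N D => 0 < (e k).length → (e k).length ≤ k →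
      (∀ i j, i < (e k).length → j < (e k).length →
        D (i, 1) (j, 1) ≤ ((e k).getD i 0 : ℝ) + ((e k).getD j 0 : ℝ)) →
      ∃ n, k ≤ n ∧ n < N ∧ ∀ i, i < (e k).length → D (n, 1) (i, 1) ≤ ((e k).getD i 0 : ℝ) ∧
        ∃ j, j < (e k).length ∧ ((e k).getD j 0 : ℝ) + D (j, 1) (i, 1) ≤ D (n, 1) (i, 1)
  obtain ⟨E, hE, hk⟩ := limit (H := Multiplicative PUnit.{1}) (fun N _ => 0 < N) Req 1
    (fun _ _ => 0) ⟨fun _ _ => rfl, fun _ _ _ _ => rfl, fun _ _ _ _ _ _ => by simp,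
      fun _ _ _ _ _ => rfl⟩ Nat.one_pos (by
    intro k N D hkN hD hN
    have hIio : insert N (Iio N) = Iio (N + 1) := by
      ext i; simp only [mem_insert_iff, mem_Iio]; omega
    by_cases hc : 0 < (e k).length ∧ (e k).length ≤ k ∧
      (∀ i j, i < (e k).length → j < (e k).length →
        D (i, 1) (j, 1) ≤ ((e k).getD i 0 : ℝ) + ((e k).getD j 0 : ℝ))
    · obtain ⟨c1, c2, c3⟩ := hc
      have hne : (Finset.range (e k).length).Nonempty := ⟨0, Finset.mem_range.2 c1⟩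
      let f : ℕ × Multiplicative PUnit.{1} → ℝ := fun z =>
        (Finset.range (e k).length).inf' hne (fun j => ((e k).getD j 0 : ℝ) + D (j, 1) z)
      have hf1 : ∀ z j, j < (e k).length → f z ≤ ((e k).getD j 0 : ℝ) + D (j, 1) z :=
        fun z j hj => Finset.inf'_le _ (Finset.mem_range.2 hj)
      have hf2 : ∀ z, ∃ j, j < (e k).length ∧ f z = ((e k).getD j 0 : ℝ) + D (j, 1) z := by
        intro z
        obtain ⟨j, hj, h⟩ := Finset.exists_mem_eq_inf' hne
          (fun j => ((e k).getD j 0 : ℝ) + D (j, 1) z)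
        exact ⟨j, Finset.mem_range.1 hj, h⟩
      have hf : Kat (Iio N) D f := by
        refine ⟨fun a b ha hb => ?_, fun a b ha hb => ?_⟩
        · obtain ⟨j, hj, h⟩ := hf2 b
          have hjN : j ∈ Iio N := by simp only [mem_Iio]; omega
          have h1 := hf1 a j hj
          have h2 := hD.tri (j, 1) b a hjN hb ha
          rw [hD.symm b a hb ha] at h2
          linarith
        · obtain ⟨j, hj, h⟩ := hf2 b
          obtain ⟨i, hi, h'⟩ := hf2 a
          have hjN : j ∈ Iio N := by simp only [mem_Iio]; omega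
          have hiN : i ∈ Iio N := by simp only [mem_Iio]; omega
          have h1 := hD.tri a (i, 1) b ha hiN hb
          have h2 := hD.tri (i, 1) (j, 1) b hiN hjN hb
          have h3 := c3 i j hi hj
          rw [hD.symm a (i, 1) ha hiN] at h1
          linarith
      obtain ⟨D', h1, h2, h3, -⟩ := extend hD (n := N) (i0 := 0) (by simp) hN hf
      rw [hIio] at h1
      refine ⟨N + 1, D', by omega, h1, by omega, h2, ?_⟩
      intro _ _ _
      refine ⟨N, hkN, by omega, fun i hi => ?_⟩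
      have hiN : i ∈ Iio N := by simp only [mem_Iio]; omega
      rw [h3 (i, 1) hiN]
      constructor
      · have := hf1 (i, 1) i hi
        rw [hD.self (i, 1) hiN, add_zero] at this
        exact this
      · obtain ⟨j, hj, h⟩ := hf2 (i, 1)
        have hjN : j ∈ Iio N := by simp only [mem_Iio]; omega
        refine ⟨j, hj, ?_⟩
        rw [h2 (j, 1) (i, 1) hjN hiN, h]
    · obtain ⟨D', h1, h2, -, -⟩ := extend hD (n := N) (i0 := 0) (by simp) hN
        (Kat.of_st hD (0, 1) hN)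
      rw [hIio] at h1
      refine ⟨N + 1, D', by omega, h1, by omega, h2, ?_⟩
      intro c1 c2 c3
      refine absurd ⟨c1, c2, fun i j hi hj => ?_⟩ hc
      rw [← h2 (i, 1) (j, 1) (by simp only [mem_Iio]; omega) (by simp only [mem_Iio]; omega)]
      exact c3 i j hi hj)
  refine ⟨fun i j => E (i, 1) (j, 1), fun i => hE.self _ trivial,
    fun i j => hE.symm _ _ trivial trivial, fun i j k => hE.tri _ _ _ trivial trivial trivial, ?_⟩
  intro M r hM h1 h2 ε hε N
  have hq : ∀ i, ∃ q : ℚ, r i < q ∧ (q : ℝ) < r i + ε := fun i =>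
    exists_rat_btwn (by linarith)
  choose q hq using hq
  let l : List ℚ := (List.range M).map q
  have hl : l.length = M := by simp [l]
  have hlq : ∀ i, i < M → l.getD i 0 = q i := by
    intro i hi
    simp [l, List.getD_eq_getElem?_getD, hi]
  obtain ⟨c, hc⟩ := he0 l
  let k := Nat.pair c (M + N)
  have hek : e k = l := by simp [e, k, hc]
  have hkge : M + N ≤ k := Nat.right_le_pair _ _
  obtain ⟨N', D, hkN, -, hR, hag⟩ := hk k
  have hR' := hR
  simp only [Req, hek, hl] at hR'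
  obtain ⟨n, hn1, hn2, hn3⟩ := hR' hM (by omega) (by
    intro i j hi hj
    rw [← hag (i, 1) (j, 1) (by show i < N'; omega) (by show j < N'; omega), hlq i hi, hlq j hj]
    have := h2 i j hi hj
    have := (hq i).1
    have := (hq j).1
    linarith)
  refine ⟨n, by omega, fun i hi => ?_⟩
  obtain ⟨a1, j, hj, a2⟩ := hn3 i hi
  rw [← hag (n, 1) (i, 1) hn2 (by show i < N'; omega)] at a1 a2
  rw [← hag (j, 1) (i, 1) (by show j < N'; omega) (by show i < N'; omega)] at a2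
  rw [hlq i hi] at a1
  rw [hlq j hj] at a2
  have b1 := h1 i j hi hj
  have b2 := hE.symm (i, 1) (j, 1) trivial trivial
  have b3 := (hq i).2
  have b4 := (hq j).1
  rw [abs_le]
  constructor <;> linarith

end Pool.Agent.H289Z.MU
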