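import Pool.Agent.H289Z.MU1

set_option autoImplicit false

namespace Pool.Agent.H289Z.MU

open Set Filter Topology

universe u

variable {H : Type u} [Group H]

/-- stage whose base points realise `d` and move at speed at most `Λ` -/
structure Good (d : ℕ → ℕ → ℝ) (ν : H → ℝ) (Λ : ℝ) (I : Set ℕ) (D : ℕ × H → ℕ × H → ℝ) :
    Prop where
  st : IsSt I D
  exact : ∀ i j, i ∈ I → j ∈ I → D (i, 1) (j, 1) = d i j
  speed : ∀ i g, i ∈ I → D (i, 1) (i, g) ≤ Λ * ν g

/-- adding one point through a Katetov function -/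
theorem add_point {d : ℕ → ℕ → ℝ} (hd0 : ∀ i, d i i = 0) (hds : ∀ i j, d i j = d j i)
    {ν : H → ℝ} (hνi : ∀ g, ν g⁻¹ = ν g) {Λ : ℝ} {I : Set ℕ} {D : ℕ × H → ℕ × H → ℝ}
    (h : Good d ν Λ I D) {n i0 : ℕ} (hn : n ∉ I) (hi0 : i0 ∈ I) {f : ℕ × H → ℝ}
    (hf : Kat I D f) (hfe : ∀ i, i ∈ I → f (i, 1) = d n i)
    (hfl : ∀ (g : H) (z : ℕ × H), z.1 ∈ I → f (z.1, g * z.2) ≤ f z + Λ * ν g) :
    ∃ D' : ℕ × H → ℕ × H → ℝ, Good d ν Λ (insert n I) D' ∧
      (∀ a b : ℕ × H, a.1 ∈ I → b.1 ∈ I → D' a b = D a b) ∧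
      (∀ b : ℕ × H, b.1 ∈ I → D' (n, 1) b = f b) := by
  obtain ⟨D', h1, h2, h3, h4⟩ := extend h.st hn hi0 hf
  refine ⟨D', ⟨h1, ?_, ?_⟩, h2, h3⟩
  · intro i j hi hj
    rcases hi with rfl | hi
    · rcases hj with rfl | hj
      · rw [h1.self _ (Or.inl rfl), hd0]
      · rw [h3 (j, 1) hj, hfe j hj]
    · rcases hj with rfl | hj
      · rw [h1.symm _ _ (Or.inr hi) (Or.inl rfl), h3 (i, 1) hi, hfe i hi, hds]
      · rw [h2 (i, 1) (j, 1) hi hj, h.exact i j hi hj]
  · intro i g hi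
    rcases hi with rfl | hi
    · refine h4 g _ fun z hz => ?_
      have a1 := hfl g⁻¹ z hz
      have a2 := hfl g (z.1, g⁻¹ * z.2) hz
      simp only [mul_inv_cancel_left] at a2
      rw [hνi] at a1
      rw [abs_le]
      constructor <;> linarith
    · rw [h2 (i, 1) (i, g) hi hi]
      exact h.speed i g hi

/-- the free extension function -/
theorem exists_forth {d : ℕ → ℕ → ℝ} (hd0 : ∀ i, d i i = 0) (hds : ∀ i j, d i j = d j i)
    (hdt : ∀ i j k, d i k ≤ d i j + d j k)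
    {ν : H → ℝ} {Λ : ℝ} {I : Finset ℕ} {D : ℕ × H → ℕ × H → ℝ}
    (h : Good d ν Λ I D) (hI : I.Nonempty) (n : ℕ) :
    ∃ f : ℕ × H → ℝ, Kat I D f ∧ (∀ i, i ∈ I → f (i, 1) = d n i) ∧
      (∀ (g : H) (z : ℕ × H), z.1 ∈ I → f (z.1, g * z.2) ≤ f z + Λ * ν g) ∧
      ∀ z, ∃ i ∈ I, f z = d n i + D (i, 1) z := by
  let f : ℕ × H → ℝ := fun z => I.inf' hI (fun i => d n i + D (i, 1) z)
  have hf1 : ∀ z i, i ∈ I → f z ≤ d n i + D (i, 1) z := fun z i hi => Finset.inf'_le _ hi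
  have hf2 : ∀ z, ∃ i ∈ I, f z = d n i + D (i, 1) z := fun z =>
    Finset.exists_mem_eq_inf' hI (fun i => d n i + D (i, 1) z)
  refine ⟨f, ⟨fun a b ha hb => ?_, fun a b ha hb => ?_⟩, fun i hi => ?_, fun g z hz => ?_, hf2⟩
  · obtain ⟨j, hj, e⟩ := hf2 b
    have h1 := hf1 a j hj
    have h2 := h.st.tri (j, 1) b a hj hb ha
    rw [h.st.symm b a hb ha] at h2
    linarith
  · obtain ⟨j, hj, e⟩ := hf2 b
    obtain ⟨i, hi, e'⟩ := hf2 a
    have h1 := h.st.tri a (i, 1) b ha hi hb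
    have h2 := h.st.tri (i, 1) (j, 1) b hi hj hb
    have h3 := hdt i n j
    rw [h.st.symm a (i, 1) ha hi] at h1
    rw [h.exact i j hi hj] at h2
    rw [hds i n] at h3
    linarith
  · apply le_antisymm
    · have := hf1 (i, 1) i hi
      rw [h.exact i i hi hi, hd0, add_zero] at this
      exact this
    · obtain ⟨j, hj, e⟩ := hf2 (i, 1)
      rw [e, h.exact j i hj hi]
      exact hdt n j i
  · obtain ⟨j, hj, e⟩ := hf2 z
    have h1 := hf1 (z.1, g * z.2) j hj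
    have h2 := h.st.tri (j, 1) (j, g) (z.1, g * z.2) hj hj hz
    have h3 := h.st.inv g (j, 1) z hj hz
    have h4 := h.speed j g hj
    simp only [mul_one] at h3
    linarith

/-- filling in finitely many further points -/
theorem fill {d : ℕ → ℕ → ℝ} (hd0 : ∀ i, d i i = 0) (hds : ∀ i j, d i j = d j i)
    (hdt : ∀ i j k, d i k ≤ d i j + d j k)
    {ν : H → ℝ} (hνi : ∀ g, ν g⁻¹ = ν g) {Λ : ℝ} {I : Finset ℕ} {D : ℕ × H → ℕ × H → ℝ}
    (h : Good d ν Λ I D) (hI : I.Nonempty) (J : Finset ℕ) :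
    ∃ D' : ℕ × H → ℕ × H → ℝ, Good d ν Λ (↑(I ∪ J)) D' ∧
      (∀ a b : ℕ × H, a.1 ∈ I → b.1 ∈ I → D' a b = D a b) := by
  classical
  induction J using Finset.induction_on with
  | empty => exact ⟨D, by simpa using h, fun _ _ _ _ => rfl⟩
  | insert n J _ ih =>
    obtain ⟨D1, h1, h2⟩ := ih
    by_cases hn : n ∈ I ∪ J
    · have : I ∪ insert n J = I ∪ J := by
        rw [Finset.union_insert, Finset.insert_eq_of_mem hn]
      rw [this]
      exact ⟨D1, h1, h2⟩
    · obtain ⟨i0, hi0⟩ := hI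
      have hi0' : i0 ∈ I ∪ J := Finset.mem_union_left _ hi0
      obtain ⟨f, f1, f2, f3, -⟩ := exists_forth hd0 hds hdt h1 ⟨i0, hi0'⟩ n
      obtain ⟨D2, g1, g2, -⟩ := add_point hd0 hds hνi h1 (n := n) (i0 := i0)
        (by exact_mod_cast hn) (by exact_mod_cast hi0') f1 f2 f3
      refine ⟨D2, ?_, fun a b ha hb => ?_⟩
      · rw [Finset.union_insert, Finset.coe_insert]
        exact g1
      · rw [g2 a b (by exact_mod_cast Finset.mem_union_left _ ha)
          (by exact_mod_cast Finset.mem_union_left _ hb), h2 a b ha hb]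

/-- the smoothing function near a given point -/
theorem exists_smooth {ν : H → ℝ} (hν1 : ν 1 = 0) (hν0 : ∀ g, 0 ≤ ν g)
    (hνm : ∀ g h, ν (g * h) ≤ ν g + ν h) {I : Set ℕ} {D : ℕ × H → ℕ × H → ℝ}
    (h : IsSt I D) (y : ℕ × H) (hy : y.1 ∈ I) {ε L : ℝ} (hε : 0 ≤ ε) (hL : 0 ≤ L)
    (hmove : ∀ g, D (y.1, g * y.2) y ≤ ε + L * ν g) :
    ∃ f : ℕ × H → ℝ, Kat I D f ∧ f y ≤ ε ∧
      (∀ (g : H) (z : ℕ × H), z.1 ∈ I → f (z.1, g * z.2) ≤ f z + L * ν g) := by
  let f : ℕ × H → ℝ := fun z => ⨅ g : H, (ε + L * ν g + D (y.1, g * y.2) z)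
  have hf1 : ∀ z : ℕ × H, z.1 ∈ I → ∀ g, f z ≤ ε + L * ν g + D (y.1, g * y.2) z := by
    intro z hz g
    refine ciInf_le ⟨0, ?_⟩ g
    rintro _ ⟨g, rfl⟩
    have := h.nonneg (y.1, g * y.2) z hy hz
    have := mul_nonneg hL (hν0 g)
    show 0 ≤ ε + L * ν g + D (y.1, g * y.2) z
    linarith
  have hf2 : ∀ (z : ℕ × H) (c : ℝ), (∀ g, c ≤ ε + L * ν g + D (y.1, g * y.2) z) → c ≤ f z :=
    fun z c hc => le_ciInf hc
  refine ⟨f, ⟨fun a b ha hb => ?_, fun a b ha hb => ?_⟩, ?_, fun g z hz => ?_⟩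
  · have : f a - D a b ≤ f b := hf2 b _ fun g => by
      have h1 := hf1 a ha g
      have h2 := h.tri (y.1, g * y.2) b a hy hb ha
      rw [h.symm b a hb ha] at h2
      linarith
    linarith
  · have : D a b - f b ≤ f a := hf2 a _ fun g => by
      have : D a b - (ε + L * ν g + D (y.1, g * y.2) a) ≤ f b := hf2 b _ fun g' => by
        have h1 := h.tri a (y.1, g * y.2) b ha hy hb
        have h2 := h.tri (y.1, g * y.2) y b hy hy hb
        have h3 := h.tri y (y.1, g' * y.2) b hy hy hb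
        have h4 := hmove g
        have h5 := hmove g'
        rw [h.symm a (y.1, g * y.2) ha hy] at h1
        rw [h.symm y (y.1, g' * y.2) hy hy] at h3
        linarith
      linarith
    linarith
  · have := hf1 y hy 1
    rw [hν1, mul_zero, add_zero, one_mul, h.self y hy, add_zero] at this
    exact this
  · have : f (z.1, g * z.2) - L * ν g ≤ f z := hf2 z _ fun g' => by
      have h1 := hf1 (z.1, g * z.2) hz (g * g')
      have h2 := h.inv g (y.1, g' * y.2) z hy hz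
      have h3 := mul_le_mul_of_nonneg_left (hνm g g') hL
      simp only [← mul_assoc] at h2
      rw [h2] at h1
      linarith
    linarith

theorem exists_action {d : ℕ → ℕ → ℝ} (hd0 : ∀ i, d i i = 0) (hds : ∀ i j, d i j = d j i)
    (hdt : ∀ i j k, d i k ≤ d i j + d j k)
    (hext : ∀ (M : ℕ) (r : ℕ → ℝ), 0 < M → (∀ i j, i < M → j < M → r i ≤ r j + d i j) →
      (∀ i j, i < M → j < M → d i j ≤ r i + r j) → ∀ ε : ℝ, 0 < ε → ∀ N : ℕ,
      ∃ n, N ≤ n ∧ ∀ i, i < M → |d n i - r i| ≤ ε)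
    {L : ℕ → ℝ} (hLm : Monotone L) (hL0 : L 0 = 1) (hLn : ∀ n : ℕ, (n : ℝ) ≤ L n)
    {ν : H → ℝ} (hν1 : ν 1 = 0) (hνi : ∀ g, ν g⁻¹ = ν g)
    (hνm : ∀ g h, ν (g * h) ≤ ν g + ν h)
    (hνc : ∀ (h : H) (ε : ℝ), 0 < ε → ∃ δ : ℝ, 0 < δ ∧ ∀ g, ν g < δ → ν (h⁻¹ * g * h) ≤ ε)
    (s : ℕ → H) (hs : ∀ (h : H) (ε : ℝ), 0 < ε → ∃ m, ν ((s m)⁻¹ * h) < ε) :
    ∃ E : ℕ × H → ℕ × H → ℝ, IsSt univ E ∧ (∀ i j, E (i, 1) (j, 1) = d i j) ∧
      (∀ i g, E (i, 1) (i, g) ≤ L i * ν g) ∧ (∀ g, E (0, 1) (0, g) = ν g) ∧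
      ∀ (a : ℕ × H) (ε : ℝ), 0 < ε → ∃ n, E (n, 1) a < ε := by
  classical
  have hν0 : ∀ g, 0 ≤ ν g := by
    intro g
    have := hνm g g⁻¹
    rw [mul_inv_cancel, hν1, hνi] at this
    linarith
  have hL1 : ∀ n, 1 ≤ L n := fun n => hL0 ▸ hLm (Nat.zero_le n)
  obtain ⟨e0, he0⟩ := exists_surjective_nat (ℕ × ℕ × ℕ)
  let e : ℕ → ℕ × ℕ × ℕ := fun k => e0 k.unpair.1
  let Inv : ℕ → (ℕ × H → ℕ × H → ℝ) → Prop := fun N D => 0 < N ∧
    (∀ i j, i < N → j < N → D (i, 1) (j, 1) = d i j) ∧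
    (∀ i g, i < N → D (i, 1) (i, g) ≤ L i * ν g) ∧ ∀ g, D (0, 1) (0, g) = ν g
  let Req : ℕ → ℕ → (ℕ × H → ℕ × H → ℝ) → Prop := fun k N D => (e k).1 < k →
    ∃ n, n < N ∧ D (n, 1) ((e k).1, s (e k).2.1) ≤ 2 * (1 / (((e k).2.2 : ℝ) + 1))
  have hgood : ∀ N D, IsSt (Iio N) D → Inv N D → Good d ν (L N) (↑(Finset.range N)) D := by
    intro N D h1 h2
    rw [Finset.coe_range]
    refine ⟨h1, h2.2.1, fun i g hi => (h2.2.2.1 i g hi).trans ?_⟩
    exact mul_le_mul_of_nonneg_right (hLm (le_of_lt hi)) (hν0 g)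
  have hinv : ∀ N D N' D', N ≤ N' → Inv N D → Good d ν (L N) (Iio N') D' →
      (∀ a b : ℕ × H, a.1 < N → b.1 < N → D' a b = D a b) → Inv N' D' := by
    intro N D N' D' hN h1 h2 h3
    refine ⟨h1.1.trans_le hN, h2.exact, fun i g hi => ?_, fun g => ?_⟩
    · by_cases hiN : i < N
      · rw [h3 (i, 1) (i, g) hiN hiN]
        exact h1.2.2.1 i g hiN
      · refine (h2.speed i g hi).trans ?_
        exact mul_le_mul_of_nonneg_right (hLm (not_lt.1 hiN)) (hν0 g)
    · rw [h3 (0, 1) (0, g) h1.1 h1.1]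
      exact h1.2.2.2 g
  have grow : ∀ N D N', N ≤ N' → IsSt (Iio N) D → Inv N D →
      ∃ D', IsSt (Iio N') D' ∧ Inv N' D' ∧
        (∀ a b : ℕ × H, a.1 < N → b.1 < N → D' a b = D a b) := by
    intro N D N' hN h1 h2
    obtain ⟨D', g1, g2⟩ := fill hd0 hds hdt hνi (hgood N D h1 h2)
      ⟨0, Finset.mem_range.2 h2.1⟩ (Finset.range N')
    rw [Finset.union_eq_right.2 (Finset.range_subset_range.2 hN), Finset.coe_range] at g1
    have g3 : ∀ a b : ℕ × H, a.1 < N → b.1 < N → D' a b = D a b := fun a b ha hb =>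
      g2 a b (Finset.mem_range.2 ha) (Finset.mem_range.2 hb)
    exact ⟨D', g1.st, hinv N D N' D' hN h2 g1 g3, g3⟩
  obtain ⟨E, hE, hk⟩ := limit (H := H) Inv Req 1 (fun a b => ν (a.2⁻¹ * b.2))
    ⟨fun a _ => by simp [hν1], fun a b _ _ => by rw [← hνi]; simp,
      fun a b c _ _ _ => by
        have := hνm (a.2⁻¹ * b.2) (b.2⁻¹ * c.2)
        simpa [mul_assoc] using this,
      fun g a b _ _ => by simp [mul_assoc]⟩
    ⟨Nat.one_pos, fun i j hi hj => by
        obtain rfl : i = 0 := by omega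
        obtain rfl : j = 0 := by omega
        simp [hν1, hd0],
      fun i g hi => by
        obtain rfl : i = 0 := by omega
        simp [hL0], fun g => by simp⟩ (by
    intro k N D hkN hD hI
    by_cases hc : (e k).1 < k
    swap
    · obtain ⟨D', g1, g2, g3⟩ := grow N D (N + 1) (by omega) hD hI
      exact ⟨N + 1, D', by omega, g1, g2, g3, fun h => absurd h hc⟩
    set j := (e k).1 with hj
    set h0 := s (e k).2.1 with hh0
    set ε : ℝ := 1 / (((e k).2.2 : ℝ) + 1) with hε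
    have hεp : 0 < ε := by rw [hε]; positivity
    have hjN : j < N := by omega
    have hLj := hL1 j
    obtain ⟨δ, hδ, hδ2⟩ := hνc h0 (ε / L j) (by positivity)
    set L' : ℝ := L j * (1 + 2 * ν h0 / δ) with hL'
    have hL'0 : 0 ≤ L' := by
      have := hν0 h0
      rw [hL']; positivity
    have hmove : ∀ g, D (j, g * h0) (j, h0) ≤ ε + L' * ν g := by
      intro g
      have h1 := hD.inv h0 (j, h0⁻¹ * g * h0) (j, 1) hjN hjN
      simp only [mul_one] at h1
      have h2 : h0 * (h0⁻¹ * g * h0) = g * h0 := by group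
      rw [h2] at h1
      rw [h1, hD.symm (j, h0⁻¹ * g * h0) (j, 1) hjN hjN]
      refine (hI.2.2.1 j _ hjN).trans ?_
      have h3 := mul_nonneg hL'0 (hν0 g)
      by_cases hg : ν g < δ
      · have h4 := mul_le_mul_of_nonneg_left (hδ2 g hg) (by linarith : 0 ≤ L j)
        have h5 : L j * (ε / L j) = ε := by field_simp
        linarith
      · have hg' : δ ≤ ν g := not_lt.1 hg
        have h4 := hνm (h0⁻¹ * g) h0
        have h5 := hνm h0⁻¹ g
        rw [hνi] at h5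
        have h6 : 2 * ν h0 ≤ 2 * ν h0 / δ * ν g := by
          have h7 : 2 * ν h0 = 2 * ν h0 / δ * δ := by field_simp
          have h8 : 0 ≤ 2 * ν h0 / δ := by have := hν0 h0; positivity
          calc 2 * ν h0 = 2 * ν h0 / δ * δ := h7
            _ ≤ _ := mul_le_mul_of_nonneg_left hg' h8
        have h7 : ν (h0⁻¹ * g * h0) ≤ (1 + 2 * ν h0 / δ) * ν g := by linarith
        have h8 := mul_le_mul_of_nonneg_left h7 (by linarith : 0 ≤ L j)
        rw [hL']
        linarith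
    obtain ⟨N2, hN2⟩ := exists_nat_ge L'
    set N1 := max N N2 with hN1
    have hNN1 : N ≤ N1 := le_max_left _ _
    have hLN1 : L' ≤ L N1 := hN2.trans ((hLn N2).trans (hLm (le_max_right _ _)))
    obtain ⟨D1, a1, a2, a3⟩ := grow N D N1 hNN1 hD hI
    have hjN1 : j < N1 := by omega
    obtain ⟨f0, b1, b2, b3⟩ := exists_smooth hν1 hν0 hνm a1 (j, h0) hjN1 hεp.le hL'0
      (fun g => by rw [a3 (j, g * h0) (j, h0) hjN hjN]; exact hmove g)
    obtain ⟨n, hn1, hn2⟩ := hext N1 (fun i => f0 (i, 1)) a2.1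
      (fun i i' hi hi' => by
        rw [← a2.2.1 i i' hi hi']; exact b1.lip (i, 1) (i', 1) hi hi')
      (fun i i' hi hi' => by
        rw [← a2.2.1 i i' hi hi']; exact b1.low (i, 1) (i', 1) hi hi') ε hεp N1
    have hG := hgood N1 D1 a1 a2
    obtain ⟨f1, c1, c2, c3, c4⟩ := exists_forth hd0 hds hdt hG ⟨0, Finset.mem_range.2 a2.1⟩ n
    rw [Finset.coe_range] at c1
    simp only [Finset.mem_range] at c2 c3 c4
    let f : ℕ × H → ℝ := fun z => min (f0 z + ε) (f1 z)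
    have mixed : ∀ a b : ℕ × H, a.1 < N1 → b.1 < N1 → D1 a b ≤ f0 a + ε + f1 b := by
      intro a b ha hb
      obtain ⟨i, hi, ei⟩ := c4 b
      have t1 := b1.low a (i, 1) ha hi
      have t2 := a1.tri a (i, 1) b ha hi hb
      have t3 := (abs_le.1 (hn2 i hi)).1
      linarith
    have hf : Kat (Iio N1) D1 f := by
      refine ⟨fun a b ha hb => ?_, fun a b ha hb => ?_⟩
      · have t1 := b1.lip a b ha hb
        have t2 := c1.lip a b ha hb
        have t3 := min_le_left (f0 a + ε) (f1 a)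
        have t4 := min_le_right (f0 a + ε) (f1 a)
        show min _ _ ≤ min _ _ + _
        rcases min_choice (f0 b + ε) (f1 b) with h | h <;> rw [h] <;> linarith
      · have t1 := b1.low a b ha hb
        have t2 := c1.low a b ha hb
        have t3 := mixed a b ha hb
        have t4 := mixed b a hb ha
        rw [a1.symm b a hb ha] at t4
        show _ ≤ min _ _ + min _ _
        rcases min_choice (f0 b + ε) (f1 b) with h | h <;>
          rcases min_choice (f0 a + ε) (f1 a) with h' | h' <;> rw [h, h'] <;> linarith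
    have hG' := hG
    rw [Finset.coe_range] at hG'
    obtain ⟨D2, g1, g2, g3⟩ := add_point hd0 hds hνi hG' (n := n) (i0 := 0)
      (by simp only [mem_Iio]; omega) a2.1 hf
      (fun i hi => by
        show min _ _ = _
        rw [c2 i hi]
        have t3 := (abs_le.1 (hn2 i hi)).2
        exact min_eq_right (by linarith))
      (fun g z hz => by
        have t1 := b3 g z hz
        have t2 := c3 g z hz
        have t3 := min_le_left (f0 (z.1, g * z.2) + ε) (f1 (z.1, g * z.2))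
        have t4 := min_le_right (f0 (z.1, g * z.2) + ε) (f1 (z.1, g * z.2))
        have t5 := mul_le_mul_of_nonneg_right hLN1 (hν0 g)
        show min _ _ ≤ min _ _ + _
        rcases min_choice (f0 z + ε) (f1 z) with h | h <;> rw [h] <;> linarith)
    have g1' : Good d ν (L N1) (↑(insert n (Finset.range N1))) D2 := by
      rw [Finset.coe_insert, Finset.coe_range]; exact g1
    obtain ⟨D3, k1, k2⟩ := fill hd0 hds hdt hνi g1' ⟨n, Finset.mem_insert_self _ _⟩
      (Finset.range (n + 1))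
    have hsub : insert n (Finset.range N1) ⊆ Finset.range (n + 1) := by
      intro i hi
      rw [Finset.mem_insert, Finset.mem_range] at hi
      rw [Finset.mem_range]
      omega
    rw [Finset.union_eq_right.2 hsub, Finset.coe_range] at k1
    have k3 : ∀ a b : ℕ × H, a.1 < N1 → b.1 < N1 → D3 a b = D1 a b := by
      intro a b ha hb
      rw [k2 a b (Finset.mem_insert_of_mem (Finset.mem_range.2 ha))
        (Finset.mem_insert_of_mem (Finset.mem_range.2 hb)), g2 a b ha hb]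
    refine ⟨n + 1, D3, by omega, k1.st, hinv N1 D1 (n + 1) D3 (by omega) a2 k1 k3,
      fun a b ha hb => ?_, fun _ => ⟨n, by omega, ?_⟩⟩
    · rw [k3 a b (by omega) (by omega), a3 a b ha hb]
    · rw [k2 (n, 1) (j, h0) (Finset.mem_insert_self _ _)
        (Finset.mem_insert_of_mem (Finset.mem_range.2 hjN1)), g3 (j, h0) hjN1]
      have := min_le_left (f0 (j, h0) + ε) (f1 (j, h0))
      show min _ _ ≤ _
      linarith)
  have hsp : ∀ i g, E (i, 1) (i, g) ≤ L i * ν g := by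
    intro i g
    obtain ⟨N, D, h1, h2, -, h3⟩ := hk i
    rw [h3 (i, 1) (i, g) h1 h1]
    exact h2.2.2.1 i g h1
  refine ⟨E, hE, fun i j => ?_, hsp, fun g => ?_, fun a ε hε => ?_⟩
  · obtain ⟨N, D, h1, h2, -, h3⟩ := hk (i + j)
    rw [h3 (i, 1) (j, 1) (by show i < N; omega) (by show j < N; omega)]
    exact h2.2.1 i j (by omega) (by omega)
  · obtain ⟨N, D, h1, h2, -, h3⟩ := hk 0
    rw [h3 (0, 1) (0, g) h1 h1]
    exact h2.2.2.2 g
  · have hLa := hL1 a.1
    obtain ⟨m, hm⟩ := hs a.2 (ε / 2 / L a.1) (by positivity)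
    obtain ⟨t, ht⟩ := exists_nat_one_div_lt (show 0 < ε / 4 by positivity)
    obtain ⟨c, hc⟩ := he0 (a.1, m, t)
    have hek : e (Nat.pair c (a.1 + 1)) = (a.1, m, t) := by simp [e, hc]
    have hkge : a.1 + 1 ≤ Nat.pair c (a.1 + 1) := Nat.right_le_pair _ _
    obtain ⟨N, D, h1, -, h2, h3⟩ := hk (Nat.pair c (a.1 + 1))
    simp only [Req, hek] at h2
    obtain ⟨n, hn1, hn2⟩ := h2 (by omega)
    refine ⟨n, ?_⟩
    rw [← h3 (n, 1) (a.1, s m) hn1 (by show a.1 < N; omega)] at hn2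
    have t1 := hE.tri (n, 1) (a.1, s m) a trivial trivial trivial
    have t2 := hE.inv (s m) (a.1, 1) (a.1, (s m)⁻¹ * a.2) trivial trivial
    simp only [mul_one, mul_inv_cancel_left] at t2
    have t3 := hsp a.1 ((s m)⁻¹ * a.2)
    have t4 := mul_le_mul_of_nonneg_left hm.le (by linarith : 0 ≤ L a.1)
    have t5 : L a.1 * (ε / 2 / L a.1) = ε / 2 := by field_simp
    linarith

end Pool.Agent.H289Z.MU
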