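import Pool.Agent.H289Z.MU2

set_option autoImplicit false

namespace Pool.Agent.H289Z.MU

open Set Filter Topology

universe u

section Iso

variable {X : Type} [MetricSpace X] (x : ℕ → X) (L : ℕ → ℝ)

/-- weighted supremum distance between two isometries -/
noncomputable def wd (g h : X ≃ᵢ X) : ℝ := ⨆ n, dist (g (x n)) (h (x n)) / L n

variable {x L}

theorem term_le (hL : ∀ n : ℕ, ((n : ℝ) + 1) * (1 + dist (x n) (x 0)) ≤ L n) (g h : X ≃ᵢ X)
    (n : ℕ) : dist (g (x n)) (h (x n)) / L n ≤ (dist (g (x 0)) (h (x 0)) + 2) / ((n : ℝ) + 1) := by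
  have h1 := dist_triangle4 (g (x n)) (g (x 0)) (h (x 0)) (h (x n))
  rw [g.dist_eq, h.dist_eq, dist_comm (x 0) (x n)] at h1
  have h2 := hL n
  have h3 : 0 ≤ dist (x n) (x 0) := dist_nonneg
  have h4 : 0 ≤ dist (g (x 0)) (h (x 0)) := dist_nonneg
  have h5 : (0 : ℝ) < (n : ℝ) + 1 := by positivity
  have h6 : 0 < L n := lt_of_lt_of_le (by positivity) h2
  rw [div_le_div_iff₀ h6 h5]
  calc dist (g (x n)) (h (x n)) * ((n : ℝ) + 1)
      ≤ ((dist (g (x 0)) (h (x 0)) + 2) * (1 + dist (x n) (x 0))) * ((n : ℝ) + 1) := by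
        apply mul_le_mul_of_nonneg_right _ h5.le
        nlinarith
    _ = (dist (g (x 0)) (h (x 0)) + 2) * (((n : ℝ) + 1) * (1 + dist (x n) (x 0))) := by ring
    _ ≤ _ := mul_le_mul_of_nonneg_left h2 (by linarith)

theorem L_pos (hL : ∀ n : ℕ, ((n : ℝ) + 1) * (1 + dist (x n) (x 0)) ≤ L n) (n : ℕ) : 0 < L n :=
  lt_of_lt_of_le (by have : 0 ≤ dist (x n) (x 0) := dist_nonneg; positivity) (hL n)

theorem le_wd (hL : ∀ n : ℕ, ((n : ℝ) + 1) * (1 + dist (x n) (x 0)) ≤ L n) (g h : X ≃ᵢ X)
    (n : ℕ) : dist (g (x n)) (h (x n)) / L n ≤ wd x L g h := by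
  refine le_ciSup (f := fun n => dist (g (x n)) (h (x n)) / L n)
    ⟨dist (g (x 0)) (h (x 0)) + 2, ?_⟩ n
  rintro _ ⟨n, rfl⟩
  refine (term_le hL g h n).trans ?_
  have h4 : 0 ≤ dist (g (x 0)) (h (x 0)) := dist_nonneg
  apply div_le_self (by linarith)
  have : (0 : ℝ) ≤ n := Nat.cast_nonneg n
  linarith

/-- the metric on the isometry group -/
@[reducible] noncomputable def isoMetric (hx : DenseRange x)
    (hL : ∀ n : ℕ, ((n : ℝ) + 1) * (1 + dist (x n) (x 0)) ≤ L n) : MetricSpace (X ≃ᵢ X) where
  dist := wd x L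
  dist_self g := by simp [wd]
  dist_comm g h := by simp only [wd, dist_comm]
  dist_triangle g h k := by
    refine ciSup_le fun n => ?_
    have h1 := le_wd hL g h n
    have h2 := le_wd hL h k n
    have h3 := dist_triangle (g (x n)) (h (x n)) (k (x n))
    have h4 := div_le_div_of_nonneg_right h3 (L_pos hL n).le
    rw [add_div] at h4
    linarith
  eq_of_dist_eq_zero := by
    intro g h e
    apply IsometryEquiv.ext
    have : (g : X → X) = h := by
      refine hx.equalizer g.continuous h.continuous ?_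
      funext n
      have h1 := le_wd hL g h n
      change wd x L g h = 0 at e
      rw [e, div_le_iff₀ (L_pos hL n), zero_mul] at h1
      exact dist_le_zero.1 h1
    exact fun y => congrFun this y

theorem tendsto_pt (hx : DenseRange x)
    (hL : ∀ n : ℕ, ((n : ℝ) + 1) * (1 + dist (x n) (x 0)) ≤ L n) {α : Type} {F : Filter α}
    (g : α → X ≃ᵢ X) (h : X ≃ᵢ X) (hg : Tendsto (fun a => wd x L (g a) h) F (𝓝 0)) (y : X) :
    Tendsto (fun a => g a y) F (𝓝 (h y)) := by
  rw [Metric.tendsto_nhds]
  intro ε hε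
  obtain ⟨n, hn⟩ := hx.exists_dist_lt y (show 0 < ε / 3 by positivity)
  have hp := L_pos hL n
  have := (Metric.tendsto_nhds.1 hg) (ε / 3 / L n) (by positivity)
  filter_upwards [this] with a ha
  rw [Real.dist_eq, sub_zero] at ha
  have h1 := (le_wd hL (g a) h n).trans_lt ((le_abs_self _).trans_lt ha)
  rw [div_lt_div_iff_of_pos_right hp] at h1
  have h2 := dist_triangle4 (g a y) (g a (x n)) (h (x n)) (h y)
  rw [(g a).dist_eq, h.dist_eq, dist_comm (x n) y] at h2
  linarith

theorem tendsto_wd (hL : ∀ n : ℕ, ((n : ℝ) + 1) * (1 + dist (x n) (x 0)) ≤ L n) {α : Type}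
    {F : Filter α} (g : α → X ≃ᵢ X) (h : X ≃ᵢ X)
    (hg : ∀ n, Tendsto (fun a => g a (x n)) F (𝓝 (h (x n)))) :
    Tendsto (fun a => wd x L (g a) h) F (𝓝 0) := by
  rw [Metric.tendsto_nhds]
  intro ε hε
  obtain ⟨n0, hn0⟩ := exists_nat_ge (3 / (ε / 2))
  have h1 : ∀ᶠ a in F, ∀ n ∈ Finset.range (n0 + 1),
      dist (g a (x n)) (h (x n)) < min 1 (ε / 2 * L n) := by
    rw [Filter.eventually_all_finset]
    intro n _
    have := L_pos hL n
    exact Metric.tendsto_nhds.1 (hg n) _ (lt_min one_pos (by positivity))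
  filter_upwards [h1] with a ha
  have h0 : 0 ≤ wd x L (g a) h :=
    le_trans (div_nonneg dist_nonneg (L_pos hL 0).le) (le_wd hL (g a) h 0)
  rw [Real.dist_eq, sub_zero, abs_of_nonneg h0]
  have : wd x L (g a) h ≤ ε / 2 := by
    refine ciSup_le fun n => ?_
    by_cases hn : n < n0 + 1
    · have := (ha n (Finset.mem_range.2 hn)).trans_le (min_le_right _ _)
      rw [div_le_iff₀ (L_pos hL n)]
      exact this.le
    · refine (term_le hL (g a) h n).trans ?_
      have h2 := (ha 0 (Finset.mem_range.2 (by omega))).trans_le (min_le_left _ _)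
      have h3 : (n0 : ℝ) ≤ (n : ℝ) + 1 := by exact_mod_cast (by omega : n0 ≤ n + 1)
      rw [div_le_iff₀ (by positivity)]
      rw [div_le_iff₀ (by positivity)] at hn0
      nlinarith
  linarith

theorem iso_props [SecondCountableTopology X] (hx : DenseRange x)
    (hL : ∀ n : ℕ, ((n : ℝ) + 1) * (1 + dist (x n) (x 0)) ≤ L n) :
    letI := isoMetric hx hL
    IsTopologicalGroup (X ≃ᵢ X) ∧ TopologicalSpace.SeparableSpace (X ≃ᵢ X) ∧
      ∀ g a b : X ≃ᵢ X, dist (g * a) (g * b) = dist a b := by
  letI := isoMetric hx hL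
  have T1 : ∀ {α : Type} {F : Filter α} (g : α → X ≃ᵢ X) (h : X ≃ᵢ X), Tendsto g F (𝓝 h) →
      ∀ y, Tendsto (fun a => g a y) F (𝓝 (h y)) := fun g h hg y =>
    tendsto_pt hx hL g h (tendsto_iff_dist_tendsto_zero.1 hg) y
  have T2 : ∀ {α : Type} {F : Filter α} (g : α → X ≃ᵢ X) (h : X ≃ᵢ X),
      (∀ n, Tendsto (fun a => g a (x n)) F (𝓝 (h (x n)))) → Tendsto g F (𝓝 h) := fun g h hg =>
    tendsto_iff_dist_tendsto_zero.2 (tendsto_wd hL g h hg)
  refine ⟨?_, ?_, ?_⟩
  · refine { continuous_mul := ?_, continuous_inv := ?_ }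
    · rw [continuous_iff_continuousAt]
      rintro ⟨g, h⟩
      refine T2 _ _ fun n => ?_
      have h1 := T1 (F := 𝓝 (g, h)) Prod.fst g continuous_fst.continuousAt (h (x n))
      have h2 := T1 (F := 𝓝 (g, h)) Prod.snd h continuous_snd.continuousAt (x n)
      rw [tendsto_iff_dist_tendsto_zero] at h1 h2 ⊢
      have h3 := h2.add h1
      rw [add_zero] at h3
      refine squeeze_zero (fun _ => dist_nonneg) (fun a => ?_) h3
      have := dist_triangle (a.1 (a.2 (x n))) (a.1 (h (x n))) (g (h (x n)))
      rw [a.1.dist_eq] at this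
      exact this
    · rw [continuous_iff_continuousAt]
      intro g
      refine T2 _ _ fun n => ?_
      have h1 := T1 (F := 𝓝 g) id g tendsto_id (g.symm (x n))
      rw [tendsto_iff_dist_tendsto_zero] at h1 ⊢
      refine h1.congr fun a => ?_
      show dist (a (g.symm (x n))) (g (g.symm (x n))) = dist (a.symm (x n)) (g.symm (x n))
      rw [← a.dist_eq (a.symm (x n)), a.apply_symm_apply, g.apply_symm_apply, dist_comm]
  · have : IsInducing (fun (g : X ≃ᵢ X) (n : ℕ) => g (x n)) := by
      rw [isInducing_iff_nhds]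
      intro g
      apply le_antisymm
      · rw [← tendsto_iff_comap, tendsto_pi_nhds]
        exact fun n => T1 id g tendsto_id (x n)
      · rw [← tendsto_id']
        refine T2 id g fun n => ?_
        have h9 : Tendsto (fun (g : X ≃ᵢ X) (n : ℕ) => g (x n))
            (comap (fun (g : X ≃ᵢ X) (n : ℕ) => g (x n)) (𝓝 fun n => g (x n)))
            (𝓝 fun n => g (x n)) := tendsto_comap
        exact (tendsto_pi_nhds.1 h9) n
    have := this.secondCountableTopology
    infer_instance
  · intro g a b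
    show wd x L (g * a) (g * b) = wd x L a b
    simp only [wd, IsometryEquiv.mul_apply, g.dist_eq]

end Iso

/-- type synonym -/
def Syn (α : Type u) : Type u := α

/-- pseudo-metric given by a function -/
@[reducible] def mkPM {α : Type u} (d : α → α → ℝ) (h0 : ∀ a, d a a = 0)
    (h1 : ∀ a b, d a b = d b a) (h2 : ∀ a b c, d a c ≤ d a b + d b c) :
    PseudoMetricSpace (Syn α) where
  dist := d
  dist_self := h0
  dist_comm := h1
  dist_triangle := h2

open UniformSpace in
/-- an isometric action on a pseudo-metric space with a dense isometric copy of `A` gives an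
action on the completion of `A` -/
theorem transfer {A : Type} {Y H : Type u} [PseudoMetricSpace A] [PseudoMetricSpace Y] [Group H]
    (ι : A → Y) (hι : Isometry ι) (hd : DenseRange ι) (act : H → Y → Y)
    (h1 : ∀ y, act 1 y = y) (hm : ∀ g h y, act (g * h) y = act g (act h y))
    (hi : ∀ g, Isometry (act g)) :
    ∃ φ : H →* (Completion A ≃ᵢ Completion A), ∀ (g h : H) (a : A),
      dist (φ g (a : Completion A)) (φ h (a : Completion A)) = dist (act g (ι a)) (act h (ι a)) := by
  have e1 : Isometry (Completion.map ι) := hι.completion_map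
  have e2 : Function.Surjective (Completion.map ι) := by
    rw [← range_eq_univ]
    have hc : IsClosed (range (Completion.map ι)) := e1.isClosedEmbedding.isClosed_range
    have hdd : DenseRange (((↑) : Y → Completion Y) ∘ ι) :=
      Completion.denseRange_coe.comp hd (Completion.continuous_coe Y)
    have hs : range (((↑) : Y → Completion Y) ∘ ι) ⊆ range (Completion.map ι) := by
      rintro _ ⟨a, rfl⟩
      exact ⟨a, Completion.map_coe hι.uniformContinuous a⟩
    rw [← hc.closure_eq]
    exact (hdd.mono hs).closure_eq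
  let E : Completion A ≃ᵢ Completion Y :=
    ⟨Equiv.ofBijective _ ⟨e1.injective, e2⟩, e1⟩
  have hE : ∀ a : A, E (a : Completion A) = (ι a : Completion Y) := fun a =>
    Completion.map_coe hι.uniformContinuous a
  let B : H → Completion Y → Completion Y := fun g => Completion.map (act g)
  have hB : ∀ g, Isometry (B g) := fun g => (hi g).completion_map
  have hBc : ∀ g (y : Y), B g (y : Completion Y) = (act g y : Completion Y) := fun g y =>
    Completion.map_coe (hi g).uniformContinuous y
  have hB1 : ∀ z, B 1 z = z := by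
    intro z
    refine Completion.induction_on z (isClosed_eq (hB 1).continuous continuous_id) fun y => ?_
    rw [hBc, h1]
  have hBm : ∀ g h z, B (g * h) z = B g (B h z) := by
    intro g h z
    refine Completion.induction_on z
      (isClosed_eq (hB _).continuous ((hB g).continuous.comp (hB h).continuous)) fun y => ?_
    rw [hBc, hBc, hBc, hm]
  let C : H → Completion Y ≃ᵢ Completion Y := fun g =>
    { toFun := B g
      invFun := B g⁻¹
      left_inv := fun z => by rw [← hBm, inv_mul_cancel, hB1]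
      right_inv := fun z => by rw [← hBm, mul_inv_cancel, hB1]
      isometry_toFun := hB g }
  have hC : ∀ g z, C g z = B g z := fun _ _ => rfl
  refine ⟨MonoidHom.mk' (fun g => (E.trans (C g)).trans E.symm) ?_, ?_⟩
  · intro g h
    ext z
    simp only [IsometryEquiv.trans_apply, IsometryEquiv.mul_apply, hC,
      IsometryEquiv.apply_symm_apply, hBm]
  · intro g h a
    simp only [MonoidHom.mk'_apply, IsometryEquiv.trans_apply, IsometryEquiv.dist_eq, hC, hE, hBc,
      Completion.dist_eq]

open UniformSpace in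
theorem main : ∃ (G : Type) (_ : Group G) (_ : MetricSpace G),
    IsTopologicalGroup G ∧ TopologicalSpace.SeparableSpace G ∧
    (∀ g a b : G, dist (g * a) (g * b) = dist a b) ∧
    ∀ (H : Type u) [Group H] [MetricSpace H] [IsTopologicalGroup H]
      [TopologicalSpace.SeparableSpace H], (∀ g a b : H, dist (g * a) (g * b) = dist a b) →
      ∃ φ : H →* G, Function.Injective φ ∧ ∀ a b : H, dist (φ a) (φ b) = dist a b := by
  obtain ⟨d, hd0, hds, hdt, hext⟩ := exists_d
  letI : PseudoMetricSpace (Syn ℕ) := mkPM d hd0 hds hdt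
  let x : ℕ → Completion (Syn ℕ) := fun n => ((show Syn ℕ from n : Syn ℕ) : Completion (Syn ℕ))
  have hx : DenseRange x := Completion.denseRange_coe (α := Syn ℕ)
  have hxd : ∀ i j, dist (x i) (x j) = d i j := fun i j => Completion.dist_eq _ _
  haveI : TopologicalSpace.SeparableSpace (Completion (Syn ℕ)) :=
    TopologicalSpace.SeparableSpace.of_denseRange x hx
  haveI : SecondCountableTopology (Completion (Syn ℕ)) :=
    UniformSpace.secondCountable_of_separable _
  have hd00 : ∀ i j, 0 ≤ d i j := fun i j => hxd i j ▸ dist_nonneg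
  let L : ℕ → ℝ := fun n => ((n : ℝ) + 1) * (1 + ∑ i ∈ Finset.range (n + 1), d i 0)
  have hsum : ∀ n, 0 ≤ ∑ i ∈ Finset.range (n + 1), d i 0 := fun n =>
    Finset.sum_nonneg fun i _ => hd00 i 0
  have hL : ∀ n : ℕ, ((n : ℝ) + 1) * (1 + dist (x n) (x 0)) ≤ L n := by
    intro n
    refine mul_le_mul_of_nonneg_left ?_ (by positivity)
    rw [hxd]
    have := Finset.single_le_sum (f := fun i => d i 0) (fun i _ => hd00 i 0)
      (Finset.self_mem_range_succ n)
    linarith
  have hLm : Monotone L := by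
    refine monotone_nat_of_le_succ fun n => ?_
    refine mul_le_mul (by push_cast; linarith) ?_ (by have := hsum n; linarith) (by positivity)
    rw [Finset.sum_range_succ _ (n + 1)]
    have := hd00 (n + 1) 0
    linarith
  have hL0 : L 0 = 1 := by simp [L, hd0]
  have hLn : ∀ n : ℕ, (n : ℝ) ≤ L n := by
    intro n
    have h1 := hsum n
    have h2 : (0 : ℝ) ≤ n := Nat.cast_nonneg n
    show (n : ℝ) ≤ ((n : ℝ) + 1) * (1 + ∑ i ∈ Finset.range (n + 1), d i 0)
    nlinarith
  obtain ⟨p1, p2, p3⟩ := iso_props hx hL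
  refine ⟨Completion (Syn ℕ) ≃ᵢ Completion (Syn ℕ), inferInstance, isoMetric hx hL, p1, p2, p3, ?_⟩
  intro H _ _ _ _ hH
  let ν : H → ℝ := fun g => dist 1 g
  have hν : ∀ a b : H, dist a b = ν (a⁻¹ * b) := by
    intro a b
    show _ = dist 1 (a⁻¹ * b)
    rw [← hH a⁻¹ a b, inv_mul_cancel]
  haveI : Nonempty H := ⟨1⟩
  obtain ⟨E, hE, e1, e2, e3, e4⟩ := exists_action (H := H) hd0 hds hdt hext hLm hL0 hLn (ν := ν)
    (dist_self _) (fun g => by
      have := hν g 1
      rw [mul_one] at this
      rw [← this, dist_comm])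
    (fun g h => by
      have h1 := dist_triangle 1 g (g * h)
      rw [hν g (g * h), inv_mul_cancel_left] at h1
      exact h1)
    (fun h ε hε => by
      have hc : Continuous fun g : H => h⁻¹ * g * h := by fun_prop
      obtain ⟨δ, hδ, h2⟩ := Metric.continuous_iff.1 hc 1 ε hε
      refine ⟨δ, hδ, fun g hg => ?_⟩
      have := h2 g (by rw [dist_comm]; exact hg)
      rw [mul_one, inv_mul_cancel, dist_comm] at this
      exact this.le)
    (TopologicalSpace.denseSeq H)
    (fun h ε hε => by
      obtain ⟨m, hm⟩ := (TopologicalSpace.denseRange_denseSeq H).exists_dist_lt h hε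
      exact ⟨m, by rw [← hν, dist_comm]; exact hm⟩)
  letI : PseudoMetricSpace (Syn (ℕ × H)) := mkPM E (fun a => hE.self a trivial)
    (fun a b => hE.symm a b trivial trivial) (fun a b c => hE.tri a b c trivial trivial trivial)
  obtain ⟨φ, hφ⟩ := transfer (A := Syn ℕ) (Y := Syn (ℕ × H)) (H := H)
    (fun n => ((show ℕ from n), 1))
    (Isometry.of_dist_eq fun i j => e1 i j)
    (Metric.denseRange_iff.2 fun a ε hε => by
      obtain ⟨n, hn⟩ := e4 a ε hε
      exact ⟨n, by rw [dist_comm]; exact hn⟩)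
    (fun g a => ((show ℕ × H from a).1, g * (show ℕ × H from a).2))
    (fun a => by simp) (fun g h a => by simp [mul_assoc])
    (fun g => Isometry.of_dist_eq fun a b => hE.inv g a b trivial trivial)
  have key : ∀ a b : H, wd x L (φ a) (φ b) = dist a b := by
    intro a b
    have hterm : ∀ n : ℕ, dist (φ a (x n)) (φ b (x n)) = E (n, 1) (n, a⁻¹ * b) := by
      intro n
      rw [hφ a b n]
      have := hE.inv a (n, 1) (n, a⁻¹ * b) trivial trivial
      simp only [mul_inv_cancel_left] at this
      rw [← this]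
      show E (n, a * 1) (n, b * 1) = _
      rw [mul_one b]
    apply le_antisymm
    · refine ciSup_le fun n => ?_
      rw [hterm, div_le_iff₀ (L_pos hL n), hν, mul_comm]
      exact e2 n _
    · have := le_wd hL (φ a) (φ b) 0
      rw [hterm, hL0, div_one, e3, ← hν] at this
      exact this
  refine ⟨φ, fun a b hab => ?_, key⟩
  have := key a b
  rw [hab] at this
  apply eq_of_dist_eq_zero
  rw [← this]
  simp [wd]

end Pool.Agent.H289Z.MU
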