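import Mathlib

set_option autoImplicit false

namespace Pool.Agent.H289Z.ZI

open Set Filter Topology Complex
open scoped ComplexConjugate BigOperators

variable {m : ℕ}

/-- the linear flow with frequencies `ω` -/
noncomputable def R (ω : Fin m → ℝ) (t : ℝ) (u : Fin m → ℂ) : Fin m → ℂ :=
  fun j => exp (I * ω j * t) * u j

theorem R_add (ω : Fin m → ℝ) (s t : ℝ) (u : Fin m → ℂ) : R ω s (R ω t u) = R ω (s + t) u := by
  funext j
  simp only [R]
  rw [← mul_assoc, ← Complex.exp_add]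
  congr 2
  push_cast
  ring

theorem norm_R (ω : Fin m → ℝ) (t : ℝ) (u : Fin m → ℂ) (j : Fin m) : ‖R ω t u j‖ = ‖u j‖ := by
  simp only [R]
  have : I * ω j * t = ((ω j * t : ℝ) : ℂ) * I := by push_cast; ring
  rw [norm_mul, this, Complex.norm_exp_ofReal_mul_I, one_mul]

theorem continuous_R (ω : Fin m → ℝ) : Continuous fun q : ℝ × (Fin m → ℂ) => R ω q.1 q.2 := by
  refine continuous_pi fun j => ?_
  simp only [R]
  fun_prop

theorem deriv_R (ω : Fin m → ℝ) (u : Fin m → ℂ) (j : Fin m) (t : ℝ) :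
    HasDerivAt (fun t : ℝ => R ω t u j) (I * ω j * R ω t u j) t := by
  have h1 : HasDerivAt (fun z : ℂ => exp (I * ω j * z) * u j)
      (exp (I * ω j * t) * (I * ω j * 1) * u j) (t : ℂ) :=
    (((hasDerivAt_id (t : ℂ)).const_mul (I * ω j)).cexp).mul_const _
  have h2 := h1.comp_ofReal
  refine HasDerivAt.congr_deriv h2 (Eq.symm ?_)
  simp only [R]
  ring

theorem deriv_conjR (ω : Fin m → ℝ) (u : Fin m → ℂ) (j : Fin m) (t : ℝ) :
    HasDerivAt (fun t : ℝ => conj (R ω t u j)) (-(I * ω j) * conj (R ω t u j)) t := by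
  have h := (deriv_R ω u j t).star
  refine HasDerivAt.congr_deriv h (Eq.symm ?_)
  simp only [star_mul', RCLike.star_def, conj_I, conj_ofReal]
  ring

/-- primitive of the off-diagonal part of a sesquilinear form along the flow -/
noncomputable def Q (ω : Fin m → ℝ) (A : Fin m → Fin m → ℝ) (u : Fin m → ℂ) : ℂ :=
  ∑ j, ∑ k, (if j = k then 0 else (A j k : ℂ) / (I * (ω j - ω k))) * (u j * conj (u k))

theorem continuous_Q (ω : Fin m → ℝ) (A : Fin m → Fin m → ℝ) : Continuous (Q ω A) := by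
  unfold Q
  refine continuous_finsetSum _ fun j _ => continuous_finsetSum _ fun k _ => ?_
  fun_prop

theorem deriv_Q {ω : Fin m → ℝ} (hω : Function.Injective ω) (A : Fin m → Fin m → ℝ)
    (u : Fin m → ℂ) (t : ℝ) :
    HasDerivAt (fun t : ℝ => Q ω A (R ω t u))
      (∑ j, ∑ k, (A j k : ℂ) * (R ω t u j * conj (R ω t u k)) -
        ((∑ j, A j j * ‖u j‖ ^ 2 : ℝ) : ℂ)) t := by
  unfold Q
  have h1 : ∀ j k, HasDerivAt (fun t : ℝ => (if j = k then 0 else (A j k : ℂ) / (I * (ω j - ω k))) *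
      (R ω t u j * conj (R ω t u k)))
      ((A j k : ℂ) * (R ω t u j * conj (R ω t u k)) -
        if j = k then ((A j j * ‖u j‖ ^ 2 : ℝ) : ℂ) else 0) t := by
    intro j k
    have h2 := ((deriv_R ω u j t).mul (deriv_conjR ω u k t)).const_mul
      (if j = k then 0 else (A j k : ℂ) / (I * (ω j - ω k)))
    refine HasDerivAt.congr_deriv h2 (Eq.symm ?_)
    by_cases hjk : j = k
    · subst hjk
      simp only [if_true, zero_mul]
      rw [Complex.mul_conj, Complex.normSq_eq_norm_sq, norm_R]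
      push_cast
      ring
    · simp only [if_neg hjk, sub_zero]
      have h3 : (ω j : ℂ) - ω k ≠ 0 := by
        rw [sub_ne_zero]
        exact_mod_cast fun e => hjk (hω e)
      field_simp
      ring
  have h3 := HasDerivAt.fun_sum (u := Finset.univ) fun j _ =>
    HasDerivAt.fun_sum (u := Finset.univ) fun k _ => h1 j k
  refine HasDerivAt.congr_deriv h3 (Eq.symm ?_)
  simp only [Finset.sum_sub_distrib, Finset.sum_ite_eq, Finset.mem_univ, if_true]
  push_cast
  rfl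

/-- the planar curve -/
noncomputable def W (ω : Fin m → ℝ) (u : Fin m → ℂ) : ℂ := ∑ j, u j / (Real.sqrt (ω j) : ℂ)

/-- its velocity -/
noncomputable def W1 (ω : Fin m → ℝ) (u : Fin m → ℂ) : ℂ := I * ∑ j, (Real.sqrt (ω j) : ℂ) * u j

theorem continuous_W (ω : Fin m → ℝ) : Continuous (W ω) := by
  unfold W
  refine continuous_finsetSum _ fun j _ => ?_
  fun_prop

theorem deriv_W {ω : Fin m → ℝ} (hpos : ∀ j, 0 < ω j) (u : Fin m → ℂ) (t : ℝ) :
    HasDerivAt (fun t : ℝ => W ω (R ω t u)) (W1 ω (R ω t u)) t := by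
  unfold W W1
  have h3 := HasDerivAt.fun_sum (u := Finset.univ) fun j _ =>
    (deriv_R ω u j t).div_const (Real.sqrt (ω j) : ℂ)
  refine HasDerivAt.congr_deriv h3 (Eq.symm ?_)
  rw [Finset.mul_sum]
  refine Finset.sum_congr rfl fun j _ => ?_
  have h1 : (Real.sqrt (ω j) : ℂ) ≠ 0 := by
    exact_mod_cast (Real.sqrt_pos.2 (hpos j)).ne'
  have h2 : (ω j : ℂ) = (Real.sqrt (ω j) : ℂ) * (Real.sqrt (ω j) : ℂ) := by
    exact_mod_cast (Real.mul_self_sqrt (hpos j).le).symm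
  rw [eq_div_iff h1]
  conv_rhs => rw [h2]
  ring

/-- oscillating part of the energy -/
noncomputable def G (ω : Fin m → ℝ) (u : Fin m → ℂ) : ℝ :=
  (Q ω (fun j k => Real.sqrt (ω j) * Real.sqrt (ω k)) u).re

/-- oscillating part of the area -/
noncomputable def Ar (ω : Fin m → ℝ) (u : Fin m → ℂ) : ℝ :=
  (Q ω (fun j k => Real.sqrt (ω j) / Real.sqrt (ω k)) u).re

theorem continuous_G (ω : Fin m → ℝ) : Continuous (G ω) :=
  Complex.continuous_re.comp (continuous_Q _ _)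

theorem continuous_Ar (ω : Fin m → ℝ) : Continuous (Ar ω) :=
  Complex.continuous_re.comp (continuous_Q _ _)

theorem hasDerivAt_re {f : ℝ → ℂ} {f' : ℂ} {t : ℝ} (h : HasDerivAt f f' t) :
    HasDerivAt (fun t => (f t).re) f'.re t :=
  Complex.reCLM.hasFDerivAt.comp_hasDerivAt t h

theorem hasDerivAt_im {f : ℝ → ℂ} {f' : ℂ} {t : ℝ} (h : HasDerivAt f f' t) :
    HasDerivAt (fun t => (f t).im) f'.im t :=
  Complex.imCLM.hasFDerivAt.comp_hasDerivAt t h

theorem deriv_G {ω : Fin m → ℝ} (hω : Function.Injective ω) (hpos : ∀ j, 0 < ω j)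
    (u : Fin m → ℂ) (t : ℝ) :
    HasDerivAt (fun t : ℝ => G ω (R ω t u))
      (‖W1 ω (R ω t u)‖ ^ 2 - ∑ j, ω j * ‖u j‖ ^ 2) t := by
  have h := hasDerivAt_re (deriv_Q hω (fun j k => Real.sqrt (ω j) * Real.sqrt (ω k)) u t)
  refine HasDerivAt.congr_deriv h (Eq.symm ?_)
  rw [Complex.sub_re, Complex.ofReal_re]
  congr 1
  · have h1 : ((‖W1 ω (R ω t u)‖ ^ 2 : ℝ) : ℂ) = W1 ω (R ω t u) * conj (W1 ω (R ω t u)) := by
      rw [Complex.mul_conj, Complex.normSq_eq_norm_sq]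
    rw [← Complex.ofReal_re (‖W1 ω (R ω t u)‖ ^ 2), h1]
    congr 1
    unfold W1
    rw [map_mul, conj_I, map_sum]
    have h2 : ∀ a b : ℂ, I * a * (-I * b) = a * b := by
      intro a b
      have := I_mul_I
      linear_combination (-(a * b)) * this
    rw [h2, Finset.sum_mul_sum]
    refine Finset.sum_congr rfl fun j _ => Finset.sum_congr rfl fun k _ => ?_
    rw [map_mul, conj_ofReal]
    push_cast
    ring
  · refine Finset.sum_congr rfl fun j _ => ?_
    rw [Real.mul_self_sqrt (hpos j).le]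

theorem deriv_Ar {ω : Fin m → ℝ} (hω : Function.Injective ω) (hpos : ∀ j, 0 < ω j)
    (u : Fin m → ℂ) (t : ℝ) :
    HasDerivAt (fun t : ℝ => Ar ω (R ω t u))
      ((conj (W ω (R ω t u)) * W1 ω (R ω t u)).im - ∑ j, ‖u j‖ ^ 2) t := by
  have h := hasDerivAt_re (deriv_Q hω (fun j k => Real.sqrt (ω j) / Real.sqrt (ω k)) u t)
  refine HasDerivAt.congr_deriv h (Eq.symm ?_)
  rw [Complex.sub_re, Complex.ofReal_re]
  congr 1
  · unfold W W1
    have h2 : ∀ a b : ℂ, (a * (I * b)).im = (b * a).re := by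
      intro a b
      simp only [mul_im, mul_re, I_re, I_im]
      ring
    rw [h2, map_sum, Finset.sum_mul_sum]
    congr 1
    refine Finset.sum_congr rfl fun j _ => Finset.sum_congr rfl fun k _ => ?_
    rw [map_div₀, conj_ofReal]
    push_cast
    ring
  · refine Finset.sum_congr rfl fun j _ => ?_
    rw [div_self (Real.sqrt_pos.2 (hpos j)).ne', one_mul]

/-- a function whose derivative is dominated by the derivative of another one -/
theorem norm_sub_le_of_deriv {E : Type} [NormedAddCommGroup E] [NormedSpace ℝ E]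
    {f f' : ℝ → E} {σ σ' : ℝ → ℝ} {a b : ℝ} (hab : a ≤ b)
    (hf : ∀ t, HasDerivAt f (f' t) t) (hσ : ∀ t, HasDerivAt σ (σ' t) t)
    (h : ∀ t ∈ Icc a b, ‖f' t‖ ≤ σ' t) : ‖f b - f a‖ ≤ σ b - σ a := by
  have h1 := image_norm_le_of_norm_deriv_right_le_deriv_boundary'
    (f := fun t => f t - f a) (f' := f') (a := a) (b := b)
    (fun t _ => ((hf t).continuousAt.sub continuousAt_const).continuousWithinAt)
    (fun t _ => ((hf t).sub_const _).hasDerivWithinAt)
    (B := fun t => σ t - σ a) (B' := σ') (by simp)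
    (fun t _ => ((hσ t).continuousAt.sub continuousAt_const).continuousWithinAt)
    (fun t _ => ((hσ t).sub_const _).hasDerivWithinAt)
    (fun t ht => h t (Ico_subset_Icc_self ht))
  exact h1 ⟨hab, le_rfl⟩

/-- the unit sphere -/
def Sph (m : ℕ) : Set (Fin m → ℂ) := {u | ∑ j, ‖u j‖ ^ 2 = 1}

theorem R_mem (ω : Fin m → ℝ) (t : ℝ) {u : Fin m → ℂ} (hu : u ∈ Sph m) : R ω t u ∈ Sph m := by
  show ∑ j, ‖R ω t u j‖ ^ 2 = 1
  simp only [norm_R]
  exact hu

/-- the new clock -/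
noncomputable def σ (ω : Fin m → ℝ) (u : Fin m → ℂ) (t : ℝ) : ℝ := t + 2 * G ω (R ω t u)

/-- derivative of the clock -/
noncomputable def σ1 (ω : Fin m → ℝ) (u : Fin m → ℂ) (t : ℝ) : ℝ :=
  1 + 2 * (‖W1 ω (R ω t u)‖ ^ 2 - ∑ j, ω j * ‖u j‖ ^ 2)

theorem deriv_σ {ω : Fin m → ℝ} (hω : Function.Injective ω) (hpos : ∀ j, 0 < ω j)
    (u : Fin m → ℂ) (t : ℝ) : HasDerivAt (σ ω u) (σ1 ω u t) t :=
  (hasDerivAt_id t).add ((deriv_G hω hpos u t).const_mul 2)

theorem σ1_ge {ω : Fin m → ℝ} (hle : ∀ j, ω j ≤ 1 / 4) {u : Fin m → ℂ} (hu : u ∈ Sph m) (t : ℝ) :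
    1 / 2 + 2 * ‖W1 ω (R ω t u)‖ ^ 2 ≤ σ1 ω u t := by
  have h1 : ∑ j, ω j * ‖u j‖ ^ 2 ≤ ∑ j, 1 / 4 * ‖u j‖ ^ 2 :=
    Finset.sum_le_sum fun j _ => mul_le_mul_of_nonneg_right (hle j) (by positivity)
  rw [← Finset.mul_sum, show ∑ j, ‖u j‖ ^ 2 = 1 from hu] at h1
  unfold σ1
  linarith

theorem σ_expand {ω : Fin m → ℝ} (hω : Function.Injective ω) (hpos : ∀ j, 0 < ω j)
    (hle : ∀ j, ω j ≤ 1 / 4) {u : Fin m → ℂ} (hu : u ∈ Sph m) {a b : ℝ} (hab : a ≤ b) :
    (b - a) / 2 ≤ σ ω u b - σ ω u a := by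
  have h := norm_sub_le_of_deriv (f := fun t : ℝ => t / 2) (f' := fun _ => (1 / 2 : ℝ)) hab
    (fun t => (hasDerivAt_id t).div_const 2) (deriv_σ hω hpos u) (fun t _ => by
      have h1 := σ1_ge hle hu t
      have h2 : 0 ≤ ‖W1 ω (R ω t u)‖ ^ 2 := by positivity
      rw [Real.norm_eq_abs, abs_of_pos (by norm_num)]
      linarith)
  rw [Real.norm_eq_abs] at h
  have := le_abs_self (b / 2 - a / 2)
  linarith

theorem σ_abs {ω : Fin m → ℝ} (hω : Function.Injective ω) (hpos : ∀ j, 0 < ω j)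
    (hle : ∀ j, ω j ≤ 1 / 4) {u : Fin m → ℂ} (hu : u ∈ Sph m) (a b : ℝ) :
    |b - a| ≤ 2 * |σ ω u b - σ ω u a| := by
  rcases le_total a b with h | h
  · have := σ_expand hω hpos hle hu h
    have h2 := le_abs_self (σ ω u b - σ ω u a)
    rw [abs_of_nonneg (by linarith)]
    linarith
  · have := σ_expand hω hpos hle hu h
    have h2 := neg_abs_le (σ ω u b - σ ω u a)
    rw [abs_of_nonpos (by linarith)]
    linarith

theorem σ_zero {ω : Fin m → ℝ} (hω : Function.Injective ω) (hpos : ∀ j, 0 < ω j)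
    (hle : ∀ j, ω j ≤ 1 / 4) {u : Fin m → ℂ} (hu : u ∈ Sph m) : ∃ t, σ ω u t = 0 := by
  set c := |σ ω u 0| with hc
  have hc0 : 0 ≤ c := abs_nonneg _
  have h1 := σ_expand hω hpos hle hu (show -(2 * c) ≤ 0 by linarith)
  have h2 := σ_expand hω hpos hle hu (show 0 ≤ 2 * c by linarith)
  have h3 := le_abs_self (σ ω u 0)
  have h4 := neg_abs_le (σ ω u 0)
  have hcont : ContinuousOn (σ ω u) (Icc (-(2 * c)) (2 * c)) :=
    fun t _ => (deriv_σ hω hpos u t).continuousAt.continuousWithinAt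
  obtain ⟨t, -, ht⟩ := intermediate_value_Icc (show -(2 * c) ≤ 2 * c by linarith) hcont
    (show (0 : ℝ) ∈ Icc _ _ from ⟨by linarith, by linarith⟩)
  exact ⟨t, ht⟩

theorem σ_shift (ω : Fin m → ℝ) (u : Fin m → ℂ) (t : ℝ) :
    σ ω (R ω 1 u) t = σ ω u (t + 1) - 1 := by
  unfold σ
  rw [R_add]
  ring

/-- the main construction: a closed horizontal-type curve in the Heisenberg group, sampled with
the new clock -/
theorem core {ω : Fin m → ℝ} (hω : Function.Injective ω) (hpos : ∀ j, 0 < ω j)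
    (hle : ∀ j, ω j ≤ 1 / 4) :
    ∃ (w : Sph m → ℂ) (h : Sph m → ℝ), Continuous w ∧ Continuous h ∧ ∀ u : Sph m,
      ‖w ⟨R ω 1 u, R_mem ω 1 u.2⟩ - w u‖ ≤ 1 / 2 ∧
      |h ⟨R ω 1 u, R_mem ω 1 u.2⟩ - h u - (conj (w u) * w ⟨R ω 1 u, R_mem ω 1 u.2⟩).im / 2
        + 1 / 2| ≤ 1 / 8 := by
  choose τ hτ using fun u : Sph m => σ_zero hω hpos hle u.2
  have hτc : Continuous τ := by
    rw [continuous_iff_continuousAt]
    intro u0
    rw [ContinuousAt, tendsto_iff_dist_tendsto_zero]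
    have h1 : Continuous fun u : Sph m => 2 * |σ ω u (τ u0)| := by
      refine continuous_const.mul (Continuous.abs ?_)
      unfold σ
      refine continuous_const.add (continuous_const.mul ((continuous_G ω).comp ?_))
      exact (continuous_R ω).comp (continuous_const.prodMk continuous_subtype_val)
    have h2 := h1.tendsto u0
    rw [hτ u0, abs_zero, mul_zero] at h2
    refine squeeze_zero (fun _ => dist_nonneg) (fun u => ?_) h2
    have := σ_abs hω hpos hle u.2 (τ u) (τ u0)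
    rw [hτ u, sub_zero] at this
    rw [Real.dist_eq, abs_sub_comm]
    exact this
  have hΘ : Continuous fun u : Sph m => R ω (τ u) u :=
    (continuous_R ω).comp (hτc.prodMk continuous_subtype_val)
  refine ⟨fun u => W ω (R ω (τ u) u), fun u => Ar ω (R ω (τ u) u) / 2 - G ω (R ω (τ u) u),
    (continuous_W ω).comp hΘ,
    (((continuous_Ar ω).comp hΘ).div_const 2).sub ((continuous_G ω).comp hΘ), fun u => ?_⟩
  set t0 := τ u with ht0
  set t1 := τ ⟨R ω 1 u, R_mem ω 1 u.2⟩ + 1 with ht1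
  have e0 : σ ω u t0 = 0 := hτ u
  have e1 : σ ω u t1 = 1 := by
    have := hτ ⟨R ω 1 u, R_mem ω 1 u.2⟩
    rw [σ_shift] at this
    linarith
  have hR : R ω (τ ⟨R ω 1 u, R_mem ω 1 u.2⟩) (R ω 1 u) = R ω t1 u := R_add _ _ _ _
  simp only [hR]
  have h01 : t0 ≤ t1 := by
    by_contra hc
    have := σ_expand hω hpos hle u.2 (not_le.1 hc).le
    linarith
  have hsp : ∀ t, ‖W1 ω (R ω t u)‖ ≤ σ1 ω u t / 2 := by
    intro t
    have := σ1_ge hle u.2 t
    nlinarith [sq_nonneg (2 * ‖W1 ω (R ω t u)‖ - 1)]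
  have hw : ∀ t ∈ Icc t0 t1, ‖W ω (R ω t u) - W ω (R ω t0 u)‖ ≤ 1 / 2 := by
    intro t ht
    have h1 := norm_sub_le_of_deriv (σ := fun t => σ ω u t / 2) ht.1 (deriv_W hpos u)
      (fun t => (deriv_σ hω hpos u t).div_const 2) (fun t _ => hsp t)
    have h2 := σ_expand hω hpos hle u.2 ht.2
    have h3 := ht.2
    linarith
  refine ⟨hw t1 ⟨h01, le_rfl⟩, ?_⟩
  have hV : ∀ t, HasDerivAt (fun t => Ar ω (R ω t u) / 2 - G ω (R ω t u)
      - (conj (W ω (R ω t0 u)) * W ω (R ω t u)).im / 2 + σ ω u t / 2)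
      ((conj (W ω (R ω t u) - W ω (R ω t0 u)) * W1 ω (R ω t u)).im / 2) t := by
    intro t
    have h1 := ((((deriv_Ar hω hpos u t).div_const 2).sub (deriv_G hω hpos u t)).sub
      ((hasDerivAt_im ((deriv_W hpos u t).const_mul (conj (W ω (R ω t0 u))))).div_const 2)).add
      ((deriv_σ hω hpos u t).div_const 2)
    refine HasDerivAt.congr_deriv h1 (Eq.symm ?_)
    rw [map_sub, sub_mul, Complex.sub_im, show ∑ j, ‖u.1 j‖ ^ 2 = 1 from u.2]
    unfold σ1
    ring
  have h1 := norm_sub_le_of_deriv (σ := fun t => σ ω u t / 8) h01 hV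
    (fun t => (deriv_σ hω hpos u t).div_const 8) (fun t ht => by
      rw [Real.norm_eq_abs, abs_div, abs_two]
      have a1 := Complex.abs_im_le_norm
        (conj (W ω (R ω t u) - W ω (R ω t0 u)) * W1 ω (R ω t u))
      rw [norm_mul, Complex.norm_conj] at a1
      have a2 := mul_le_mul (hw t ht) (hsp t) (norm_nonneg _) (by norm_num)
      linarith)
  rw [Real.norm_eq_abs, e0, e1] at h1
  have h2 : (conj (W ω (R ω t0 u)) * W ω (R ω t0 u)).im = 0 := by
    rw [mul_comm, Complex.mul_conj, Complex.ofReal_im]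
  rw [h2] at h1
  convert h1 using 2
  · ring
  · norm_num

end Pool.Agent.H289Z.ZI
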