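import Pool.Agent.H289Z.ZI1

set_option autoImplicit false

namespace Pool.Agent.H289Z.ZI

open Set Filter Topology Complex
open scoped ComplexConjugate BigOperators

/-- additive character -/
noncomputable def ch (x : ℝ) : ℂ := exp (I * ((2 * Real.pi * x : ℝ) : ℂ))

theorem norm_ch (x : ℝ) : ‖ch x‖ = 1 := by
  unfold ch
  rw [mul_comm, Complex.norm_exp_ofReal_mul_I]

theorem ch_add (x y : ℝ) : ch (x + y) = ch x * ch y := by
  unfold ch
  rw [← Complex.exp_add]
  congr 1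
  push_cast
  ring

theorem continuous_ch : Continuous ch := by
  unfold ch
  fun_prop

theorem ch_re (x : ℝ) : (ch x).re = Real.cos (2 * Real.pi * x) := by
  unfold ch
  rw [mul_comm, Complex.exp_ofReal_mul_I_re]

theorem ch_sep {x y : ℝ} (h1 : |y - x| ≤ 1 / 2) (h2 : 1 / 16 ≤ |y - x|) :
    3 / 16 ≤ ‖ch x - ch y‖ := by
  have e1 : ch x - ch y = -(ch x * (ch (y - x) - 1)) := by
    rw [mul_sub, ← ch_add, add_sub_cancel]
    ring
  rw [e1, norm_neg, norm_mul, norm_ch, one_mul]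
  unfold ch
  rw [Complex.norm_exp_I_mul_ofReal_sub_one, Real.norm_eq_abs, abs_mul, abs_two]
  have e2 : 2 * Real.pi * (y - x) / 2 = Real.pi * (y - x) := by ring
  rw [e2]
  have hpi := Real.pi_pos
  have e3 : |Real.sin (Real.pi * (y - x))| = |Real.sin (Real.pi * |y - x|)| := by
    rcases abs_choice (y - x) with h | h
    · rw [h]
    · rw [h, mul_neg, Real.sin_neg, abs_neg]
  rw [e3]
  have h3 := Real.mul_le_sin (x := Real.pi * |y - x|) (by positivity) (by nlinarith)
  have e4 : 2 / Real.pi * (Real.pi * |y - x|) = 2 * |y - x| := by field_simp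
  rw [e4] at h3
  have := le_abs_self (Real.sin (Real.pi * |y - x|))
  linarith

theorem phase_sep {r0 r1 φ θ : ℝ} (hr : 0 ≤ r1) (hθ : |θ + 1 / 2| ≤ 1 / 4) :
    r0 ≤ ‖(r0 : ℂ) * ch φ - (r1 : ℂ) * ch (φ + θ)‖ := by
  have e1 : (r0 : ℂ) * ch φ - (r1 : ℂ) * ch (φ + θ) = ch φ * ((r0 : ℂ) - (r1 : ℂ) * ch θ) := by
    rw [ch_add]
    ring
  rw [e1, norm_mul, norm_ch, one_mul]
  refine le_trans ?_ (Complex.re_le_norm _)
  rw [Complex.sub_re, Complex.ofReal_re, Complex.re_ofReal_mul, ch_re]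
  have hpi := Real.pi_pos
  have h1 : 0 ≤ Real.cos (2 * Real.pi * (θ + 1 / 2)) := by
    rw [abs_le] at hθ
    apply Real.cos_nonneg_of_neg_pi_div_two_le_of_le <;> nlinarith
  have e2 : 2 * Real.pi * (θ + 1 / 2) = 2 * Real.pi * θ + Real.pi := by ring
  rw [e2, Real.cos_add_pi] at h1
  nlinarith

/-- invariant function on the Heisenberg group, before substituting the fractional part -/
noncomputable def gF (s : ℝ) (x : ℂ × ℝ) (y : ℝ) : ℂ :=
  ((y * (1 - y) : ℝ) : ℂ) * ch (x.2 + x.1.re * x.1.im / 2 - (x.1.re + s - y) * x.1.im)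

/-- invariant function on the Heisenberg group -/
noncomputable def FF (s : ℝ) (x : ℂ × ℝ) : ℂ := gF s x (Int.fract (x.1.re + s))

theorem continuous_FF (s : ℝ) : Continuous (FF s) := by
  unfold FF
  refine ContinuousOn.comp_fract (f := gF s) (s := fun x : ℂ × ℝ => x.1.re + s) ?_ (by fun_prop) ?_
  · refine Continuous.continuousOn ?_
    unfold gF Function.uncurry
    refine Continuous.mul (by fun_prop) (continuous_ch.comp ?_)
    fun_prop
  · intro x
    simp [gF]

theorem norm_FF (s : ℝ) (x : ℂ × ℝ) : ‖FF s x‖ ≤ 1 := by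
  unfold FF gF
  rw [norm_mul, norm_ch, mul_one, Complex.norm_real, Real.norm_eq_abs]
  have h1 := Int.fract_nonneg (x.1.re + s)
  have h2 := Int.fract_lt_one (x.1.re + s)
  rw [abs_le]
  constructor <;> nlinarith

theorem FF_sep {s : ℝ} (hs0 : 0 ≤ s) (hs : s ≤ 1 / 2) {w0 w1 : ℂ} {h0 h1 : ℝ}
    (hy0 : 1 / 4 ≤ Int.fract (w0.re + s)) (hy1 : Int.fract (w0.re + s) ≤ 3 / 4)
    (ha : |w1.re - w0.re| ≤ 1 / 16) (hb : |w1.im - w0.im| ≤ 1 / 16)
    (hv : |h1 - h0 - (conj w0 * w1).im / 2 + 1 / 2| ≤ 1 / 8) :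
    3 / 16 ≤ ‖FF s (w0, h0) - FF s (w1, h1)‖ := by
  set y0 := Int.fract (w0.re + s) with hy
  rw [abs_le] at ha
  have e1 : Int.fract (w1.re + s) = y0 + (w1.re - w0.re) := by
    rw [Int.fract_eq_iff]
    refine ⟨by linarith, by linarith, ⌊w0.re + s⌋, ?_⟩
    rw [hy, ← Int.self_sub_floor]
    ring
  unfold FF gF
  simp only
  rw [e1, ← hy]
  have e2 : h1 + w1.re * w1.im / 2 - (w1.re + s - (y0 + (w1.re - w0.re))) * w1.im =
      (h0 + w0.re * w0.im / 2 - (w0.re + s - y0) * w0.im) +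
      ((h1 - h0 - (conj w0 * w1).im / 2) + (y0 - s + (w1.re - w0.re) / 2) * (w1.im - w0.im)) := by
    simp only [mul_im, conj_re, conj_im]
    ring
  rw [e2]
  refine le_trans (by nlinarith) (phase_sep (r0 := y0 * (1 - y0)) ?_ ?_)
  · apply mul_nonneg <;> linarith
  · have a1 : |(y0 - s + (w1.re - w0.re) / 2) * (w1.im - w0.im)| ≤ 1 * (1 / 16) := by
      rw [abs_mul]
      refine mul_le_mul ?_ hb (abs_nonneg _) (by norm_num)
      rw [abs_le]
      constructor <;> linarith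
    rw [abs_le] at a1 hv ⊢
    constructor <;> linarith

theorem exists_Phi : ∃ Φ : ℂ × ℝ → (Fin 4 → ℂ), Continuous Φ ∧ (∀ x, ‖Φ x‖ ≤ 1) ∧
    ∀ (w0 w1 : ℂ) (h0 h1 : ℝ), ‖w1 - w0‖ ≤ 1 / 2 →
      |h1 - h0 - (conj w0 * w1).im / 2 + 1 / 2| ≤ 1 / 8 →
      3 / 16 ≤ dist (Φ (w0, h0)) (Φ (w1, h1)) := by
  refine ⟨fun x => ![ch x.1.re, ch x.1.im, FF 0 x, FF (1 / 2) x], ?_, ?_, ?_⟩
  · refine continuous_pi fun i => ?_
    fin_cases i
    · exact continuous_ch.comp (by fun_prop)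
    · exact continuous_ch.comp (by fun_prop)
    · exact continuous_FF 0
    · exact continuous_FF _
  · intro x
    refine (pi_norm_le_iff_of_nonneg zero_le_one).2 fun i => ?_
    fin_cases i
    · exact (norm_ch _).le
    · exact (norm_ch _).le
    · exact norm_FF _ _
    · exact norm_FF _ _
  · intro w0 w1 h0 h1 hw hv
    have a1 : |w1.re - w0.re| ≤ 1 / 2 := by
      rw [← Complex.sub_re]; exact (Complex.abs_re_le_norm _).trans hw
    have a2 : |w1.im - w0.im| ≤ 1 / 2 := by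
      rw [← Complex.sub_im]; exact (Complex.abs_im_le_norm _).trans hw
    by_cases c1 : 1 / 16 ≤ |w1.re - w0.re|
    · refine le_trans ?_ (dist_le_pi_dist _ _ 0)
      rw [dist_eq_norm]
      exact ch_sep a1 c1
    by_cases c2 : 1 / 16 ≤ |w1.im - w0.im|
    · refine le_trans ?_ (dist_le_pi_dist _ _ 1)
      rw [dist_eq_norm]
      exact ch_sep a2 c2
    have c1' := (not_le.1 c1).le
    have c2' := (not_le.1 c2).le
    by_cases c3 : 1 / 4 ≤ Int.fract (w0.re + 0) ∧ Int.fract (w0.re + 0) ≤ 3 / 4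
    · refine le_trans ?_ (dist_le_pi_dist _ _ 2)
      rw [dist_eq_norm]
      exact FF_sep le_rfl (by norm_num) c3.1 c3.2 c1' c2' hv
    · refine le_trans ?_ (dist_le_pi_dist _ _ 3)
      rw [dist_eq_norm]
      rw [add_zero] at c3
      have b1 := Int.fract_nonneg w0.re
      have b2 := Int.fract_lt_one w0.re
      have b3 : 1 / 4 ≤ Int.fract (w0.re + 1 / 2) ∧ Int.fract (w0.re + 1 / 2) ≤ 3 / 4 := by
        by_cases c4 : Int.fract w0.re < 1 / 4
        · have e1 : Int.fract (w0.re + 1 / 2) = Int.fract w0.re + 1 / 2 := by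
            rw [Int.fract_eq_iff]
            refine ⟨by linarith, by linarith, ⌊w0.re⌋, ?_⟩
            rw [← Int.self_sub_floor]
            ring
          rw [e1]
          constructor <;> linarith
        · have c5 : 3 / 4 < Int.fract w0.re := by
            by_contra c6
            exact c3 ⟨not_lt.1 c4, not_lt.1 c6⟩
          have e1 : Int.fract (w0.re + 1 / 2) = Int.fract w0.re - 1 / 2 := by
            rw [Int.fract_eq_iff]
            refine ⟨by linarith, by linarith, ⌊w0.re⌋ + 1, ?_⟩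
            rw [← Int.self_sub_floor]
            push_cast
            ring
          rw [e1]
          constructor <;> linarith
      exact FF_sep (by norm_num) le_rfl b3.1 b3.2 c1' c2' hv

/-- the compact target -/
abbrev KK : Type := Metric.closedBall (0 : Fin 4 → ℂ) 1

/-- uniform separation of `u` from its image under the time one map -/
theorem exists_sep {m : ℕ} {ω : Fin m → ℝ} (hω : Function.Injective ω) (hpos : ∀ j, 0 < ω j)
    (hle : ∀ j, ω j ≤ 1 / 4) :
    ∃ φ : Sph m → KK, Continuous φ ∧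
      ∀ u : Sph m, 3 / 16 ≤ dist (φ u) (φ ⟨R ω 1 u, R_mem ω 1 u.2⟩) := by
  obtain ⟨Φ, h1, h2, h3⟩ := exists_Phi
  obtain ⟨w, h, c1, c2, c3⟩ := core hω hpos hle
  have hmem : ∀ u : Sph m, Φ (w u, h u) ∈ Metric.closedBall (0 : Fin 4 → ℂ) 1 := fun u => by
    simpa using h2 _
  refine ⟨fun u => ⟨Φ (w u, h u), hmem u⟩,
    (h1.comp (c1.prodMk c2)).subtype_mk hmem, fun u => ?_⟩
  exact h3 _ _ _ _ (c3 u).1 (c3 u).2

end Pool.Agent.H289Z.ZI
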