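import Pool.Agent.H289Z.ZI1

set_option autoImplicit false

namespace Pool.Agent.H289Z.ZI

open Set Filter Topology
open scoped BigOperators unitInterval

section punctured

variable {V : Type} [NormedAddCommGroup V] [NormedSpace ℝ V]

theorem straight {Z : Type} [TopologicalSpace Z] (S : Set Z) (f0 f1 : C(Z, {v : V // v ≠ 0}))
    (h : ∀ (s : I) (t : Z), (f0 t : V) + (s : ℝ) • ((f1 t : V) - f0 t) ≠ 0)
    (hS : ∀ t ∈ S, f0 t = f1 t) : f0.HomotopicRel f1 S := by
  refine ⟨⟨⟨⟨fun q => ⟨(f0 q.2 : V) + (q.1 : ℝ) • ((f1 q.2 : V) - f0 q.2), h q.1 q.2⟩, ?_⟩,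
    ?_, ?_⟩, ?_⟩⟩
  · refine Continuous.subtype_mk ?_ _
    fun_prop
  · intro t
    apply Subtype.ext
    simp
  · intro t
    apply Subtype.ext
    simp
  · intro s t ht
    apply Subtype.ext
    show (f0 t : V) + (s : ℝ) • ((f1 t : V) - f0 t) = f0 t
    rw [hS t ht]
    simp

theorem punct_null [FiniteDimensional ℝ V] {i : ℕ} (hi : i + 1 < Module.finrank ℝ V)
    (S : Set (Fin i → I)) (f : C(Fin i → I, {v : V // v ≠ 0})) (x0 : {v : V // v ≠ 0})
    (hS : ∀ t ∈ S, f t = x0) {c : ℝ} (hc : 0 < c) (hf : ∀ t, c ≤ ‖(f t : V)‖)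
    (hx : c ≤ ‖(x0 : V)‖) : f.HomotopicRel (ContinuousMap.const _ x0) S := by
  let F : (Fin i → ℝ) → V := fun y => f (fun k => projIcc 0 1 zero_le_one (y k))
  have hF : Continuous F := by
    refine continuous_subtype_val.comp (f.continuous.comp (continuous_pi fun k => ?_))
    exact continuous_projIcc.comp (continuous_apply k)
  obtain ⟨g, hg1, hg2, -⟩ := hF.exists_contDiff_approx 1 (ε := fun _ => c / 8) continuous_const
    (fun _ => by positivity)
  have hΨ : ContDiff ℝ 1 fun q : ℝ × (Fin i → ℝ) => g q.2 + q.1 • (x0 : V) :=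
    (hg1.comp contDiff_snd).add (contDiff_fst.smul contDiff_const)
  have hd := hΨ.dense_compl_range_of_finrank_lt_finrank (by
    rw [Module.finrank_prod, Module.finrank_self, Module.finrank_fin_fun]
    omega)
  obtain ⟨η, hη1, hη2⟩ := Metric.dense_iff.1 hd 0 (c / 8) (by positivity)
  rw [mem_ball_zero_iff] at hη1
  let d : (Fin i → I) → V := fun t => g (fun k => (t k : ℝ)) - η - f t
  have hdc : Continuous d := by
    refine Continuous.sub (Continuous.sub (hg1.continuous.comp ?_) continuous_const)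
      (continuous_subtype_val.comp f.continuous)
    fun_prop
  have hd1 : ∀ t, ‖d t‖ < c / 4 := by
    intro t
    have h1 := hg2 (fun k => (t k : ℝ))
    have h2 : F (fun k => (t k : ℝ)) = f t := by
      simp only [F, projIcc_val]
    rw [h2, dist_eq_norm] at h1
    have h3 : d t = (g (fun k => (t k : ℝ)) - f t) - η := by
      simp only [d]; abel
    rw [h3]
    have := norm_sub_le (g (fun k => (t k : ℝ)) - f t) η
    linarith
  let ρ : (Fin i → I) → ℝ := fun t => min 1 (‖(f t : V) - x0‖ * (4 / c))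
  have hρc : Continuous ρ := by
    refine continuous_const.min (Continuous.mul (Continuous.norm ?_) continuous_const)
    exact (continuous_subtype_val.comp f.continuous).sub continuous_const
  have hρ0 : ∀ t, 0 ≤ ρ t := fun t => le_min zero_le_one (by positivity)
  have hρ1 : ∀ t, ρ t ≤ 1 := fun t => min_le_left _ _
  have hne : ∀ (t : Fin i → I) (r : ℝ), 0 ≤ r → r ≤ 1 → (f t : V) + r • d t ≠ 0 := by
    intro t r h0 h1 h2
    have h3 : (f t : V) = -(r • d t) := eq_neg_of_add_eq_zero_left h2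
    have h4 := hf t
    rw [h3, norm_neg, norm_smul, Real.norm_eq_abs, abs_of_nonneg h0] at h4
    have h5 := hd1 t
    have h6 := norm_nonneg (d t)
    nlinarith
  let f1 : C(Fin i → I, {v : V // v ≠ 0}) :=
    ⟨fun t => ⟨(f t : V) + ρ t • d t, hne t _ (hρ0 t) (hρ1 t)⟩,
      Continuous.subtype_mk ((continuous_subtype_val.comp f.continuous).add (hρc.smul hdc)) _⟩
  have hf1 : ∀ t, (f1 t : V) = (f t : V) + ρ t • d t := fun _ => rfl
  have hS1 : ∀ t ∈ S, f t = f1 t := by
    intro t ht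
    apply Subtype.ext
    have : ρ t = 0 := by
      simp only [ρ]
      rw [hS t ht]
      simp
    rw [hf1, this, zero_smul, add_zero]
  refine (straight S f f1 (fun s t => ?_) hS1).trans (straight S f1 _ (fun s t => ?_) ?_)
  · rw [hf1, add_sub_cancel_left, smul_smul]
    exact hne t _ (mul_nonneg s.2.1 (hρ0 t)) (mul_le_one₀ s.2.2 (hρ0 t) (hρ1 t))
  · intro h0
    rw [ContinuousMap.const_apply] at h0
    by_cases h1 : ρ t = 1
    · have h2 : (f1 t : V) = g (fun k => (t k : ℝ)) - η := by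
        rw [hf1, h1, one_smul]
        simp only [d]; abel
      rw [h2] at h0
      by_cases hs : (s : ℝ) = 1
      · rw [hs, one_smul, add_sub_cancel] at h0
        exact x0.2 h0
      · apply hη2
        refine ⟨((s : ℝ) / (1 - s), fun k => (t k : ℝ)), ?_⟩
        have hs' : (1 - (s : ℝ)) ≠ 0 := fun e => hs (by linarith)
        show g (fun k => (t k : ℝ)) + ((s : ℝ) / (1 - s)) • (x0 : V) = η
        have h3 : (1 - (s : ℝ)) • (g (fun k => (t k : ℝ)) + ((s : ℝ) / (1 - s)) • (x0 : V) - η)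
            = 0 := by
          refine Eq.trans ?_ h0
          rw [smul_sub, smul_add, smul_smul, mul_div_cancel₀ _ hs']
          module
        rcases smul_eq_zero.1 h3 with h4 | h4
        · exact absurd h4 hs'
        · exact sub_eq_zero.1 h4
    · have h2 : ‖(f t : V) - x0‖ * (4 / c) < 1 := by
        by_contra h3
        exact h1 (min_eq_left (not_lt.1 h3))
      have h3 : ‖(f t : V) - x0‖ < c / 4 := by
        rw [mul_div_assoc', div_lt_one hc] at h2
        linarith
      have h4 : ‖(f1 t : V) - x0‖ < c / 2 := by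
        have e : (f1 t : V) - x0 = ((f t : V) - x0) + ρ t • d t := by rw [hf1]; abel
        rw [e]
        have a1 := norm_add_le ((f t : V) - x0) (ρ t • d t)
        rw [norm_smul, Real.norm_eq_abs, abs_of_nonneg (hρ0 t)] at a1
        have a2 := hd1 t
        have a3 := mul_le_mul_of_nonneg_right (hρ1 t) (norm_nonneg (d t))
        linarith
      have h5 : (x0 : V) = -((1 - (s : ℝ)) • ((f1 t : V) - x0)) := by
        rw [eq_neg_iff_add_eq_zero]
        refine Eq.trans ?_ h0
        module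
      have h6 := congrArg norm h5
      rw [norm_neg, norm_smul, Real.norm_eq_abs, abs_of_nonneg (by linarith [s.2.2])] at h6
      have h7 := s.2.1
      have h8 := norm_nonneg ((f1 t : V) - x0)
      nlinarith
  · intro t ht
    rw [← hS1 t ht, hS t ht]
    rfl

end punctured

/-- Euclidean norm -/
noncomputable def eN {m : ℕ} (v : Fin m → ℂ) : ℝ := Real.sqrt (∑ j, ‖v j‖ ^ 2)

theorem eN_pos {m : ℕ} {v : Fin m → ℂ} (hv : v ≠ 0) : 0 < eN v := by
  apply Real.sqrt_pos.2
  obtain ⟨j, hj⟩ := Function.ne_iff.1 hv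
  refine Finset.sum_pos' (fun _ _ => by positivity) ⟨j, Finset.mem_univ _, ?_⟩
  have : 0 < ‖v j‖ := norm_pos_iff.2 hj
  positivity

theorem continuous_eN {m : ℕ} : Continuous (eN (m := m)) := by
  unfold eN
  fun_prop

theorem nrm_mem {m : ℕ} {v : Fin m → ℂ} (hv : v ≠ 0) : (eN v)⁻¹ • v ∈ Sph m := by
  show ∑ j, ‖((eN v)⁻¹ • v) j‖ ^ 2 = 1
  have h := eN_pos hv
  have h2 : eN v ^ 2 = ∑ j, ‖v j‖ ^ 2 :=
    Real.sq_sqrt (Finset.sum_nonneg fun _ _ => by positivity)
  simp only [Pi.smul_apply, norm_smul, mul_pow, ← Finset.mul_sum, ← h2, Real.norm_eq_abs,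
    sq_abs]
  field_simp

/-- radial projection -/
noncomputable def nrm (m : ℕ) : C({v : Fin m → ℂ // v ≠ 0}, Sph m) :=
  ⟨fun v => ⟨(eN v.1)⁻¹ • v.1, nrm_mem v.2⟩, Continuous.subtype_mk
    (((continuous_eN.comp continuous_subtype_val).inv₀ fun v => (eN_pos v.2).ne').smul
      continuous_subtype_val) _⟩

theorem sph_ne {m : ℕ} (u : Sph m) : (u : Fin m → ℂ) ≠ 0 := by
  intro h
  have h1 : ∑ j, ‖u.1 j‖ ^ 2 = 1 := u.2
  rw [h] at h1
  simp at h1

theorem nrm_sph {m : ℕ} (u : Sph m) : nrm m ⟨u, sph_ne u⟩ = u := by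
  apply Subtype.ext
  show (eN u.1)⁻¹ • u.1 = u.1
  have h1 : ∑ j, ‖u.1 j‖ ^ 2 = 1 := u.2
  unfold eN
  rw [h1]
  simp

theorem sph_norm_ge {m : ℕ} (u : Sph m) : 1 / ((m : ℝ) + 1) ≤ ‖(u : Fin m → ℂ)‖ := by
  have h1 : ∑ j, ‖u.1 j‖ ^ 2 = 1 := u.2
  have h2 : ∑ j, ‖u.1 j‖ ^ 2 ≤ ∑ _j : Fin m, ‖u.1‖ ^ 2 :=
    Finset.sum_le_sum fun j _ => pow_le_pow_left₀ (norm_nonneg _) (norm_le_pi_norm u.1 j) 2
  rw [h1, Finset.sum_const, Finset.card_univ, Fintype.card_fin, nsmul_eq_mul] at h2
  have h3 := norm_nonneg u.1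
  have h4 : (0 : ℝ) ≤ m := Nat.cast_nonneg m
  rw [div_le_iff₀ (by positivity)]
  by_contra h5
  push Not at h5
  have h6 : ‖u.1‖ < 1 := by nlinarith
  nlinarith

theorem subsingleton_pi {m : ℕ} {A : Type} [TopologicalSpace A] (e : A ≃ₜ Sph m) {i : ℕ}
    (hi : i + 1 < 2 * m) (x : A) : Subsingleton (HomotopyGroup.Pi i A x) := by
  let ι : C(A, {v : Fin m → ℂ // v ≠ 0}) :=
    ⟨fun a => ⟨(e a : Fin m → ℂ), sph_ne _⟩,
      Continuous.subtype_mk (continuous_subtype_val.comp e.continuous) _⟩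
  let r : C({v : Fin m → ℂ // v ≠ 0}, A) := (e.symm : C(Sph m, A)).comp (nrm m)
  have hr : ∀ a, r (ι a) = a := by
    intro a
    show e.symm (nrm m ⟨e a, sph_ne _⟩) = a
    rw [nrm_sph, e.symm_apply_apply]
  have key : ∀ f : GenLoop (Fin i) A x, GenLoop.Homotopic f GenLoop.const := by
    intro f
    have h1 := punct_null (V := Fin m → ℂ) (i := i) (by
        rw [Module.finrank_pi_fintype]
        simp only [Complex.finrank_real_complex, Finset.sum_const, Finset.card_univ,
          Fintype.card_fin, smul_eq_mul]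
        omega)
      (Cube.boundary (Fin i)) (ι.comp f.1) (ι x) (fun t ht => by
        rw [ContinuousMap.comp_apply, f.2 t ht]) (c := 1 / ((m : ℝ) + 1)) (by positivity)
      (fun t => sph_norm_ge _) (sph_norm_ge _)
    have h2 := h1.comp_continuousMap r
    have e1 : r.comp (ι.comp f.1) = f.1 := by
      ext t
      exact hr _
    have e2 : r.comp (ContinuousMap.const (Fin i → I) (ι x)) = ContinuousMap.const _ x := by
      ext t
      exact hr _
    rw [e1, e2] at h2
    exact h2
  constructor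
  intro a b
  induction a using Quotient.inductionOn with
  | h a =>
    induction b using Quotient.inductionOn with
    | h b => exact Quotient.sound ((key a).trans (key b).symm)

end Pool.Agent.H289Z.ZI
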