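import Mathlib

/-!
Definitions: the join `E_n Z_p`, periodic points, and the index, coindex and connectivity.
-/

set_option autoImplicit false

namespace Pool.Agent.H289Z.ZI

open scoped BigOperators Classical

/-- `E_n Z_p`: the join of `n + 1` copies of the discrete space `Z_p`, realised as the set of
nonnegative weights of total mass one on the vertices `(i, a)`, with at most one vertex of nonzero
weight in each copy `i`. -/
def E (p n : ℕ) [NeZero p] : Set (Fin (n + 1) → ZMod p → ℝ) :=
  {x | (∀ i a, 0 ≤ x i a) ∧ ∑ i, ∑ a, x i a = 1 ∧ ∀ i a b, a ≠ b → x i a = 0 ∨ x i b = 0}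

/-- the generator of the diagonal action of `Z_p` on the join: the vertex `(i, a)` goes to the
vertex `(i, a + 1)` -/
def shift (p n : ℕ) [NeZero p] (x : E p n) : E p n :=
  ⟨fun i a => x.1 i (a - 1), fun i a => x.2.1 i (a - 1), by
    rw [← x.2.2.1]
    exact Finset.sum_congr rfl fun i _ =>
      (Equiv.subRight (1 : ZMod p)).sum_comp (fun a => x.1 i a),
    fun i a b hab => x.2.2.2 i (a - 1) (b - 1) (fun h => hab (sub_left_injective h))⟩

/-- the set of `p`-periodic points of `T` -/
def Per {X : Type} [TopologicalSpace X] (T : X ≃ₜ X) (p : ℕ) : Set X := {x | T^[p] x = x}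

/-- the restriction of `T` to the set of `p`-periodic points -/
def perMap {X : Type} [TopologicalSpace X] (T : X ≃ₜ X) (p : ℕ) (x : Per T p) : Per T p :=
  ⟨T x, by
    show T^[p] (T x) = T x
    rw [← Function.iterate_succ_apply, Function.iterate_succ_apply', x.2]⟩

/-- the `Z_p`-index of the space `A` on which the generator of `Z_p` acts by `S` -/
noncomputable def ind (p : ℕ) [NeZero p] {A : Type} [TopologicalSpace A] (S : A → A) : ℤ :=
  if IsEmpty A then -1 else
    (sInf {n : ℕ | ∃ f : C(A, E p n), ∀ a, f (S a) = shift p n (f a)} : ℕ)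

/-- the `Z_p`-coindex of the space `A` on which the generator of `Z_p` acts by `S` -/
noncomputable def coind (p : ℕ) [NeZero p] {A : Type} [TopologicalSpace A] (S : A → A) : EReal :=
  if IsEmpty A then -1 else
    ⨆ n ∈ {n : ℕ | ∃ g : C(E p n, A), ∀ u, g (shift p n u) = S (g u)}, (n : EReal)

/-- the connectivity of the space `A` -/
noncomputable def conn (A : Type) [TopologicalSpace A] : EReal :=
  if IsEmpty A then -2 else
    (-1) ⊔ ⨆ n ∈ {n : ℕ | ∀ i ≤ n, ∀ x : A, Subsingleton (HomotopyGroup.Pi i A x)}, (n : EReal)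

end Pool.Agent.H289Z.ZI
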