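import Pool.Agent.H289Z.ZI2
import Pool.Agent.H289Z.ZI3
import Pool.Agent.H289Z.ZIDefs

set_option autoImplicit false

namespace Pool.Agent.H289Z.ZI

open Set Filter Topology Complex
open scoped ComplexConjugate BigOperators

/-- frequencies -/
noncomputable def om (p : ℕ) (j : Fin (p / 26)) : ℝ := 2 * Real.pi * ((j : ℕ) + 1) / p

theorem p_pos_of {p : ℕ} (j : Fin (p / 26)) : 0 < p := by
  have := j.2
  omega

theorem om_pos (p : ℕ) (j : Fin (p / 26)) : 0 < om p j := by
  have h : (0 : ℝ) < p := by exact_mod_cast p_pos_of j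
  have := Real.pi_pos
  unfold om
  positivity

theorem om_le (p : ℕ) (j : Fin (p / 26)) : om p j ≤ 1 / 4 := by
  have h : (0 : ℝ) < p := by exact_mod_cast p_pos_of j
  have h1 : 26 * ((j : ℕ) + 1) ≤ p := by have := j.2; omega
  have h2 : (26 : ℝ) * ((j : ℕ) + 1) ≤ p := by exact_mod_cast h1
  have h3 := Real.pi_lt_d2
  have h4 : (0 : ℝ) ≤ (j : ℕ) := Nat.cast_nonneg _
  unfold om
  rw [div_le_iff₀ h]
  nlinarith

theorem om_inj (p : ℕ) : Function.Injective (om p) := by
  intro j k h
  have hp : (0 : ℝ) < p := by exact_mod_cast p_pos_of j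
  have := Real.pi_pos
  unfold om at h
  field_simp at h
  apply Fin.ext
  have h2 : ((j : ℕ) : ℝ) = (k : ℕ) := by linarith
  exact_mod_cast h2

theorem exp_om_mul (p : ℕ) (j : Fin (p / 26)) (k : ℕ) :
    exp (I * om p j * ((p * k : ℕ) : ℝ)) = 1 := by
  have hp : (p : ℂ) ≠ 0 := by exact_mod_cast (p_pos_of j).ne'
  have : I * om p j * ((p * k : ℕ) : ℝ) = ((((j : ℕ) + 1) * k : ℕ) : ℂ) * (2 * Real.pi * I) := by
    unfold om
    push_cast
    field_simp
  rw [this, Complex.exp_nat_mul_two_pi_mul_I]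

theorem R_zero {m : ℕ} (ω : Fin m → ℝ) (u : Fin m → ℂ) : R ω 0 u = u := by
  funext j
  simp [R]

theorem R_period (p : ℕ) (u : Fin (p / 26) → ℂ) : R (om p) p u = u := by
  funext j
  have := exp_om_mul p j 1
  rw [mul_one] at this
  simp only [R]
  rw [this, one_mul]

/-- the flow on the sphere -/
noncomputable def Rs (p : ℕ) (t : ℝ) (u : Sph (p / 26)) : Sph (p / 26) :=
  ⟨R (om p) t u, R_mem _ _ u.2⟩

theorem Rs_add (p : ℕ) (s t : ℝ) (u : Sph (p / 26)) : Rs p s (Rs p t u) = Rs p (s + t) u :=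
  Subtype.ext (R_add _ _ _ _)

theorem Rs_zero (p : ℕ) (u : Sph (p / 26)) : Rs p 0 u = u := Subtype.ext (R_zero _ _)

theorem Rs_period (p : ℕ) (u : Sph (p / 26)) : Rs p p u = u := Subtype.ext (R_period _ _)

theorem continuous_Rs (p : ℕ) (t : ℝ) : Continuous (Rs p t) :=
  ((continuous_R (om p)).comp (continuous_const.prodMk continuous_subtype_val)).subtype_mk _

/-- norm preserving power map -/
noncomputable def pw (r : ℕ) (z : ℂ) : ℂ := z ^ (r + 1) / (‖z‖ : ℂ) ^ r

theorem norm_pw (r : ℕ) (z : ℂ) : ‖pw r z‖ = ‖z‖ := by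
  unfold pw
  by_cases hz : z = 0
  · simp [hz]
  · have : ‖z‖ ≠ 0 := norm_ne_zero_iff.2 hz
    rw [norm_div, norm_pow, norm_pow, Complex.norm_real, norm_norm, pow_succ]
    field_simp

theorem continuous_pw (r : ℕ) : Continuous (pw r) := by
  rw [continuous_iff_continuousAt]
  intro z
  by_cases hz : z = 0
  · subst hz
    have h0 : pw r 0 = 0 := by simp [pw]
    rw [ContinuousAt, h0, tendsto_zero_iff_norm_tendsto_zero]
    simp only [norm_pw]
    exact tendsto_norm_zero
  · unfold pw
    refine ContinuousAt.div (by fun_prop) (by fun_prop) ?_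
    exact pow_ne_zero _ (by exact_mod_cast norm_ne_zero_iff.2 hz)

theorem pw_mul (r : ℕ) {ζ : ℂ} (hζ : ‖ζ‖ = 1) (z : ℂ) : pw r (ζ * z) = ζ ^ (r + 1) * pw r z := by
  unfold pw
  rw [norm_mul, hζ, one_mul, mul_pow, mul_div_assoc]

theorem exists_phi (p q : ℕ) : ∃ φ : Sph (p / 26) → KK, Continuous φ ∧
    (p.Prime → ¬ p ∣ q → ∀ u, 3 / 16 ≤ dist (φ u) (φ (Rs p q u))) := by
  obtain ⟨φ, h1, h2⟩ := exists_sep (om_inj p) (om_pos p) (om_le p)
  by_cases hc : p.Prime ∧ ¬ p ∣ q
  swap
  · exact ⟨φ, h1, fun a b => absurd ⟨a, b⟩ hc⟩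
  obtain ⟨hp, hq⟩ := hc
  obtain ⟨r0, -, hr0⟩ := Nat.exists_mul_mod_eq_one_of_coprime
    ((Nat.Prime.coprime_iff_not_dvd hp).2 hq).symm hp.one_lt
  obtain ⟨r, rfl⟩ : ∃ r, r0 = r + 1 := by
    cases r0 with
    | zero => simp at hr0
    | succ r => exact ⟨r, rfl⟩
  let ι : Sph (p / 26) → Sph (p / 26) := fun u => ⟨fun j => pw r (u.1 j), by
    show ∑ j, ‖pw r (u.1 j)‖ ^ 2 = 1
    simp only [norm_pw]
    exact u.2⟩
  have hι : Continuous ι := by
    refine Continuous.subtype_mk (continuous_pi fun j => (continuous_pw r).comp ?_) _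
    exact (continuous_apply j).comp continuous_subtype_val
  refine ⟨φ ∘ ι, h1.comp hι, fun _ _ u => ?_⟩
  have key : ι (Rs p q u) = Rs p 1 (ι u) := by
    apply Subtype.ext
    funext j
    show pw r (exp (I * om p j * (q : ℝ)) * u.1 j) = exp (I * om p j * (1 : ℝ)) * pw r (u.1 j)
    have h3 : I * om p j * (q : ℝ) = ((om p j * q : ℝ) : ℂ) * I := by push_cast; ring
    rw [pw_mul r (by rw [h3, Complex.norm_exp_ofReal_mul_I]), ← Complex.exp_nat_mul]
    congr 1
    have h4 := Nat.div_add_mod (q * (r + 1)) p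
    rw [hr0] at h4
    have h5 : ((r + 1 : ℕ) : ℂ) * (I * om p j * (q : ℝ)) =
        I * om p j * ((p * (q * (r + 1) / p) : ℕ) : ℝ) + I * om p j * (1 : ℝ) := by
      have h6 : ((q * (r + 1) : ℕ) : ℂ) = ((p * (q * (r + 1) / p) : ℕ) : ℂ) + 1 := by
        exact_mod_cast h4.symm
      simp only [Complex.ofReal_natCast, Complex.ofReal_one]
      rw [← mul_add, ← h6]
      push_cast
      ring
    rw [h5, Complex.exp_add, exp_om_mul, one_mul]
  show 3 / 16 ≤ dist (φ (ι u)) (φ (ι (Rs p q u)))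
  rw [key]
  exact h2 (ι u)

theorem sph_coord {m : ℕ} (u : Sph m) (j : Fin m) : ‖u.1 j‖ ≤ 1 := by
  have h1 : ∑ j, ‖u.1 j‖ ^ 2 = 1 := u.2
  have h2 := Finset.single_le_sum (f := fun j => ‖u.1 j‖ ^ 2) (fun _ _ => by positivity)
    (Finset.mem_univ j)
  rw [h1] at h2
  have := norm_nonneg (u.1 j)
  nlinarith

instance compactSpace_Sph (m : ℕ) : CompactSpace (Sph m) := by
  apply isCompact_iff_compactSpace.1
  refine Metric.isCompact_of_isClosed_isBounded (isClosed_eq (by fun_prop) continuous_const) ?_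
  refine (Metric.isBounded_closedBall (x := (0 : Fin m → ℂ)) (r := 1)).subset fun u hu => ?_
  rw [mem_closedBall_zero_iff]
  exact (pi_norm_le_iff_of_nonneg zero_le_one).2 fun j => sph_coord ⟨u, hu⟩ j

/-- closed unit disc -/
abbrev DD : Type := Metric.closedBall (0 : ℂ) 1

/-- embedding of the sphere in the infinite polydisc -/
noncomputable def emb {m : ℕ} (u : Sph m) (k : ℕ) : DD :=
  if h : k < m then ⟨u.1 ⟨k, h⟩, by simpa using sph_coord u _⟩ else ⟨0, by simp⟩

theorem continuous_emb {m : ℕ} : Continuous (emb (m := m)) := by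
  refine continuous_pi fun k => ?_
  unfold emb
  by_cases h : k < m
  · simp only [dif_pos h]
    exact Continuous.subtype_mk ((continuous_apply _).comp continuous_subtype_val) _
  · simp only [dif_neg h]
    exact continuous_const

theorem emb_inj {m : ℕ} : Function.Injective (emb (m := m)) := by
  intro u v h
  apply Subtype.ext
  funext j
  have := congrArg Subtype.val (congrFun h j)
  simpa [emb] using this

/-- the ambient space -/
abbrev Amb : Type := (ℕ → Bool) × (ℤ → (ℕ → DD) × (ℕ → KK))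

/-- the shift -/
def Sh : Amb ≃ₜ Amb where
  toFun z := (z.1, fun i => z.2 (i + 1))
  invFun z := (z.1, fun i => z.2 (i - 1))
  left_inv z := by simp
  right_inv z := by simp
  continuous_toFun := by fun_prop
  continuous_invFun := by fun_prop

theorem Sh_iter (k : ℕ) (z : Amb) : Sh^[k] z = (z.1, fun i => z.2 (i + k)) := by
  induction k with
  | zero => simp
  | succ k ih =>
    rw [Function.iterate_succ_apply', ih]
    show (z.1, fun i : ℤ => z.2 (i + 1 + k)) = _
    refine Prod.ext rfl ?_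
    funext i
    show z.2 (i + 1 + k) = z.2 (i + ((k + 1 : ℕ) : ℤ))
    rw [show i + 1 + (k : ℤ) = i + ((k + 1 : ℕ) : ℤ) by push_cast; ring]

theorem system : ∃ (X : Type) (_ : TopologicalSpace X) (_ : CompactSpace X)
    (_ : TopologicalSpace.MetrizableSpace X) (T : X ≃ₜ X), (∀ x, T x ≠ x) ∧
    ∀ p : ℕ, p.Prime → ∃ e : Sph (p / 26) ≃ₜ Per T p, ∀ u, e (Rs p 1 u) = perMap T p (e u) := by
  classical
  choose φ hφc hφ using exists_phi
  let J : ∀ p : ℕ, Sph (p / 26) → Amb := fun p u =>
    (fun n => decide (n = p), fun i => (emb (Rs p i u), fun q => φ p q (Rs p i u)))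
  have hJc : ∀ p, Continuous (J p) := by
    intro p
    refine continuous_const.prodMk (continuous_pi fun i => ?_)
    exact (continuous_emb.comp (continuous_Rs p i)).prodMk
      (continuous_pi fun q => (hφc p q).comp (continuous_Rs p i))
  have hJs : ∀ p u, Sh (J p u) = J p (Rs p 1 u) := by
    intro p u
    refine Prod.ext rfl ?_
    funext i
    show (emb (Rs p ((i + 1 : ℤ) : ℝ) u), fun q => φ p q (Rs p ((i + 1 : ℤ) : ℝ) u)) =
      (emb (Rs p i (Rs p 1 u)), fun q => φ p q (Rs p i (Rs p 1 u)))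
    rw [Rs_add]
    push_cast
    rfl
  let XS : Set Amb := {z | (∀ n, z.1 n = true → n.Prime ∧ z ∈ range (J n)) ∧
    ∀ q : ℕ, (q = 1 ∨ q.Prime) → z.1 q = false →
      ∀ i : ℤ, 3 / 16 ≤ dist ((z.2 i).2 q) ((z.2 (i + q)).2 q)}
  have hcl : IsClosed XS := by
    have hb : ∀ (n : ℕ) (b : Bool), IsClosed {z : Amb | z.1 n = b} := fun n b =>
      isClosed_eq (by fun_prop) continuous_const
    have e : XS = (⋂ n : ℕ, ({z : Amb | z.1 n = false} ∪ {z | n.Prime ∧ z ∈ range (J n)})) ∩
        ⋂ q : ℕ, ⋂ _ : (q = 1 ∨ q.Prime), ({z : Amb | z.1 q = true} ∪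
          ⋂ i : ℤ, {z : Amb | 3 / 16 ≤ dist ((z.2 i).2 q) ((z.2 (i + q)).2 q)}) := by
      ext z
      simp only [XS, mem_inter_iff, mem_iInter, mem_union, mem_ofPred_eq]
      refine and_congr (forall_congr' fun n => ?_)
        (forall_congr' fun q => forall_congr' fun _ => ?_)
      · cases z.1 n <;> simp
      · cases z.1 q <;> simp
    rw [e]
    refine IsClosed.inter (isClosed_iInter fun n => (hb n false).union ?_)
      (isClosed_iInter fun q => isClosed_iInter fun _ => (hb q true).union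
        (isClosed_iInter fun i => isClosed_le continuous_const (by fun_prop)))
    by_cases hn : n.Prime
    · simp only [hn, true_and]
      exact (isCompact_range (hJc n)).isClosed
    · simp only [hn, false_and]
      exact isClosed_empty
  have hinv : ∀ z, z ∈ XS ↔ Sh z ∈ XS := by
    intro z
    constructor
    · rintro ⟨h1, h2⟩
      refine ⟨fun n hn => ?_, fun q hq hz i => ?_⟩
      · obtain ⟨a, u, rfl⟩ := h1 n hn
        exact ⟨a, Rs n 1 u, (hJs n u).symm⟩
      · have := h2 q hq hz (i + 1)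
        show 3 / 16 ≤ dist ((z.2 (i + 1)).2 q) ((z.2 (i + q + 1)).2 q)
        rw [show i + q + 1 = i + 1 + q by ring]
        exact this
    · rintro ⟨h1, h2⟩
      refine ⟨fun n hn => ?_, fun q hq hz i => ?_⟩
      · obtain ⟨a, u, hu⟩ := h1 n hn
        refine ⟨a, Rs n (-1) u, Sh.injective ?_⟩
        rw [hJs, Rs_add, add_neg_cancel, Rs_zero, hu]
      · have := h2 q hq hz (i - 1)
        change 3 / 16 ≤ dist ((z.2 (i - 1 + 1)).2 q) ((z.2 (i - 1 + q + 1)).2 q) at this
        rw [show i - 1 + 1 = i by ring, show i - 1 + q + 1 = i + q by ring] at this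
        exact this
  have hcomp : CompactSpace XS := isCompact_iff_compactSpace.1 hcl.isCompact
  have hmet : TopologicalSpace.MetrizableSpace Amb :=
    TopologicalSpace.metrizableSpace_of_t3_secondCountable Amb
  let T : XS ≃ₜ XS := Sh.subtype hinv
  have hT : ∀ x : XS, (T x : Amb) = Sh x := fun _ => rfl
  have hTk : ∀ (k : ℕ) (x : XS), (T^[k] x : Amb) = Sh^[k] x := by
    intro k x
    induction k with
    | zero => rfl
    | succ k ih => rw [Function.iterate_succ_apply', Function.iterate_succ_apply', hT, ih]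
  have hper : ∀ (q : ℕ) (x : XS), (q = 1 ∨ q.Prime) → T^[q] x = x → x.1.1 q = true := by
    intro q x hq hx
    by_contra h
    have h1 := x.2.2 q hq (by simpa using h) 0
    have h2 := congrArg Subtype.val hx
    rw [hTk, Sh_iter] at h2
    have h3 : x.1.2 (0 + q) = x.1.2 0 := congrFun (congrArg Prod.snd h2) 0
    rw [h3, dist_self] at h1
    norm_num at h1
  refine ⟨XS, inferInstance, hcomp, inferInstance, T, fun x hx => ?_, fun p hp => ?_⟩
  · have := hper 1 x (Or.inl rfl) hx
    exact Nat.not_prime_one (x.2.1 1 this).1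
  · have hmem : ∀ u, J p u ∈ XS := by
      intro u
      refine ⟨fun n hn => ?_, fun q hq hz i => ?_⟩
      · have : n = p := by simpa [J] using hn
        subst this
        exact ⟨hp, u, rfl⟩
      · have hqp : q ≠ p := by simpa [J] using hz
        have hnd : ¬ p ∣ q := by
          rcases hq with rfl | hq
          · exact hp.not_dvd_one
          · exact fun h => hqp ((Nat.prime_dvd_prime_iff_eq hp hq).1 h).symm
        have := hφ p q hp hnd (Rs p i u)
        rw [Rs_add] at this
        show 3 / 16 ≤ dist (φ p q (Rs p i u)) (φ p q (Rs p ((i + q : ℤ) : ℝ) u))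
        push_cast
        rw [add_comm (i : ℝ)]
        exact this
    have hP : ∀ u, (⟨J p u, hmem u⟩ : XS) ∈ Per T p := by
      intro u
      apply Subtype.ext
      rw [hTk, Sh_iter]
      refine Prod.ext rfl ?_
      funext i
      show (emb (Rs p ((i + p : ℤ) : ℝ) u), fun q => φ p q (Rs p ((i + p : ℤ) : ℝ) u)) =
        (emb (Rs p i u), fun q => φ p q (Rs p i u))
      push_cast
      rw [← Rs_add, Rs_period]
    let e0 : Sph (p / 26) → Per T p := fun u => ⟨⟨J p u, hmem u⟩, hP u⟩
    have he0 : Continuous e0 := ((hJc p).subtype_mk _).subtype_mk _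
    have hbij : Function.Bijective e0 := by
      constructor
      · intro u v h
        have h1 : J p u = J p v := congrArg (fun x : Per T p => x.1.1) h
        have h2 : emb (Rs p ((0 : ℤ) : ℝ) u) = emb (Rs p ((0 : ℤ) : ℝ) v) :=
          congrArg Prod.fst (congrFun (congrArg Prod.snd h1) 0)
        rw [Int.cast_zero, Rs_zero, Rs_zero] at h2
        exact emb_inj h2
      · intro x
        obtain ⟨-, u, hu⟩ := x.1.2.1 p (hper p x.1 (Or.inr hp) x.2)
        exact ⟨u, Subtype.ext (Subtype.ext hu)⟩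
    refine ⟨Continuous.homeoOfEquivCompactToT2 (f := Equiv.ofBijective e0 hbij) he0, fun u => ?_⟩
    apply Subtype.ext
    apply Subtype.ext
    exact (hJs p u).symm

end Pool.Agent.H289Z.ZI
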